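import Pool.Agent.Lib.MP_b414a3_an.GA.Defs

set_option autoImplicit false

/-!
GA-Ift. A consequence of the analytic implicit function theorem.

`Φ : H × ℝ → ℝ` analytic at `(x0, t0)`, `Φ (x0, t0) = 1`, and along the `t`-line there is `t1 > t0` and `δ > 0` with
`Φ (x0, t0 + θ (t1 - t0)) ≤ 1 - θ δ` for `θ ∈ [0,1]`.  Then `∂_t Φ (x0,t0) ≤ -δ/(t1 - t0) < 0` (difference quotients), so the partial derivative
`fderiv Φ ∘ inr : ℝ →L ℝ` is invertible and Mathlib's `ContDiffAt.implicitFunction` (file `Mathlib.Analysis.Calculus.ImplicitContDiff`, `n = ω`,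
`AnalyticAt.contDiffAt`, `ContDiffAt.analyticAt`) gives `φ` analytic at `x0`, `φ x0 = t0`, `Φ (x, φ x) = 1` near `x0`.
(`f u` in `eventually_apply_implicitFunction` is `Φ (x0,t0) = 1`.)
-/

namespace Pool.Agent.Lib.MP_b414a3_an.GA

section

variable {H : Type*} [NormedAddCommGroup H] [NormedSpace ℝ H] [CompleteSpace H]

private theorem ift_deriv {g : ℝ → ℝ} {g' δ : ℝ} (hg : HasDerivAt g g' 0) (h0 : g 0 = 1)
    (hle : ∀ θ : ℝ, 0 ≤ θ → θ ≤ 1 → g θ ≤ 1 - θ * δ) : g' ≤ -δ := by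
  have h1 := hg.tendsto_slope_zero_right
  refine le_of_tendsto h1 ?_
  have h2 : Set.Ioc (0 : ℝ) 1 ∈ nhdsWithin (0 : ℝ) (Set.Ioi 0) := Ioc_mem_nhdsGT one_pos
  filter_upwards [h2] with θ hθ
  obtain ⟨h3, h4⟩ := hθ
  rw [zero_add, h0, smul_eq_mul, inv_mul_le_iff₀ h3]
  have := hle θ h3.le h4
  linarith

theorem exists_implicit {Φ : H × ℝ → ℝ} {x0 : H} {t0 t1 δ : ℝ} (hΦ : AnalyticAt ℝ Φ (x0, t0))
    (h1 : Φ (x0, t0) = 1) (ht : t0 < t1) (hδ : 0 < δ)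
    (hline : ∀ θ : ℝ, 0 ≤ θ → θ ≤ 1 → Φ (x0, t0 + θ * (t1 - t0)) ≤ 1 - θ * δ) :
    ∃ φ : H → ℝ, AnalyticAt ℝ φ x0 ∧ φ x0 = t0 ∧ ∀ᶠ x in nhds x0, Φ (x, φ x) = 1 := by
  have cdf : ContDiffAt ℝ ⊤ Φ (x0, t0) := hΦ.contDiffAt
  have hfd : HasFDerivAt Φ (fderiv ℝ Φ (x0, t0)) (x0, t0) :=
    hΦ.differentiableAt.hasFDerivAt
  have hline' : HasDerivAt (fun θ : ℝ => (x0, t0 + θ * (t1 - t0))) ((0 : H), t1 - t0) 0 := by
    refine (hasDerivAt_const (0 : ℝ) x0).prodMk ?_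
    have := ((hasDerivAt_id (0 : ℝ)).mul_const (t1 - t0)).const_add t0
    simpa using this
  have hfd' : HasFDerivAt Φ (fderiv ℝ Φ (x0, t0)) (x0, t0 + (0 : ℝ) * (t1 - t0)) := by
    rw [zero_mul, add_zero]
    exact hfd
  have hg : HasDerivAt (fun θ : ℝ => Φ (x0, t0 + θ * (t1 - t0)))
      (fderiv ℝ Φ (x0, t0) (0, t1 - t0)) 0 :=
    HasFDerivAt.comp_hasDerivAt (0 : ℝ) hfd' hline'
  have h2 := ift_deriv hg (by simpa using h1) hline
  have h3 : (fderiv ℝ Φ (x0, t0)) (0, t1 - t0) =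
      (t1 - t0) * (fderiv ℝ Φ (x0, t0) ∘L .inr ℝ H ℝ) 1 := by
    have h4 : ((0 : H), t1 - t0) = (t1 - t0) • ((0 : H), (1 : ℝ)) := by
      simp
    rw [h4, map_smul, smul_eq_mul]
    rfl
  rw [h3] at h2
  have hne : (fderiv ℝ Φ (x0, t0) ∘L .inr ℝ H ℝ) 1 ≠ 0 := by
    intro h0
    rw [h0, mul_zero] at h2
    linarith
  have hinv : (fderiv ℝ Φ (x0, t0) ∘L .inr ℝ H ℝ).IsInvertible := by
    refine ⟨ContinuousLinearEquiv.unitsEquivAut ℝ (Units.mk0 _ hne), ?_⟩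
    ext
    simp [ContinuousLinearEquiv.unitsEquivAut]
  have hn : (⊤ : WithTop ℕ∞) ≠ 0 := by simp
  refine ⟨cdf.implicitFunction hn hinv, ?_, ?_, ?_⟩
  · exact (cdf.contDiffAt_implicitFunction hn hinv).analyticAt
  · exact cdf.implicitFunction_apply_self hn hinv
  · have := cdf.eventually_apply_implicitFunction hn hinv
    rw [h1] at this
    exact this

end

end Pool.Agent.Lib.MP_b414a3_an.GA
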