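import Pool.Agent.Lib.MP_b414a3_an.GA.Defs

set_option autoImplicit false

/-!
GA-Slope. If an affine function is `≤ B` on the closed ball of radius `r` around `x` then `l x + c + ‖l‖ r ≤ B`.

`B - (l x + c) ≥ 0` (take `v = 0`); for `v ≠ 0` apply the hypothesis to `± (r/‖v‖) • v`: `(r/‖v‖) |l v| ≤ B - (l x + c)`, so `|l v| ≤ ((B - (l x + c))/r) ‖v‖`
and `ContinuousLinearMap.opNorm_le_bound`.
-/

namespace Pool.Agent.Lib.MP_b414a3_an.GA

section

variable {H : Type*} [NormedAddCommGroup H] [NormedSpace ℝ H]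

theorem slope_le (l : H →L[ℝ] ℝ) (c : ℝ) {x : H} {r B : ℝ} (hr : 0 < r)
    (h : ∀ v : H, ‖v‖ ≤ r → l (x + v) + c ≤ B) : l x + c + ‖l‖ * r ≤ B := by
  have h0 : 0 ≤ B - (l x + c) := by
    have := h 0 (by simpa using hr.le)
    simp only [add_zero] at this
    linarith
  have hb : ‖l‖ ≤ (B - (l x + c)) / r := by
    refine ContinuousLinearMap.opNorm_le_bound _ (div_nonneg h0 hr.le) fun v => ?_
    by_cases hv : v = 0
    · simp [hv]
    have hv' : 0 < ‖v‖ := norm_pos_iff.mpr hv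
    have hn : ‖(r / ‖v‖) • v‖ ≤ r := by
      rw [norm_smul, Real.norm_of_nonneg (by positivity), div_mul_cancel₀ _ hv'.ne']
    have h1 := h ((r / ‖v‖) • v) hn
    have h2 := h (-((r / ‖v‖) • v)) (by rw [norm_neg]; exact hn)
    rw [map_add, map_smul, smul_eq_mul] at h1
    rw [map_add, map_neg, map_smul, smul_eq_mul] at h2
    have h3 : (r / ‖v‖) * |l v| ≤ B - (l x + c) := by
      rcases abs_cases (l v) with ⟨e, _⟩ | ⟨e, _⟩ <;> rw [e] <;> nlinarith
    rw [Real.norm_eq_abs, div_mul_eq_mul_div, le_div_iff₀ hr]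
    have h4 : (r / ‖v‖) * |l v| * ‖v‖ = |l v| * r := by
      field_simp
    rw [← h4]
    exact mul_le_mul_of_nonneg_right h3 hv'.le
  have := (le_div_iff₀ hr).mp hb
  linarith

end

end Pool.Agent.Lib.MP_b414a3_an.GA
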