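import Pool.Agent.Lib.MP_b414a3_an.GA.TermA
import Pool.Agent.Lib.MP_b414a3_an.GA.Slope

set_option autoImplicit false

/-!
GA-LocA. One level `k`: all but finitely many terms have a small majorant.

For `0 < r`, `α ∈ A k i`: `α x + ‖α'‖ r ≤ h k x + L k r` (`slope_le` with `B = h k x + L k r`: `α (x+v) ≤ h k (x+v) ≤ h k x + L k ‖v‖`, `hA1`, `hlip`).
With `(1-s) h k x + c + κ k i0/2 ≤ t0`, `0 ≤ 1 - s ≤ 1`:
`X ≤ - κ k i0 / 2 + κ k i + σ k ‖x - P i x‖ + (L k + σ k + 1) r`.  Take `δ = κ k i0 / 8`, `r1 = δ / (L k + σ k + 1)` and `I` with `κ k i ≤ δ`,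
`σ k ‖x - P i x‖ ≤ δ` for `i ≥ I` (`hκ0`, `tails.tend`).
-/

namespace Pool.Agent.Lib.MP_b414a3_an.GA

section

variable {H : Type*} [NormedAddCommGroup H] [InnerProductSpace ℝ H]
variable {U : Set H} {f : H → ℝ} {a b : ℝ} {η : ℝ → ℝ}

theorem locA (d : Data U f a b η) (ha : 0 < a) {x : H} {t0 : ℝ} (k : ℕ)
    (ht : ∃ i0 : ℕ, (1 - d.s k) * d.h k x + d.c k + d.κ k i0 / 2 ≤ t0) :
    ∃ (δ r1 : ℝ) (I : ℕ), 0 < δ ∧ 0 < r1 ∧ ∀ r : ℝ, 0 < r → r ≤ r1 → ∀ i : ℕ, I ≤ i →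
      ∀ α ∈ d.A k i, X d k i α x t0 r ≤ -δ := by
  obtain ⟨i0, hi0⟩ := ht
  obtain ⟨hs1, hs2⟩ := d.hs k
  have hσ := sigma_pos d ha k
  have hL := d.hL k
  obtain ⟨hκ1, -⟩ := d.hκ k i0
  obtain ⟨δ, hδ⟩ : ∃ δ : ℝ, δ = d.κ k i0 / 8 := ⟨_, rfl⟩
  have hδ0 : 0 < δ := by rw [hδ]; linarith
  have hS : 0 < d.L k + d.σ k + 1 := by linarith
  have e1 : ∀ᶠ i in Filter.atTop, d.κ k i < δ := (d.hκ0 k).eventually_lt_const hδ0
  have e2 : ∀ᶠ i in Filter.atTop, ‖x - d.P i x‖ < δ / d.σ k :=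
    (d.tails.tend x).eventually_lt_const (div_pos hδ0 hσ)
  obtain ⟨I, hI⟩ := Filter.eventually_atTop.1 (e1.and e2)
  refine ⟨δ, δ / (d.L k + d.σ k + 1), I, hδ0, div_pos hδ0 hS, ?_⟩
  intro r hr0 hr1 i hi α hα
  obtain ⟨h1, h2⟩ := hI i hi
  have h3 : d.σ k * ‖x - d.P i x‖ ≤ δ := by
    have := (lt_div_iff₀ hσ).1 h2
    linarith
  have h4 : (d.L k + d.σ k + 1) * r ≤ δ := by
    have := (le_div_iff₀ hS).1 hr1
    linarith
  have h5 : α.1 x + α.2 + ‖α.1‖ * r ≤ d.h k x + d.L k * r := by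
    refine slope_le α.1 α.2 hr0 fun v hv => ?_
    have g1 := d.hA1 k i α hα (x + v)
    have g2 := (abs_le.1 (d.hlip k (x + v) x)).2
    have g3 : d.L k * ‖x + v - x‖ ≤ d.L k * r := by
      rw [add_sub_cancel_left]
      exact mul_le_mul_of_nonneg_left hv hL.le
    linarith
  have h6 : (1 - d.s k) * (α.1 x + α.2 + ‖α.1‖ * r) ≤
      (1 - d.s k) * (d.h k x + d.L k * r) := mul_le_mul_of_nonneg_left h5 (by linarith)
  have h7 : 0 ≤ d.s k * (d.L k * r) := by positivity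
  unfold X
  have h8 : d.κ k i0 = 8 * δ := by rw [hδ]; ring
  nlinarith

end

end Pool.Agent.Lib.MP_b414a3_an.GA
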