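import Pool.Agent.Lib.MP_b414a3_an.GA.TermA
import Pool.Agent.Lib.MP_b414a3_an.GA.Slope

set_option autoImplicit false

/-!
GA-LocB. All levels `k ≥ k1` at once: every term has a small majorant.

`γ = (t0 - f x)/8 > 0`.  Choose `R > 0` with `closedBall x R ⊆ U` and `f ≤ f x + γ` there (`U` open, `f` continuous on `U`).  For `r ≤ R`, every `k, i`, `α ∈ A k i`:
`α x + ‖α'‖ r ≤ f x + γ` (`slope_le`: points `x + v ∈ U`, `α ≤ h k ≤ f` there: `hA1`, `hle`), so with `0 ≤ 1 - s ≤ 1`, `‖x - P x‖ ≤ ‖x‖`, `σ = a s`, `κ ≤ c`: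
`X ≤ (1-s)(f x + γ) + σ (‖x‖ + r) + 2 c + r - t0 ≤ f x + s |f x| + γ + a s (‖x‖ + 1) + 2 c + r - t0` if `r ≤ 1`.
As `s k, c k → 0` there is `k1` with `s k |f x| + a s k (‖x‖ + 1) + 2 c k ≤ γ` for `k ≥ k1`; with `r ≤ γ` the total is `≤ γ + γ + γ - 8γ ≤ -γ`.
`δ = γ`, `r1 = min R (min 1 γ)`.
-/

namespace Pool.Agent.Lib.MP_b414a3_an.GA

section

variable {H : Type*} [NormedAddCommGroup H] [InnerProductSpace ℝ H]
variable {U : Set H} {f : H → ℝ} {a b : ℝ} {η : ℝ → ℝ}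

theorem locB (d : Data U f a b η) (ha : 0 < a) (hU : IsOpen U) (hc : ContinuousOn f U) {x : H}
    (hx : x ∈ U) {t0 : ℝ} (ht : f x < t0) :
    ∃ (δ r1 : ℝ) (k1 : ℕ), 0 < δ ∧ 0 < r1 ∧ ∀ r : ℝ, 0 < r → r ≤ r1 → ∀ k : ℕ, k1 ≤ k →
      ∀ i : ℕ, ∀ α ∈ d.A k i, X d k i α x t0 r ≤ -δ := by
  set γ : ℝ := (t0 - f x) / 8 with hγ
  have hγ0 : 0 < γ := by
    rw [hγ]
    linarith
  have hfc : ContinuousAt f x := hc.continuousAt (hU.mem_nhds hx)
  have hev : ∀ᶠ y in nhds x, y ∈ U ∧ f y < f x + γ :=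
    Filter.Eventually.and (hU.mem_nhds hx) (hfc.eventually_lt_const (by linarith))
  obtain ⟨R, hR0, hR⟩ := (Metric.nhds_basis_closedBall.eventually_iff).1 hev
  have hlim : Filter.Tendsto (fun k => d.s k * |f x| + a * d.s k * (‖x‖ + 1) + 2 * d.c k)
      Filter.atTop (nhds 0) := by
    have h1 := ((d.hs0.mul_const |f x|).add ((d.hs0.const_mul a).mul_const (‖x‖ + 1))).add
      (d.hc0.const_mul 2)
    simpa using h1
  obtain ⟨k1, hk1⟩ := Filter.eventually_atTop.1 (hlim.eventually_le_const hγ0)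
  refine ⟨γ, min R (min 1 γ), k1, hγ0, lt_min hR0 (lt_min one_pos hγ0), ?_⟩
  intro r hr hr1 k hk i α hα
  have hrR : r ≤ R := hr1.trans (min_le_left _ _)
  have hr2 : r ≤ 1 := hr1.trans ((min_le_right _ _).trans (min_le_left _ _))
  have hr3 : r ≤ γ := hr1.trans ((min_le_right _ _).trans (min_le_right _ _))
  have hsl : α.1 x + α.2 + ‖α.1‖ * r ≤ f x + γ := by
    refine slope_le α.1 α.2 hr fun v hv => ?_
    have hmem : x + v ∈ Metric.closedBall x R := by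
      rw [mem_closedBall_iff_norm, add_sub_cancel_left]
      exact hv.trans hrR
    obtain ⟨h1, h2⟩ := hR hmem
    exact (d.hA1 k i α hα (x + v)).trans ((d.hle k (x + v) h1).trans h2.le)
  obtain ⟨hs1, hs2⟩ := d.hs k
  have hkk := hk1 k hk
  have hκ := (d.hκ k i).2
  have hP := d.tails.contr i x
  have e1 : (1 - d.s k) * (α.1 x + α.2 + ‖α.1‖ * r) ≤ (1 - d.s k) * (f x + γ) :=
    mul_le_mul_of_nonneg_left hsl (by linarith)
  have e2 : (1 - d.s k) * (f x + γ) ≤ f x + d.s k * |f x| + γ := by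
    have h1 : -(d.s k * f x) ≤ d.s k * |f x| := by
      have := mul_le_mul_of_nonneg_left (neg_le_abs (f x)) hs1.le
      linarith
    have h2 : 0 ≤ d.s k * γ := by positivity
    linarith
  have e3 : d.σ k * (‖x - d.P i x‖ + r) ≤ a * d.s k * (‖x‖ + 1) := by
    rw [d.hσ k]
    have h1 : a / 2 * d.s k ≤ a * d.s k := mul_le_mul_of_nonneg_right (by linarith) hs1.le
    calc a / 2 * d.s k * (‖x - d.P i x‖ + r) ≤ a * d.s k * (‖x - d.P i x‖ + r) :=
          mul_le_mul_of_nonneg_right h1 (by positivity)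
      _ ≤ a * d.s k * (‖x‖ + 1) := mul_le_mul_of_nonneg_left (by linarith) (by positivity)
  unfold X
  have e4 : t0 = f x + 8 * γ := by
    rw [hγ]
    ring
  rw [e4]
  linarith

end

end Pool.Agent.Lib.MP_b414a3_an.GA
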