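import Pool.Agent.Lib.MP_b414a3_an.GA.TermA

set_option autoImplicit false

/-!
GA-LocSum. Summability of the majorants.

Outside the finite set `S`: `∑_{α ∈ A k i} exp (lam X α) ≤ card * exp (-δ lam) ≤ card * exp (-δ (k+i+1)(1 + log card))` (`one_le_lam`, second part)
`= exp (log card * (1 - δ(k+i+1)) - δ (k+i+1)) ≤ exp (-δ (k+i+1))` as soon as `δ (k+i+1) ≥ 1` (`log card ≥ 0`), i.e. for all but finitely many pairs.
`∑ exp (-δ (k+i+1)) < ∞`: product of two geometric series.  Compare off a finite set (`Summable.of_norm_bounded_eventually`, cofinite filter), or add to the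
bound a function of finite support (`summable_of_finite_support`).
-/

namespace Pool.Agent.Lib.MP_b414a3_an.GA

section

variable {H : Type*} [NormedAddCommGroup H] [InnerProductSpace ℝ H]
variable {U : Set H} {f : H → ℝ} {a b : ℝ} {η : ℝ → ℝ}

private theorem ls_geom {δ : ℝ} (hδ : 0 < δ) :
    Summable (fun p : ℕ × ℕ => Real.exp (-(δ * ((p.1 : ℝ) + p.2 + 1)))) := by
  have h1 : Summable (fun n : ℕ => (Real.exp (-δ)) ^ n) :=
    summable_geometric_of_lt_one (Real.exp_pos _).le (by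
      rw [Real.exp_lt_one_iff]
      linarith)
  have h2 := h1.mul_of_nonneg h1 (fun n => pow_nonneg (Real.exp_pos _).le n)
    (fun n => pow_nonneg (Real.exp_pos _).le n)
  refine (h2.mul_left (Real.exp (-δ))).congr fun p => ?_
  rw [← Real.exp_nat_mul, ← Real.exp_nat_mul, ← Real.exp_add, ← Real.exp_add]
  congr 1
  ring

theorem loc_summable (d : Data U f a b η) {x : H} {t r δ : ℝ} (hδ : 0 < δ)
    (S : Finset (ℕ × ℕ))
    (hS : ∀ p : ℕ × ℕ, p ∉ S → ∀ α ∈ d.A p.1 p.2, X d p.1 p.2 α x t r ≤ -δ) :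
    Summable (fun p : ℕ × ℕ =>
      ∑ α ∈ d.A p.1 p.2, Real.exp (d.lam p.1 p.2 * X d p.1 p.2 α x t r)) := by
  classical
  obtain ⟨N, hN⟩ := exists_nat_ge (1 / δ)
  refine Summable.of_norm_bounded_eventually (ls_geom hδ) ?_
  have hfin : (((S : Set (ℕ × ℕ)) ∪ ((Finset.range N ×ˢ Finset.range N : Finset (ℕ × ℕ)) :
      Set (ℕ × ℕ)))ᶜ) ∈ Filter.cofinite := by
    rw [Filter.mem_cofinite, compl_compl]
    exact (Finset.finite_toSet S).union (Finset.finite_toSet _)
  filter_upwards [hfin] with p hp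
  rw [Set.mem_compl_iff, Set.mem_union, not_or, Finset.mem_coe, Finset.mem_coe,
    Finset.mem_product, Finset.mem_range, Finset.mem_range] at hp
  obtain ⟨hpS, hpN⟩ := hp
  have hcard : (1 : ℝ) ≤ ((d.A p.1 p.2).card : ℝ) := by
    have h : 1 ≤ (d.A p.1 p.2).card := Finset.card_pos.mpr (d.hA0 _ _)
    exact_mod_cast h
  have hlog : 0 ≤ Real.log (d.A p.1 p.2).card := Real.log_nonneg hcard
  have hlam := (one_le_lam d p.1 p.2).2
  have hlam1 := (one_le_lam d p.1 p.2).1
  have hNp : (N : ℝ) ≤ (p.1 : ℝ) + p.2 + 1 := by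
    have h1 : N ≤ p.1 + p.2 + 1 := by
      by_contra hcon
      exact hpN ⟨by omega, by omega⟩
    exact_mod_cast h1
  have hone : 1 ≤ δ * ((p.1 : ℝ) + p.2 + 1) := by
    have h1 : 1 / δ ≤ (p.1 : ℝ) + p.2 + 1 := hN.trans hNp
    rwa [div_le_iff₀' hδ] at h1
  rw [Real.norm_of_nonneg (Finset.sum_nonneg fun α _ => (Real.exp_pos _).le)]
  calc ∑ α ∈ d.A p.1 p.2, Real.exp (d.lam p.1 p.2 * X d p.1 p.2 α x t r) ≤
      ∑ _α ∈ d.A p.1 p.2, Real.exp (-(δ * (((p.1 : ℝ) + p.2 + 1) *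
        (1 + Real.log (d.A p.1 p.2).card)))) := by
        refine Finset.sum_le_sum fun α hα => ?_
        rw [Real.exp_le_exp]
        have h1 := hS p hpS α hα
        have h2 : d.lam p.1 p.2 * X d p.1 p.2 α x t r ≤ d.lam p.1 p.2 * (-δ) :=
          mul_le_mul_of_nonneg_left h1 (by linarith)
        have h3 : δ * (((p.1 : ℝ) + p.2 + 1) * (1 + Real.log (d.A p.1 p.2).card)) ≤
          δ * d.lam p.1 p.2 := mul_le_mul_of_nonneg_left hlam hδ.le
        linarith
    _ = Real.exp (Real.log (d.A p.1 p.2).card) * Real.exp (-(δ * (((p.1 : ℝ) + p.2 + 1) *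
        (1 + Real.log (d.A p.1 p.2).card)))) := by
        rw [Finset.sum_const, nsmul_eq_mul, Real.exp_log (by linarith)]
    _ ≤ Real.exp (-(δ * ((p.1 : ℝ) + p.2 + 1))) := by
        rw [← Real.exp_add, Real.exp_le_exp]
        have h1 : 1 * Real.log (d.A p.1 p.2).card ≤
          δ * ((p.1 : ℝ) + p.2 + 1) * Real.log (d.A p.1 p.2).card :=
          mul_le_mul_of_nonneg_right hone hlog
        have h2 : δ * (((p.1 : ℝ) + p.2 + 1) * (1 + Real.log (d.A p.1 p.2).card)) =
          δ * ((p.1 : ℝ) + p.2 + 1) +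
            δ * ((p.1 : ℝ) + p.2 + 1) * Real.log (d.A p.1 p.2).card := by ring
        rw [h2]
        linarith

end

end Pool.Agent.Lib.MP_b414a3_an.GA
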