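import Pool.Agent.Lib.MP_b414a3_an.GA.Defs

set_option autoImplicit false

/-!
GA-LogCosh. `cosh y ≥ exp (y² / (2 + y))` for `y ≥ 0`.

`ψ y = log (cosh y) - y²/(2+y)` has `ψ 0 = 0` and `ψ' y = tanh y - (1 - 4/(2+y)²) = 4/(2+y)² - 2/(e^(2y)+1) ≥ 0` because
`2 (e^(2y) + 1) ≥ 2 (2 + 2 y + 2 y²) ≥ (2 + y)²`.  (Any other proof is fine.)
Second lemma: with `y = λ σ t`, `y²/(2+y) ≥ λ K t²` iff `λ σ² ≥ K (2 + λ σ t)`; as `K σ t ≤ σ²/2` it is enough that
`λ σ²/2 ≥ 2 K`, which is `hlam`.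
-/

namespace Pool.Agent.Lib.MP_b414a3_an.GA

private theorem logCosh_aux {y : ℝ} (hy : 0 ≤ y) :
    0 ≤ Real.log (Real.cosh y) - y ^ 2 / (2 + y) := by
  have hd : ∀ z : ℝ, 0 ≤ z → HasDerivAt (fun z => Real.log (Real.cosh z) - z ^ 2 / (2 + z))
      (Real.sinh z / Real.cosh z - (2 * z * (2 + z) - z ^ 2 * 1) / (2 + z) ^ 2) z := by
    intro z hz
    have h1 : HasDerivAt (fun z => Real.log (Real.cosh z)) (Real.sinh z / Real.cosh z) z :=
      (Real.hasDerivAt_cosh z).log (Real.cosh_pos z).ne'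
    have h2 : HasDerivAt (fun z : ℝ => z ^ 2) (2 * z) z := by
      simpa using hasDerivAt_pow 2 z
    have h3 : HasDerivAt (fun z : ℝ => 2 + z) 1 z := (hasDerivAt_id z).const_add 2
    exact h1.sub (h2.div h3 (by linarith))
  have hmono : MonotoneOn (fun z => Real.log (Real.cosh z) - z ^ 2 / (2 + z)) (Set.Ici 0) := by
    refine monotoneOn_of_deriv_nonneg (convex_Ici 0) ?_ ?_ ?_
    · intro z hz
      exact (hd z hz).continuousAt.continuousWithinAt
    · intro z hz
      rw [interior_Ici] at hz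
      exact (hd z hz.le).differentiableAt.differentiableWithinAt
    · intro z hz
      rw [interior_Ici] at hz
      have hz0 : 0 < z := hz
      rw [(hd z hz.le).deriv]
      have h1 : Real.sinh z / Real.cosh z =
          1 - 2 / (Real.exp (2 * z) + 1) := by
        have h4 : Real.exp (2 * z) = Real.exp z * Real.exp z := by
          rw [← Real.exp_add]
          congr 1
          ring
        have h5 : Real.exp (-z) = (Real.exp z)⁻¹ := Real.exp_neg z
        have h6 : 0 < Real.exp z := Real.exp_pos z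
        rw [Real.sinh_eq, Real.cosh_eq, h4, h5]
        have h7 : Real.exp z * Real.exp z + 1 ≠ 0 := by positivity
        have h8 : Real.exp z ^ 2 + 1 ≠ 0 := by positivity
        field_simp
        ring
      have h2 : (2 * z * (2 + z) - z ^ 2 * 1) / (2 + z) ^ 2 = 1 - 4 / (2 + z) ^ 2 := by
        have h7 : (2 + z) ≠ 0 := by positivity
        field_simp
        ring
      rw [h1, h2]
      have h3 : 2 / (Real.exp (2 * z) + 1) ≤ 4 / (2 + z) ^ 2 := by
        rw [div_le_div_iff₀ (by positivity) (by positivity)]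
        have h4 := Real.quadratic_le_exp_of_nonneg (x := 2 * z) (by positivity)
        nlinarith
      linarith
  have h0 := hmono (Set.mem_Ici.2 le_rfl) (Set.mem_Ici.2 hy) hy
  simpa using h0

theorem exp_le_cosh {y : ℝ} (hy : 0 ≤ y) : Real.exp (y ^ 2 / (2 + y)) ≤ Real.cosh y := by
  have h1 := logCosh_aux hy
  rw [← Real.exp_log (Real.cosh_pos y)]
  exact Real.exp_le_exp.2 (by linarith)

theorem exp_le_cosh_of_le {K σ lam t : ℝ} (hK : 0 < K) (hσ : 0 < σ) (hlam : 4 * K / σ ^ 2 ≤ lam)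
    (ht : 0 ≤ t) (ht2 : t ≤ σ / (2 * K)) :
    Real.exp (lam * (K * t ^ 2)) ≤ Real.cosh (lam * σ * t) := by
  have hlam0 : 0 < lam := lt_of_lt_of_le (by positivity) hlam
  have h0 : 0 ≤ lam * σ * t := by positivity
  refine le_trans (Real.exp_le_exp.2 ?_) (exp_le_cosh h0)
  rw [le_div_iff₀ (by positivity)]
  have h1 : 4 * K ≤ lam * σ ^ 2 := by
    rwa [div_le_iff₀ (by positivity)] at hlam
  have h2 : t * (2 * K) ≤ σ := by
    rwa [le_div_iff₀ (by positivity)] at ht2
  have h3 : K * (2 + lam * σ * t) ≤ lam * σ ^ 2 := by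
    have h4 : lam * σ * (t * (2 * K)) ≤ lam * σ * σ :=
      mul_le_mul_of_nonneg_left h2 (by positivity)
    nlinarith
  have h5 : lam * t ^ 2 * (K * (2 + lam * σ * t)) ≤ lam * t ^ 2 * (lam * σ ^ 2) :=
    mul_le_mul_of_nonneg_left h3 (by positivity)
  nlinarith

end Pool.Agent.Lib.MP_b414a3_an.GA
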