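import Pool.Agent.Lib.MP_b414a3_an.GA.TermA
import Pool.Agent.Lib.MP_b414a3_an.GA.LogCosh

set_option autoImplicit false

/-!
GA-Low. The lower bound.

Choose `i0 ≥ ‖x‖` with `‖x - P i0 x‖ ≤ σ k / (2 K k)` (`TailSys.tend`).  Take `α` from `hA2`.  By `single_le` and
`exp_le_cosh_of_le` (with `t := ‖x - P x‖`): `exp (lam ((1-s) α x + c + κ - t)) * exp (lam (K ‖x - P x‖²)) ≤ term ≤ 1`, hence
`(1-s) α x + c + κ - t + K ‖x-P x‖² ≤ 0`.  And `(1-s) α x + K ‖..‖² ≥ (1-s)(α x + K ‖..‖²) ≥ (1-s)(h k x - κ/2) ≥ (1-s) h k x - κ/2`.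
`low_gap`: from `hge` and `hD` with `M = |f x|`: some `k` has `f x - D k ≤ h k x` and `s k |f x| + D k < c k`; then
`(1-s) h k x + c k ≥ (1-s)(f x - D k) + c k ≥ f x - s |f x| - D k + c k > f x`.
-/

namespace Pool.Agent.Lib.MP_b414a3_an.GA

section

variable {H : Type*} [NormedAddCommGroup H] [InnerProductSpace ℝ H]
variable {U : Set H} {f : H → ℝ} {a b : ℝ} {η : ℝ → ℝ}

theorem term_low (d : Data U f a b η) (ha : 0 < a) (k : ℕ) (x : H) :
    ∃ i0 : ℕ, ∀ t : ℝ, d.term k i0 (x, t) ≤ 1 → (1 - d.s k) * d.h k x + d.c k + d.κ k i0 / 2 ≤ t := by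
  have hσ := sigma_pos d ha k
  have hK := d.hK k
  obtain ⟨hs0, hs1⟩ := d.hs k
  have hr : 0 < d.σ k / (2 * d.K k) := by positivity
  have h1 := (d.tails.tend x).eventually (gt_mem_nhds hr)
  have h2 : ∀ᶠ i : ℕ in Filter.atTop, ‖x‖ ≤ (i : ℝ) :=
    (tendsto_natCast_atTop_atTop (R := ℝ)).eventually (Filter.eventually_ge_atTop ‖x‖)
  obtain ⟨i0, hi1, hi2⟩ := (h1.and h2).exists
  refine ⟨i0, fun t ht => ?_⟩
  obtain ⟨α, hα, hαx⟩ := d.hA2 k i0 x hi2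
  have h3 := single_le d k i0 (x, t) α hα
  have hlam := (one_le_lam d k i0).1
  have h4 := exp_le_cosh_of_le hK hσ (d.hlam1 k i0) (norm_nonneg (x - d.P i0 x)) hi1.le
  simp only at h3
  set r := ‖x - d.P i0 x‖ with hrdef
  have h5 : Real.exp (d.lam k i0 * ((1 - d.s k) * (α.1 x + α.2) + d.c k + d.κ k i0 - t)) *
      Real.exp (d.lam k i0 * (d.K k * r ^ 2)) ≤ 1 :=
    (mul_le_mul_of_nonneg_left h4 (Real.exp_pos _).le).trans (h3.trans ht)
  rw [← Real.exp_add, Real.exp_le_one_iff, ← mul_add] at h5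
  have h6 : (1 - d.s k) * (α.1 x + α.2) + d.c k + d.κ k i0 - t + d.K k * r ^ 2 ≤ 0 := by
    by_contra hcon
    push Not at hcon
    have := mul_pos (lt_of_lt_of_le one_pos hlam) hcon
    linarith
  have hκ := (d.hκ k i0).1
  have hKr : 0 ≤ d.K k * r ^ 2 := by positivity
  have h7 : (1 - d.s k) * d.h k x ≤ (1 - d.s k) * (α.1 x + α.2 + d.κ k i0 / 2 + d.K k * r ^ 2) :=
    mul_le_mul_of_nonneg_left hαx (by linarith)
  nlinarith [mul_nonneg hs0.le hκ.le, mul_nonneg hs0.le hKr]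

theorem low_gap (d : Data U f a b η) {x : H} (hx : x ∈ U) {t : ℝ}
    (ht : ∀ k, ∃ i0 : ℕ, (1 - d.s k) * d.h k x + d.c k + d.κ k i0 / 2 ≤ t) : f x < t := by
  obtain ⟨k, hk1, hk2⟩ := ((d.hge x hx).and (d.hD |f x|)).exists
  obtain ⟨i0, hi0⟩ := ht k
  obtain ⟨hs0, hs1⟩ := d.hs k
  have hκ := (d.hκ k i0).1
  have hDle : (1 - d.s k) * (f x - d.D k) ≤ (1 - d.s k) * d.h k x :=
    mul_le_mul_of_nonneg_left hk1 (by linarith)
  have hD0 : d.s k * |f x| + d.D k < d.c k := hk2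
  have hf : d.s k * f x ≤ d.s k * |f x| := mul_le_mul_of_nonneg_left (le_abs_self _) hs0.le
  by_cases hDn : 0 ≤ d.D k
  · nlinarith [mul_nonneg hs0.le hDn]
  · push Not at hDn
    -- `f x - D ≤ h ≤ f x` forces `0 ≤ D`
    have := d.hle k x hx
    linarith

end

end Pool.Agent.Lib.MP_b414a3_an.GA
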