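import Pool.Agent.Lib.MP_b414a3_an.GA.TermUA
import Pool.Agent.Lib.MP_b414a3_an.GA.Low
import Pool.Agent.Lib.MP_b414a3_an.GA.LocA
import Pool.Agent.Lib.MP_b414a3_an.GA.LocB
import Pool.Agent.Lib.MP_b414a3_an.GA.LocSum

set_option autoImplicit false

/-!
GA-LocMaj. Local majorants: assembly of LocA, LocB, LocSum, TermUA.

`low_gap` gives `f x < t0`; `locB` gives `δB, rB, k1`; for every `k < k1`, `locA` gives `δ k, r k, I k` (use `choose`, `ht`).
`r = ` minimum of `rB` and the `r k`, `k < k1`; `δ = ` minimum of `δB` and `δ k`, `k < k1` (finite minima: `Finset.exists_min_image`, or induction on `k1`: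
there are `δ, r > 0` below the first `k1` of them).  `S = ` pairs with `k < k1`, `i < I k` (`Finset.sigma`/`biUnion`, or the product of `range k1` and
`range (sup I)`: then the bound holds off it as `i ≥ sup ≥ I k`).  `M = ` the majorant of `term_UA`, summable by `loc_summable`.
-/

namespace Pool.Agent.Lib.MP_b414a3_an.GA

section

variable {H : Type*} [NormedAddCommGroup H] [InnerProductSpace ℝ H]
variable {U : Set H} {f : H → ℝ} {a b : ℝ} {η : ℝ → ℝ}

theorem exists_pos_le_first (g : ℕ → ℝ) (hg : ∀ k, 0 < g k) (n : ℕ) : ∃ m : ℝ, 0 < m ∧ ∀ k, k < n → m ≤ g k := by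
  induction n with
  | zero => exact ⟨1, one_pos, fun k hk => absurd hk (Nat.not_lt_zero k)⟩
  | succ n ih =>
    obtain ⟨m, hm, h⟩ := ih
    refine ⟨min m (g n), lt_min hm (hg n), fun k hk => ?_⟩
    rcases Nat.lt_succ_iff_lt_or_eq.1 hk with h1 | h1
    · exact (min_le_left _ _).trans (h k h1)
    · rw [h1]
      exact min_le_right _ _

theorem loc_majorant (d : Data U f a b η) (ha : 0 < a) (hU : IsOpen U)
    (hc : ContinuousOn f U) {x : H} (hx : x ∈ U) {t0 : ℝ}
    (ht : ∀ k, ∃ i0 : ℕ, (1 - d.s k) * d.h k x + d.c k + d.κ k i0 / 2 ≤ t0) :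
    ∃ r : ℝ, 0 < r ∧ ∃ M : ℕ × ℕ → ℝ, Summable M ∧
      ∀ p : ℕ × ℕ, UA (d.term p.1 p.2) (x, t0) r (M p) := by
  obtain ⟨δB, rB, k1, hδB, hrB, hB⟩ := locB d ha hU hc hx (low_gap d hx ht)
  have hA := fun k => locA d ha k (ht k)
  choose δA rA IA hδA hrA hA using hA
  obtain ⟨δ1, hδ1, hδ1'⟩ := exists_pos_le_first δA hδA k1
  obtain ⟨r1, hr1, hr1'⟩ := exists_pos_le_first rA hrA k1
  have hr0 : 0 < min rB r1 := lt_min hrB hr1
  have hδ0 : 0 < min δB δ1 := lt_min hδB hδ1
  refine ⟨min rB r1, hr0, fun p => ∑ α ∈ d.A p.1 p.2,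
    Real.exp (d.lam p.1 p.2 * X d p.1 p.2 α x t0 (min rB r1)), ?_, fun p => ?_⟩
  · refine loc_summable d hδ0 (Finset.range k1 ×ˢ Finset.range ((Finset.range k1).sup IA)) ?_
    intro p hp α hα
    by_cases hk : p.1 < k1
    · have h1 : (Finset.range k1).sup IA ≤ p.2 := by
        by_contra hcon
        push Not at hcon
        exact hp (Finset.mem_product.2 ⟨Finset.mem_range.2 hk, Finset.mem_range.2 hcon⟩)
      have h2 : IA p.1 ≤ p.2 := (Finset.le_sup (f := IA) (Finset.mem_range.2 hk)).trans h1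
      have h3 := hA p.1 (min rB r1) hr0 ((min_le_right _ _).trans (hr1' p.1 hk)) p.2 h2 α hα
      have h4 : min δB δ1 ≤ δA p.1 := (min_le_right _ _).trans (hδ1' p.1 hk)
      linarith
    · have h3 := hB (min rB r1) hr0 (min_le_left _ _) p.1 (not_lt.1 hk) p.2 α hα
      have h4 : min δB δ1 ≤ δB := min_le_left _ _
      linarith
  · exact term_UA d ha p.1 p.2 x t0 hr0

end

end Pool.Agent.Lib.MP_b414a3_an.GA
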