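import Pool.Agent.Lib.MP_b414a3_an.GA.RootPhi
import Pool.Agent.Lib.MP_b414a3_an.GA.LocMaj
import Pool.Agent.Lib.MP_b414a3_an.GA.Ift

set_option autoImplicit false

/-!
GA-RootAn. `root d` is analytic on `U`.

Let `x0 ∈ U`, `t0 = root d x0`, `Φ z = ∑' p, term p.1 p.2 z`.  By `low_root` and `loc_majorant` there are `r, M`; `UA.tsum` and `UA.analyticAt`:
`Φ` is analytic at `z0 = (x0,t0)`, and by `UA.summable` the terms are summable at every `z` with `‖z - z0‖ < r`.
* `Φ z0 = 1`: `phi_one`.  With `t1 = f x0 + ε`: `t0 ≤ t1` (`root_bounds`), and `t0 ≠ t1` since `Φ (x0,t1) ≤ 1/2` (`sum_upper`) and `Φ z0 = 1`.  `phi_line` is the line inequality, `δ = 1/2`.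
* `exists_implicit` gives `φ`.  Near `x0`: `x ∈ U`, `(x, φ x)` within `r` of `z0` (continuity of `φ`), `Φ (x, φ x) = 1`, so `φ x ∈ Tset d x`, `root d x ≤ φ x` (`csInf_le`, `Tset_bdd`).
  If `root d x < φ x` then some `t ∈ Tset d x` has `t < φ x` (`exists_lt_of_csInf_lt`); by `term_shift` and `lam ≥ 1` every term at `(x,t)` is `≥ exp (φ x - t)` times the term at
  `(x, φ x)`, so `Φ (x,t) ≥ exp (φ x - t) > 1`, contradiction.  So `root d = φ` near `x0` (`AnalyticAt.congr`).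
-/

namespace Pool.Agent.Lib.MP_b414a3_an.GA

section

variable {H : Type*} [NormedAddCommGroup H] [InnerProductSpace ℝ H] [CompleteSpace H]
variable {U : Set H} {f : H → ℝ} {a b : ℝ} {η : ℝ → ℝ}

theorem root_analyticAt (d : Data U f a b η) (ha : 0 < a) (hU : IsOpen U)
    (hc : ContinuousOn f U) (hab : ∀ x ∈ U, a * ‖x‖ - b ≤ f x) {x : H} (hx : x ∈ U) :
    AnalyticAt ℝ (root d) x := by
  obtain ⟨r, hr, M, hM, hUA⟩ := loc_majorant d ha hU hc hx (low_root d ha hab hx)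
  have hΦan : AnalyticAt ℝ (fun z : H × ℝ => ∑' p : ℕ × ℕ, d.term p.1 p.2 z) (x, root d x) :=
    (UA.tsum hr hUA hM).analyticAt hr
  have hsum : ∀ y : H × ℝ, ‖y‖ < r →
      Summable (fun p : ℕ × ℕ => d.term p.1 p.2 ((x, root d x) + y)) :=
    fun y hy => UA.summable hUA hM hy
  have h1 : ∑' p : ℕ × ℕ, d.term p.1 p.2 (x, root d x) = 1 := phi_one d ha hab hx hr hM hUA
  have hb := root_bounds d ha hab hx
  have hlt : root d x < f x + η (f x) := by
    rcases lt_or_eq_of_le hb.2 with h | h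
    · exact h
    · exfalso
      have h2 := (sum_upper d ha hab hx).2
      rw [← h, h1] at h2
      norm_num at h2
  obtain ⟨φ, hφan, hφ0, hφ1⟩ := exists_implicit hΦan h1 hlt (by norm_num : (0 : ℝ) < 1 / 2)
    (fun θ h0 h1 => phi_line d ha hab hx hr hM hUA h0 h1)
  refine hφan.congr ?_
  have e1 : ∀ᶠ y in nhds x, y ∈ U := hU.mem_nhds hx
  have e2 : ∀ᶠ y in nhds x, ‖(y, φ y) - (x, root d x)‖ < r := by
    have hcont : ContinuousAt (fun y : H => ‖(y, φ y) - (x, root d x)‖) x :=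
      ((continuousAt_id.prodMk hφan.continuousAt).sub continuousAt_const).norm
    have h0 : ‖(x, φ x) - (x, root d x)‖ < r := by
      rw [hφ0]
      simpa using hr
    exact hcont.eventually (gt_mem_nhds h0)
  filter_upwards [e1, e2, hφ1] with y hyU hyr hyΦ
  have hs : Summable (fun p : ℕ × ℕ => d.term p.1 p.2 (y, φ y)) := by
    have h2 := hsum ((y, φ y) - (x, root d x)) hyr
    rw [add_sub_cancel] at h2
    exact h2
  have hmem : φ y ∈ Tset d y := ⟨hs, hyΦ.le⟩
  have hle : root d y ≤ φ y := csInf_le (Tset_bdd d ha y) hmem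
  refine le_antisymm ?_ hle
  by_contra hcon
  rw [not_le] at hcon
  obtain ⟨t, htm, htlt⟩ := exists_lt_of_csInf_lt ⟨φ y, hmem⟩ hcon
  have hterm : ∀ p : ℕ × ℕ,
      Real.exp (φ y - t) * d.term p.1 p.2 (y, φ y) ≤ d.term p.1 p.2 (y, t) := by
    intro p
    have h2 := term_shift d p.1 p.2 y (φ y) (t - φ y)
    rw [add_sub_cancel] at h2
    rw [h2]
    apply mul_le_mul_of_nonneg_right _ (term_pos d p.1 p.2 (y, φ y)).le
    apply Real.exp_le_exp.2
    have h3 := (one_le_lam d p.1 p.2).1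
    have h4 : 0 < φ y - t := by linarith
    nlinarith
  have h5 : Real.exp (φ y - t) ≤ 1 := by
    calc Real.exp (φ y - t) = Real.exp (φ y - t) * ∑' p : ℕ × ℕ, d.term p.1 p.2 (y, φ y) := by
          rw [hyΦ, mul_one]
      _ = ∑' p : ℕ × ℕ, Real.exp (φ y - t) * d.term p.1 p.2 (y, φ y) := tsum_mul_left.symm
      _ ≤ ∑' p : ℕ × ℕ, d.term p.1 p.2 (y, t) :=
          Summable.tsum_le_tsum hterm (hs.mul_left _) htm.1
      _ ≤ 1 := htm.2
  have h6 : 1 < Real.exp (φ y - t) := Real.one_lt_exp_iff.2 (by linarith)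
  linarith

end

end Pool.Agent.Lib.MP_b414a3_an.GA
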