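import Pool.Agent.Lib.MP_b414a3_an.GA.TermA

set_option autoImplicit false

/-!
GA-TermConv. Convexity of a term.

Each summand is `exp (p z) * cosh (q z)` with `p` affine in `z = (x,t)` and `q z = lam σ ‖x - P x‖ ≥ 0` convex (`lam, σ ≥ 0`: `one_le_lam`, `sigma_pos`).
For `u, v ≥ 0`, `u + v = 1`: `q (u z + v w) ≤ u q z + v q w =: q̄`, `cosh` is increasing on `[0,∞)` (`Real.cosh_le_cosh`), so
`exp (p ..) cosh (q ..) ≤ exp (u p z + v p w) cosh q̄ = (exp (u (p+q) z + v (p+q) w) + exp (u (p-q) z + v (p-q) w))/2 ≤ u exp (p z) cosh (q z) + v exp (p w) cosh (q w)`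
by convexity of `exp` (`convexOn_exp`).  Sum over `A k i`.
-/

namespace Pool.Agent.Lib.MP_b414a3_an.GA

private theorem tc_two (u v p q p' q' : ℝ) (hu : 0 ≤ u) (hv : 0 ≤ v) (huv : u + v = 1) :
    Real.exp (u * p + v * p') * Real.cosh (u * q + v * q') ≤
      u * (Real.exp p * Real.cosh q) + v * (Real.exp p' * Real.cosh q') := by
  have h1 := convexOn_exp.2 (Set.mem_univ (p + q)) (Set.mem_univ (p' + q')) hu hv huv
  have h2 := convexOn_exp.2 (Set.mem_univ (p - q)) (Set.mem_univ (p' - q')) hu hv huv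
  simp only [smul_eq_mul] at h1 h2
  have e1 : Real.exp (u * p + v * p') * Real.cosh (u * q + v * q') =
      (Real.exp (u * (p + q) + v * (p' + q')) + Real.exp (u * (p - q) + v * (p' - q'))) / 2 := by
    rw [Real.cosh_eq, mul_div_assoc', mul_add, ← Real.exp_add, ← Real.exp_add]
    congr 3 <;> ring
  have e2 : Real.exp p * Real.cosh q = (Real.exp (p + q) + Real.exp (p - q)) / 2 := by
    rw [Real.cosh_eq, mul_div_assoc', mul_add, ← Real.exp_add, ← Real.exp_add, sub_eq_add_neg]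
  have e3 : Real.exp p' * Real.cosh q' = (Real.exp (p' + q') + Real.exp (p' - q')) / 2 := by
    rw [Real.cosh_eq, mul_div_assoc', mul_add, ← Real.exp_add, ← Real.exp_add, sub_eq_add_neg]
  rw [e1, e2, e3]
  linarith

section

variable {H : Type*} [NormedAddCommGroup H] [InnerProductSpace ℝ H]
variable {U : Set H} {f : H → ℝ} {a b : ℝ} {η : ℝ → ℝ}

theorem term_convex (d : Data U f a b η) (ha : 0 < a) (k i : ℕ) :
    ConvexOn ℝ Set.univ (d.term k i) := by
  refine ⟨convex_univ, fun z _ w _ u v hu hv huv => ?_⟩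
  have hσ : 0 ≤ d.σ k := (sigma_pos d ha k).le
  have hl : 0 ≤ d.lam k i := zero_le_one.trans (one_le_lam d k i).1
  unfold Data.term
  rw [smul_eq_mul, smul_eq_mul, Finset.mul_sum, Finset.mul_sum, ← Finset.sum_add_distrib]
  refine Finset.sum_le_sum fun α _ => ?_
  have hls : 0 ≤ d.lam k i * d.σ k := mul_nonneg hl hσ
  have hq : ‖(u • z + v • w).1 - d.P i (u • z + v • w).1‖ ≤
      u * ‖z.1 - d.P i z.1‖ + v * ‖w.1 - d.P i w.1‖ := by
    have e : (u • z + v • w).1 - d.P i (u • z + v • w).1 =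
        u • (z.1 - d.P i z.1) + v • (w.1 - d.P i w.1) := by
      simp only [Prod.fst_add, Prod.smul_fst, map_add, map_smul, smul_sub]
      abel
    rw [e]
    refine (norm_add_le _ _).trans ?_
    rw [norm_smul, norm_smul, Real.norm_of_nonneg hu, Real.norm_of_nonneg hv]
  have hq' : d.lam k i * d.σ k * ‖(u • z + v • w).1 - d.P i (u • z + v • w).1‖ ≤
      u * (d.lam k i * d.σ k * ‖z.1 - d.P i z.1‖) + v * (d.lam k i * d.σ k * ‖w.1 - d.P i w.1‖) := by
    have := mul_le_mul_of_nonneg_left hq hls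
    linarith
  have hp : d.lam k i * ((1 - d.s k) * (α.1 (u • z + v • w).1 + α.2) + d.c k + d.κ k i -
      (u • z + v • w).2) =
      u * (d.lam k i * ((1 - d.s k) * (α.1 z.1 + α.2) + d.c k + d.κ k i - z.2)) +
      v * (d.lam k i * ((1 - d.s k) * (α.1 w.1 + α.2) + d.c k + d.κ k i - w.2)) := by
    have hv' : v = 1 - u := by linarith
    simp only [Prod.fst_add, Prod.smul_fst, Prod.snd_add, Prod.smul_snd, map_add, map_smul,
      smul_eq_mul]
    rw [hv']
    ring
  have hc : Real.cosh (d.lam k i * d.σ k * ‖(u • z + v • w).1 - d.P i (u • z + v • w).1‖) ≤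
      Real.cosh (u * (d.lam k i * d.σ k * ‖z.1 - d.P i z.1‖) +
        v * (d.lam k i * d.σ k * ‖w.1 - d.P i w.1‖)) := by
    have h0 : 0 ≤ d.lam k i * d.σ k * ‖(u • z + v • w).1 - d.P i (u • z + v • w).1‖ :=
      mul_nonneg hls (norm_nonneg _)
    rw [Real.cosh_le_cosh, abs_of_nonneg h0, abs_of_nonneg (h0.trans hq')]
    exact hq'
  rw [hp]
  refine (mul_le_mul_of_nonneg_left hc (Real.exp_pos _).le).trans ?_
  exact tc_two u v _ _ _ _ hu hv huv

end

end Pool.Agent.Lib.MP_b414a3_an.GA
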