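import Pool.Agent.Lib.MP_b414a3_an.GA.Root
import Pool.Agent.Lib.MP_b414a3_an.GA.TermConv

set_option autoImplicit false

/-!
GA-RootConv. Convexity of `root d`.

If `t ∈ Tset d x`, `t' ∈ Tset d y`, `u, v ≥ 0`, `u + v = 1`, then `u t + v t' ∈ Tset d (u x + v y)`: `term_convex` (termwise, `term ≤ u term + v term`),
comparison (`Summable.of_nonneg_of_le`, `term_pos`), `Σ ≤ u * 1 + v * 1 = 1`.  Hence `root d (u x + v y) ≤ u t + v t'` for all such `t, t'` (`csInf_le`, `Tset_bdd`); take infima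
(both sets are nonempty by `Tset_upper`; e.g. `exists_lt_of_csInf_lt` and an `ε` argument).
-/

namespace Pool.Agent.Lib.MP_b414a3_an.GA

section

variable {H : Type*} [NormedAddCommGroup H] [InnerProductSpace ℝ H]
variable {U : Set H} {f : H → ℝ} {a b : ℝ} {η : ℝ → ℝ}

private theorem rc_combo (d : Data U f a b η) (ha : 0 < a) {x y : H} {t t' u v : ℝ}
    (ht : t ∈ Tset d x) (ht' : t' ∈ Tset d y) (hu : 0 ≤ u) (hv : 0 ≤ v) (huv : u + v = 1) :
    u * t + v * t' ∈ Tset d (u • x + v • y) := by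
  obtain ⟨h1, h2⟩ := ht
  obtain ⟨h3, h4⟩ := ht'
  have hle : ∀ p : ℕ × ℕ, d.term p.1 p.2 (u • x + v • y, u * t + v * t') ≤
      u * d.term p.1 p.2 (x, t) + v * d.term p.1 p.2 (y, t') := by
    intro p
    have h5 := (term_convex d ha p.1 p.2).2 (Set.mem_univ (x, t)) (Set.mem_univ (y, t')) hu hv huv
    simpa only [Prod.smul_mk, Prod.mk_add_mk, smul_eq_mul] using h5
  have hsum : Summable fun p : ℕ × ℕ => u * d.term p.1 p.2 (x, t) + v * d.term p.1 p.2 (y, t') :=
    (h1.mul_left u).add (h3.mul_left v)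
  have hs : Summable fun p : ℕ × ℕ => d.term p.1 p.2 (u • x + v • y, u * t + v * t') :=
    Summable.of_nonneg_of_le (fun p => (term_pos d _ _ _).le) hle hsum
  refine ⟨hs, ?_⟩
  calc ∑' p : ℕ × ℕ, d.term p.1 p.2 (u • x + v • y, u * t + v * t')
      ≤ ∑' p : ℕ × ℕ, (u * d.term p.1 p.2 (x, t) + v * d.term p.1 p.2 (y, t')) :=
        hs.tsum_le_tsum hle hsum
    _ = u * ∑' p : ℕ × ℕ, d.term p.1 p.2 (x, t) + v * ∑' p : ℕ × ℕ, d.term p.1 p.2 (y, t') := by
        rw [(h1.mul_left u).tsum_add (h3.mul_left v), tsum_mul_left, tsum_mul_left]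
    _ ≤ u * 1 + v * 1 :=
        add_le_add (mul_le_mul_of_nonneg_left h2 hu) (mul_le_mul_of_nonneg_left h4 hv)
    _ = 1 := by rw [mul_one, mul_one, huv]

theorem root_convex (d : Data U f a b η) (ha : 0 < a) (hU : Convex ℝ U)
    (hab : ∀ x ∈ U, a * ‖x‖ - b ≤ f x) : ConvexOn ℝ U (root d) := by
  refine ⟨hU, ?_⟩
  intro x hx y hy u v hu hv huv
  simp only [smul_eq_mul]
  have hnx : (Tset d x).Nonempty := ⟨_, Tset_upper d ha hab hx⟩
  have hny : (Tset d y).Nonempty := ⟨_, Tset_upper d ha hab hy⟩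
  refine le_of_forall_pos_lt_add fun e he => ?_
  obtain ⟨t, ht, ht1⟩ := exists_lt_of_csInf_lt hnx (show sInf (Tset d x) < sInf (Tset d x) + e by linarith)
  obtain ⟨t', ht', ht1'⟩ := exists_lt_of_csInf_lt hny (show sInf (Tset d y) < sInf (Tset d y) + e by linarith)
  have h1 : root d (u • x + v • y) ≤ u * t + v * t' :=
    csInf_le (Tset_bdd d ha _) (rc_combo d ha ht ht' hu hv huv)
  have h2 : u * t + v * t' < u * root d x + v * root d y + e := by
    have h3 : u * (root d x + e - t) + v * (root d y + e - t') > 0 := by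
      have h4 : 0 < root d x + e - t := by unfold root; linarith
      have h5 : 0 < root d y + e - t' := by unfold root; linarith
      rcases hu.lt_or_eq with h6 | h6
      · have := mul_pos h6 h4
        have := mul_nonneg hv h5.le
        linarith
      · have h7 : v = 1 := by linarith
        rw [← h6, h7]
        linarith
    have h8 : u * e + v * e = e := by rw [← add_mul, huv, one_mul]
    nlinarith [h3, h8]
  exact lt_of_le_of_lt h1 h2

end

end Pool.Agent.Lib.MP_b414a3_an.GA
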