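import Pool.Agent.Lib.MP_b414a3_an.GA.DataEx
import Pool.Agent.Lib.MP_b414a3_an.GA.RootAn
import Pool.Agent.Lib.MP_b414a3_an.GA.RootConv

set_option autoImplicit false

/-!
GA-Main. Theorem GA (helper54).
-/

namespace Pool.Agent.Lib.MP_b414a3_an.GA

section

variable {H : Type*} [NormedAddCommGroup H] [InnerProductSpace ℝ H] [CompleteSpace H]

theorem main0 [TopologicalSpace.SeparableSpace H] {U : Set H} (hU : IsOpen U) {f : H → ℝ}
    (hf : ConvexOn ℝ U f) (hc : ContinuousOn f U) {a b : ℝ} (ha : 0 < a) (hb : 0 ≤ b)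
    (hab : ∀ x ∈ U, a * ‖x‖ - b ≤ f x) {η : ℝ → ℝ} (hη : Continuous η) (hη0 : ∀ s, 0 < η s) :
    ∃ g : H → ℝ, AnalyticOnNhd ℝ g U ∧ ConvexOn ℝ U g ∧
      ∀ x ∈ U, f x < g x ∧ g x ≤ f x + η (f x) := by
  rcases U.eq_empty_or_nonempty with hne | hne
  · refine ⟨fun _ => 0, fun x _ => analyticAt_const, ?_, ?_⟩
    · subst hne
      exact ⟨convex_empty, fun x hx => absurd hx (Set.notMem_empty x)⟩
    · subst hne
      exact fun x hx => absurd hx (Set.notMem_empty x)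
  obtain ⟨d⟩ := exists_data hU hne hf hc ha hb hη hη0 hab
  exact ⟨root d, fun x hx => root_analyticAt d ha hU hc hab hx,
    root_convex d ha hf.1 hab, fun x hx => root_bounds d ha hab hx⟩

/-- Theorem GA: the error is any positive continuous function of `f x - l x`. -/
theorem strong [TopologicalSpace.SeparableSpace H] {U : Set H} (hU : IsOpen U) {f : H → ℝ}
    (hf : ConvexOn ℝ U f) (hc : ContinuousOn f U) (l : H →L[ℝ] ℝ) {a b : ℝ} (ha : 0 < a)
    (hab : ∀ x ∈ U, l x + a * ‖x‖ - b ≤ f x) {η : ℝ → ℝ} (hη : Continuous η)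
    (hη0 : ∀ s, 0 < η s) :
    ∃ g : H → ℝ, AnalyticOnNhd ℝ g U ∧ ConvexOn ℝ U g ∧
      ∀ x ∈ U, f x < g x ∧ g x ≤ f x + η (f x - l x) := by
  have hf' : ConvexOn ℝ U (fun x => f x - l x) := by
    have hl : ConcaveOn ℝ U (fun x => l x) := by
      refine ⟨hf.1, fun x _ y _ s t _ _ _ => ?_⟩
      simp
    have h := hf.sub hl
    refine ⟨hf.1, fun x hx y hy s t hs ht hst => ?_⟩
    have h2 := h.2 hx hy hs ht hst
    simp only [Pi.sub_apply] at h2
    exact h2
  have hc' : ContinuousOn (fun x => f x - l x) U := hc.sub l.continuous.continuousOn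
  obtain ⟨g, hg1, hg2, hg3⟩ := main0 (b := max b 0) hU hf' hc' ha (le_max_right _ _)
    (fun x hx => by
      have h1 := hab x hx
      have h2 := le_max_left b 0
      show a * ‖x‖ - max b 0 ≤ f x - l x
      linarith) hη hη0
  refine ⟨fun x => g x + l x, fun x hx => (hg1 x hx).add (l.analyticAt x), ?_, fun x hx => ?_⟩
  · have hl : ConvexOn ℝ U (fun x => l x) := by
      refine ⟨hf.1, fun x _ y _ s t _ _ _ => ?_⟩
      simp
    exact hg2.add hl
  · have h : f x - l x < g x ∧ g x ≤ f x - l x + η (f x - l x) := hg3 x hx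
    show f x < g x + l x ∧ g x + l x ≤ f x + η (f x - l x)
    constructor <;> linarith [h.1, h.2]

theorem main [TopologicalSpace.SeparableSpace H] {U : Set H} (hU : IsOpen U) {f : H → ℝ}
    (hf : ConvexOn ℝ U f) (hc : ContinuousOn f U) (l : H →L[ℝ] ℝ) {a b : ℝ} (ha : 0 < a)
    (hab : ∀ x ∈ U, l x + a * ‖x‖ - b ≤ f x) {ε : ℝ} (hε : 0 < ε) :
    ∃ g : H → ℝ, AnalyticOnNhd ℝ g U ∧ ConvexOn ℝ U g ∧ ∀ x ∈ U, f x < g x ∧ g x ≤ f x + ε :=
  strong hU hf hc l ha hab (η := fun _ => ε) continuous_const fun _ => hε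

end

end Pool.Agent.Lib.MP_b414a3_an.GA
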