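import Pool.Agent.Lib.MP_b414a3_an.GA.NAn
import Pool.Agent.Lib.MP_b414a3_an.GA.Main

set_option autoImplicit false

/-!
GA-NMain. Every equivalent norm is approximable by real analytic norms.

Put `δ = min 1 (ε / b)`.  `Main.main` with `U = univ`, `f = N`, `l = 0`, `b = 0`: `g0` analytic, convex on `univ`, `N < g0 ≤ N + δ`
(`N` is convex by subadditivity and homogeneity; continuous since `|N x - N y| ≤ N (x - y) ≤ b ‖x - y‖`).
`g x = (g0 x + g0 (-x)) / 2`: even, analytic (composition with `-id`), convex, `N ≤ g ≤ N + δ` (`N (-x) = N x`).  `NSys N g a b δ`; `M = gauge (Cset g δ)`.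
`a ‖x‖ ≤ N x ≤ (1+δ) M x ≤ 2 M x`, so `(a/2) ‖x‖ ≤ M x ≤ N x ≤ b ‖x‖`; `0 ≤ N x - M x ≤ δ M x ≤ δ b ‖x‖ ≤ ε ‖x‖`.
-/

namespace Pool.Agent.Lib.MP_b414a3_an.GA

section

variable {H : Type*} [NormedAddCommGroup H] [InnerProductSpace ℝ H] [CompleteSpace H]

theorem norm_main [TopologicalSpace.SeparableSpace H] {N : H → ℝ}
    (hN1 : ∀ x y, N (x + y) ≤ N x + N y) (hN2 : ∀ (c : ℝ) (x : H), N (c • x) = |c| * N x)
    (hN3 : ∃ a b : ℝ, 0 < a ∧ 0 < b ∧ ∀ x, a * ‖x‖ ≤ N x ∧ N x ≤ b * ‖x‖) {ε : ℝ} (hε : 0 < ε) :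
    ∃ M : H → ℝ, (∀ x y, M (x + y) ≤ M x + M y) ∧ (∀ (c : ℝ) (x : H), M (c • x) = |c| * M x) ∧
      (∃ a b : ℝ, 0 < a ∧ 0 < b ∧ ∀ x, a * ‖x‖ ≤ M x ∧ M x ≤ b * ‖x‖) ∧
      AnalyticOnNhd ℝ M {x | x ≠ 0} ∧ ∀ x, |N x - M x| ≤ ε * ‖x‖ := by
  obtain ⟨a, b, ha, hb, hN3⟩ := hN3
  have hneg : ∀ x, N (-x) = N x := fun x => by
    have h := hN2 (-1) x
    rwa [neg_one_smul, abs_neg, abs_one, one_mul] at h
  have hconv : ConvexOn ℝ Set.univ N := by
    refine ⟨convex_univ, fun x _ y _ s t hs ht _ => ?_⟩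
    have h1 := hN1 (s • x) (t • y)
    rw [hN2, hN2, abs_of_nonneg hs, abs_of_nonneg ht] at h1
    simpa using h1
  have hsub : ∀ x y, |N x - N y| ≤ b * ‖x - y‖ := by
    intro x y
    have h1 : N x ≤ N (x - y) + N y := by
      have := hN1 (x - y) y
      rwa [sub_add_cancel] at this
    have h2 : N y ≤ N (y - x) + N x := by
      have := hN1 (y - x) x
      rwa [sub_add_cancel] at this
    have h3 : N (y - x) = N (x - y) := by
      rw [← hneg (x - y), neg_sub]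
    have h4 := (hN3 (x - y)).2
    rw [abs_sub_le_iff]
    constructor <;> linarith
  have hcont : Continuous N := by
    have h1 : LipschitzWith ⟨b, hb.le⟩ N := by
      refine LipschitzWith.of_dist_le_mul fun x y => ?_
      rw [Real.dist_eq, dist_eq_norm]
      exact hsub x y
    exact h1.continuous
  set δ : ℝ := min 1 (ε / b) with hδ
  have hδ0 : 0 < δ := lt_min one_pos (by positivity)
  have hδ1 : δ ≤ 1 := min_le_left _ _
  have hδb : δ * b ≤ ε := by
    have h1 : δ ≤ ε / b := min_le_right _ _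
    rwa [le_div_iff₀ hb] at h1
  obtain ⟨g0, hg1, hg2, hg3⟩ := main (H := H) isOpen_univ hconv hcont.continuousOn
    (0 : H →L[ℝ] ℝ) (b := 0) ha (fun x _ => by simpa using (hN3 x).1) hδ0
  set g : H → ℝ := fun x => (g0 x + g0 (-x)) / 2 with hg
  have hS : NSys N g a b δ := by
    refine ⟨ha, hb, hδ0, hN1, hN2, hN3, ?_, ?_, ?_, ?_⟩
    · intro x _
      have h1 : AnalyticAt ℝ (fun y : H => g0 (-y)) x := by
        have h2 : AnalyticAt ℝ g0 (-x) := hg1 (-x) (Set.mem_univ _)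
        exact h2.comp' (analyticAt_id.neg)
      exact ((hg1 x (Set.mem_univ _)).add h1).div_const
    · refine ⟨convex_univ, fun x _ y _ s t hs ht hst => ?_⟩
      have h1 := hg2.2 (Set.mem_univ x) (Set.mem_univ y) hs ht hst
      have h2 := hg2.2 (Set.mem_univ (-x)) (Set.mem_univ (-y)) hs ht hst
      have e1 : s • (-x) + t • (-y) = -(s • x + t • y) := by
        rw [smul_neg, smul_neg, neg_add]
      rw [e1] at h2
      simp only [smul_eq_mul] at h1 h2 ⊢
      rw [hg]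
      simp only
      linarith
    · intro x
      rw [hg]
      simp only
      rw [neg_neg, add_comm]
    · intro x
      have h1 := hg3 x (Set.mem_univ _)
      have h2 := hg3 (-x) (Set.mem_univ _)
      rw [hneg x] at h2
      rw [hg]
      simp only
      constructor <;> linarith [h1.1, h1.2, h2.1, h2.2]
  have hbd := fun x => gaugeC_bd hS x
  have hM0 : ∀ x, 0 ≤ gauge (Cset g δ) x := fun x => gauge_nonneg x
  refine ⟨gauge (Cset g δ), gaugeC_add hS, gaugeC_smul hS, ⟨a / 2, b, half_pos ha, hb, fun x => ?_⟩,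
    fun x hx => gaugeC_analyticAt hS hx, fun x => ?_⟩
  · obtain ⟨h1, h2⟩ := hbd x
    obtain ⟨h3, h4⟩ := hN3 x
    have h5 : (1 + δ) * gauge (Cset g δ) x ≤ 2 * gauge (Cset g δ) x :=
      mul_le_mul_of_nonneg_right (by linarith) (hM0 x)
    constructor <;> linarith
  · obtain ⟨h1, h2⟩ := hbd x
    obtain ⟨h3, h4⟩ := hN3 x
    have h5 : δ * gauge (Cset g δ) x ≤ δ * (b * ‖x‖) :=
      mul_le_mul_of_nonneg_left (h1.trans h4) hδ0.le
    have h6 : δ * b * ‖x‖ ≤ ε * ‖x‖ := mul_le_mul_of_nonneg_right hδb (norm_nonneg x)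
    rw [abs_of_nonneg (by linarith)]
    linarith

end

end Pool.Agent.Lib.MP_b414a3_an.GA
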