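import Pool.Agent.Lib.MP_b414a3_an.GA.Defs

set_option autoImplicit false

/-!
GA-AffFam. Finite families of affine minorants.

`exists_affine_family`: for `x ∈ C` take the affine `a_x ≤ h` with `a_x x = h x - η/2` (Mathlib `ConvexOn.exists_affine_le_of_lt` in
`Mathlib.Analysis.Convex.Approximation`, with `s = univ`).  The set where `h - η < a_x` is open and contains `x`; finite subcover
of the compact `C` (`IsCompact.elim_nhds_subcover`); to be nonempty add one affine minorant (at the point `0`).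

`exists_family_tail`: take `C ∋ P x` for `‖x‖ ≤ R`, with `η`.  For `x` let `p = P x`, `v = x - p`, `α` with `h p ≤ α p + η`.  Then
`h x = h (p+v) ≤ 2 h p - h (p-v) + K ‖v‖² ≤ 2 (α p + η) - α (p - v) + K ‖v‖² = α x + 2 η + K ‖v‖²`
(`α y = α.1 y + α.2`, `α (p-v) ≤ h (p-v)`, `2 α p - α (p-v) = α (p+v)`).
-/

namespace Pool.Agent.Lib.MP_b414a3_an.GA

section

variable {H : Type*} [NormedAddCommGroup H] [NormedSpace ℝ H]

private theorem affFam_one {h : H → ℝ} (hc : ConvexOn ℝ Set.univ h) (hcont : Continuous h)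
    {η : ℝ} (hη : 0 < η) (x : H) :
    ∃ α : (H →L[ℝ] ℝ) × ℝ, (∀ y, α.1 y + α.2 ≤ h y) ∧ α.1 x + α.2 = h x - η := by
  obtain ⟨l, c, h1, h2⟩ := hc.exists_affine_le_of_lt (𝕜 := ℝ) (x := x) (a := h x - η)
    (Set.mem_univ x) (by linarith) isClosed_univ (hcont.lowerSemicontinuous.lowerSemicontinuousOn _)
  refine ⟨(l, c), fun y => ?_, ?_⟩
  · have h3 := h1 ⟨y, Set.mem_univ y⟩
    simpa using h3
  · simpa using h2

theorem exists_affine_family {h : H → ℝ} (hc : ConvexOn ℝ Set.univ h) (hcont : Continuous h)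
    {C : Set H} (hC : IsCompact C) {η : ℝ} (hη : 0 < η) :
    ∃ A : Finset ((H →L[ℝ] ℝ) × ℝ), A.Nonempty ∧ (∀ α ∈ A, ∀ x, α.1 x + α.2 ≤ h x) ∧
      ∀ x ∈ C, ∃ α ∈ A, h x ≤ α.1 x + α.2 + η := by
  classical
  choose a ha1 ha2 using fun x : H => affFam_one hc hcont (half_pos hη) x
  have hopen : ∀ x ∈ C, {y | h y < (a x).1 y + (a x).2 + η} ∈ nhds x := by
    intro x _
    refine IsOpen.mem_nhds ?_ ?_
    · refine isOpen_lt hcont ?_
      fun_prop
    · change h x < (a x).1 x + (a x).2 + η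
      rw [ha2 x]
      linarith
  obtain ⟨t, -, ht⟩ := hC.elim_nhds_subcover _ hopen
  refine ⟨insert (a 0) (t.image a), Finset.insert_nonempty _ _, ?_, ?_⟩
  · intro α hα x
    rcases Finset.mem_insert.1 hα with h1 | h1
    · rw [h1]
      exact ha1 0 x
    · obtain ⟨y, -, rfl⟩ := Finset.mem_image.1 h1
      exact ha1 y x
  · intro x hx
    obtain ⟨y, hy, hxy⟩ := Set.mem_iUnion₂.1 (ht hx)
    exact ⟨a y, Finset.mem_insert_of_mem (Finset.mem_image_of_mem a hy), le_of_lt hxy⟩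

theorem exists_family_tail {h : H → ℝ} (hc : ConvexOn ℝ Set.univ h) (hcont : Continuous h) {K : ℝ}
    (h2 : ∀ x v, h (x + v) + h (x - v) - 2 * h x ≤ K * ‖v‖ ^ 2) (P : H →L[ℝ] H) {R : ℝ}
    (hP : ∃ C : Set H, IsCompact C ∧ ∀ x, ‖x‖ ≤ R → P x ∈ C) {η : ℝ} (hη : 0 < η) :
    ∃ A : Finset ((H →L[ℝ] ℝ) × ℝ), A.Nonempty ∧ (∀ α ∈ A, ∀ x, α.1 x + α.2 ≤ h x) ∧
      ∀ x, ‖x‖ ≤ R → ∃ α ∈ A, h x ≤ α.1 x + α.2 + 2 * η + K * ‖x - P x‖ ^ 2 := by
  obtain ⟨C, hC, hPC⟩ := hP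
  obtain ⟨A, hA0, hA1, hA2⟩ := exists_affine_family hc hcont hC hη
  refine ⟨A, hA0, hA1, fun x hx => ?_⟩
  obtain ⟨α, hα, h3⟩ := hA2 (P x) (hPC x hx)
  refine ⟨α, hα, ?_⟩
  have h4 := h2 (P x) (x - P x)
  have h5 := hA1 α hα (P x - (x - P x))
  have h6 : P x + (x - P x) = x := by abel
  rw [h6] at h4
  have h7 : α.1 (P x - (x - P x)) = 2 * α.1 (P x) - α.1 x := by
    rw [map_sub, map_sub]
    ring
  rw [h7] at h5
  linarith

end

end Pool.Agent.Lib.MP_b414a3_an.GA
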