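import Pool.Agent.Lib.MP_b414a3_an.GA.Main

set_option autoImplicit false

/-!
GA-AllMain. No growth condition: error `ε (1 + ‖x‖)`.

`f` has an affine minorant on `U`: for `U` nonempty take `x0 ∈ U`; a continuous convex function on an open convex set has a continuous linear `l` and `c` with `l x + c ≤ f x` on `U`
(subgradient at `x0`; for instance: separate the open convex set `{(x,t) | x ∈ U, f x < t}` from the point `(x0, f x0)` by `geometric_hahn_banach_point_open`; or search Mathlib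
for a subgradient / affine minorant lemma for `ConvexOn` on open sets; alternatively `exists_loclip` gives `f x0 - L ‖y - x0‖ ≤ f y`, and one separates similarly).
Apply `main` to `f1 x = f x + (ε/2) ‖x‖` (convex, continuous), with this `l`, `a = ε/2`, `b = -c`, and `ε/2` in place of `ε`: `f1 < g ≤ f1 + ε/2`, so
`f x < g x` and `g x ≤ f x + (ε/2) ‖x‖ + ε/2 ≤ f x + ε (1 + ‖x‖)`.
-/

namespace Pool.Agent.Lib.MP_b414a3_an.GA

section

variable {H : Type*} [NormedAddCommGroup H] [InnerProductSpace ℝ H] [CompleteSpace H]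

omit [CompleteSpace H] in
theorem exists_affine_minorant {U : Set H} (hU : IsOpen U) {f : H → ℝ}
    (hf : ConvexOn ℝ U f) (hc : ContinuousOn f U) :
    ∃ (l : H →L[ℝ] ℝ) (c : ℝ), ∀ x ∈ U, l x + c ≤ f x := by
  rcases U.eq_empty_or_nonempty with hne | ⟨x0, hx0⟩
  · refine ⟨0, 0, fun x hx => ?_⟩
    rw [hne] at hx
    exact absurd hx (Set.notMem_empty x)
  have hE : Convex ℝ {p : H × ℝ | p.1 ∈ U ∧ f p.1 < p.2} := hf.convex_strict_epigraph
  have hO : IsOpen {p : H × ℝ | p.1 ∈ U ∧ f p.1 < p.2} := by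
    have h1 : ContinuousOn (fun p : H × ℝ => p.2 - f p.1) {p : H × ℝ | p.1 ∈ U} :=
      continuous_snd.continuousOn.sub (hc.comp continuous_fst.continuousOn fun p hp => hp)
    have h2 : IsOpen {p : H × ℝ | p.1 ∈ U} := hU.preimage continuous_fst
    have h3 := h1.isOpen_inter_preimage h2 (isOpen_Ioi (a := (0 : ℝ)))
    convert h3 using 1
    ext p
    simp [Set.mem_inter_iff]
  have hn : (x0, f x0) ∉ {p : H × ℝ | p.1 ∈ U ∧ f p.1 < p.2} := fun h => lt_irrefl _ h.2
  obtain ⟨F, hF⟩ := geometric_hahn_banach_open_point hE hO hn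
  have hdec : ∀ (x : H) (t : ℝ), F (x, t) = F (x, 0) + t * F (0, 1) := by
    intro x t
    have : ((x, t) : H × ℝ) = (x, 0) + t • ((0 : H), (1 : ℝ)) := by
      ext <;> simp
    rw [this, map_add, map_smul, smul_eq_mul]
  set m : ℝ := F (0, 1) with hm
  have hm0 : m < 0 := by
    have h := hF (x0, f x0 + 1) ⟨hx0, by simp⟩
    rw [hdec, hdec x0 (f x0)] at h
    linarith
  have hmn : 0 < -m := by linarith
  refine ⟨(-m)⁻¹ • (F.comp (ContinuousLinearMap.inl ℝ H ℝ)),
    (-m)⁻¹ * (-(F (x0, 0)) - f x0 * m), fun x hx => ?_⟩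
  have hlin : ((-m)⁻¹ • (F.comp (ContinuousLinearMap.inl ℝ H ℝ))) x = (-m)⁻¹ * F (x, 0) := by
    simp
  rw [hlin, ← mul_add, inv_mul_le_iff₀ hmn]
  have key : ∀ δ : ℝ, 0 < δ → F (x, 0) - F (x0, 0) - f x0 * m ≤ -m * f x + -m * δ := by
    intro δ hδ
    have h := hF (x, f x + δ) ⟨hx, by simpa using hδ⟩
    rw [hdec, hdec x0 (f x0)] at h
    linarith
  have key2 : F (x, 0) - F (x0, 0) - f x0 * m ≤ -m * f x := by
    refine le_of_forall_pos_le_add fun η hη => ?_
    have h := key (η / (-m)) (by positivity)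
    have h2 : -m * (η / (-m)) = η := mul_div_cancel₀ η hmn.ne'
    rw [h2] at h
    exact h
  linarith

theorem all_main [TopologicalSpace.SeparableSpace H] {U : Set H} (hU : IsOpen U) {f : H → ℝ}
    (hf : ConvexOn ℝ U f) (hc : ContinuousOn f U) {ε : ℝ} (hε : 0 < ε) :
    ∃ g : H → ℝ, AnalyticOnNhd ℝ g U ∧ ConvexOn ℝ U g ∧
      ∀ x ∈ U, f x < g x ∧ g x ≤ f x + ε * (1 + ‖x‖) := by
  obtain ⟨l, c, hl⟩ := exists_affine_minorant hU hf hc
  have hε2 : 0 < ε / 2 := by positivity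
  have hf1 : ConvexOn ℝ U (fun x => f x + ε / 2 * ‖x‖) := by
    have h := (convexOn_norm (E := H) hf.1).smul hε2.le
    exact hf.add h
  have hc1 : ContinuousOn (fun x => f x + ε / 2 * ‖x‖) U :=
    hc.add (continuous_const.mul continuous_norm).continuousOn
  obtain ⟨g, hg1, hg2, hg3⟩ := main (a := ε / 2) (b := -c) (ε := ε / 2) hU hf1 hc1 l hε2
    (fun x hx => by
      have h := hl x hx
      show l x + ε / 2 * ‖x‖ - -c ≤ f x + ε / 2 * ‖x‖
      linarith) hε2
  refine ⟨g, hg1, hg2, fun x hx => ?_⟩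
  have h : f x + ε / 2 * ‖x‖ < g x ∧ g x ≤ f x + ε / 2 * ‖x‖ + ε / 2 := hg3 x hx
  have h0 : 0 ≤ ε / 2 * ‖x‖ := by positivity
  constructor
  · linarith [h.1]
  · linarith [h.2]

end

end Pool.Agent.Lib.MP_b414a3_an.GA
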