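import Pool.Agent.Lib.MP_b414a3_an.GA.LevelN

set_option autoImplicit false

/-!
GA-Level. The level function `h x = inf_{y ∈ U} (f y + L * Nk ρ (x - y))`.

`h x = ⨅ y : U, f y + L * Nk ρ (x - y)` (bounded below by `-b`, `U` nonempty).  Use: `h x ≤ f y + L * Nk ρ (x - y)` for `y ∈ U`, and for every `δ > 0` there is
`y ∈ U` with `f y + L * Nk ρ (x - y) ≤ h x + δ` (`exists_lt_of_ciInf_lt`).
Convexity: near minimisers `y, y'` of `x, x'`, use `t y + (1-t) y' ∈ U` and `Nk_convex`.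
Lipschitz and second difference: same near minimiser `y` (`Nk_lip`, `Nk_second` with `w = x - y`).  `h ≤ f` on `U`: `y = x`, `Nk_zero`.
Lower bound at `x ∈ U`: `f y + L * Nk ρ (x - y) ≥ f y + L (‖x - y‖ - ρ) ≥ f x - L ρ`.
-/

namespace Pool.Agent.Lib.MP_b414a3_an.GA

section

variable {H : Type*} [NormedAddCommGroup H] [InnerProductSpace ℝ H]

theorem exists_level {U : Set H} (hne : U.Nonempty) {f : H → ℝ} (hf : ConvexOn ℝ U f) {b : ℝ}
    (hb : ∀ x ∈ U, -b ≤ f x) {L ρ : ℝ} (hL : 0 < L) (hρ : 0 < ρ) :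
    ∃ h : H → ℝ, ConvexOn ℝ Set.univ h ∧ (∀ x y, |h x - h y| ≤ L * ‖x - y‖) ∧
      (∀ x ∈ U, h x ≤ f x) ∧ (∀ x v, h (x + v) + h (x - v) - 2 * h x ≤ L / ρ * ‖v‖ ^ 2) ∧
      (∀ x ∈ U, (∀ y ∈ U, f x - L * ‖y - x‖ ≤ f y) → f x - L * ρ ≤ h x) := by
  have hU : Nonempty U := hne.to_subtype
  set h : H → ℝ := fun x => ⨅ y : U, (f (y : H) + L * Nk ρ (x - (y : H))) with hdef
  have hbdd : ∀ x : H, BddBelow (Set.range fun y : U => f (y : H) + L * Nk ρ (x - (y : H))) := by
    intro x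
    refine ⟨-b, ?_⟩
    rintro _ ⟨y, rfl⟩
    have h1 := hb y y.2
    have h2 := mul_nonneg hL.le (Nk_nonneg hρ (x - (y : H)))
    simp only
    linarith
  have hA : ∀ x, ∀ y ∈ U, h x ≤ f y + L * Nk ρ (x - y) := fun x y hy =>
    ciInf_le (hbdd x) (⟨y, hy⟩ : U)
  have hB : ∀ x, ∀ δ : ℝ, 0 < δ → ∃ y ∈ U, f y + L * Nk ρ (x - y) < h x + δ := by
    intro x δ hδ
    obtain ⟨y, hy⟩ := exists_lt_of_ciInf_lt (show h x < h x + δ by linarith)
    exact ⟨y, y.2, hy⟩
  refine ⟨h, ⟨convex_univ, ?_⟩, ?_, ?_, ?_, ?_⟩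
  · intro x _ x' _ a c ha hc hac
    refine le_of_forall_pos_le_add fun δ hδ => ?_
    obtain ⟨y, hy, h1⟩ := hB x δ hδ
    obtain ⟨y', hy', h2⟩ := hB x' δ hδ
    have h3 := hA (a • x + c • x') (a • y + c • y') (hf.1 hy hy' ha hc hac)
    have h4 := hf.2 hy hy' ha hc hac
    have h5 := (Nk_convex (H := H) hρ).2 (Set.mem_univ (x - y)) (Set.mem_univ (x' - y')) ha hc hac
    have e1 : a • x + c • x' - (a • y + c • y') = a • (x - y) + c • (x' - y') := by
      rw [smul_sub, smul_sub]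
      abel
    rw [e1] at h3
    simp only [smul_eq_mul] at h4 h5 ⊢
    have h6 := mul_le_mul_of_nonneg_left h5 hL.le
    have h7 := mul_le_mul_of_nonneg_left h1.le ha
    have h8 := mul_le_mul_of_nonneg_left h2.le hc
    have h9 : a * δ + c * δ = δ := by rw [← add_mul, hac, one_mul]
    nlinarith
  · have key : ∀ x y, h x ≤ h y + L * ‖x - y‖ := by
      intro x y
      refine le_of_forall_pos_le_add fun δ hδ => ?_
      obtain ⟨z, hz, h1⟩ := hB y δ hδ
      have h2 := hA x z hz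
      have h3 := Nk_lip hρ (x - z) (y - z)
      rw [sub_sub_sub_cancel_right] at h3
      have h4 := (abs_le.mp h3).2
      have h5 := mul_le_mul_of_nonneg_left h4 hL.le
      nlinarith
    intro x y
    rw [abs_le]
    have h1 := key x y
    have h2 := key y x
    rw [norm_sub_rev] at h2
    constructor <;> linarith
  · intro x hx
    have h1 := hA x x hx
    rw [sub_self, Nk_zero hρ, mul_zero, add_zero] at h1
    exact h1
  · intro x v
    refine le_of_forall_pos_le_add fun δ hδ => ?_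
    obtain ⟨y, hy, h1⟩ := hB x (δ / 2) (by positivity)
    have h2 := hA (x + v) y hy
    have h3 := hA (x - v) y hy
    have h4 := Nk_second hρ (x - y) v
    have e1 : x + v - y = x - y + v := by abel
    have e2 : x - v - y = x - y - v := by abel
    rw [e1] at h2
    rw [e2] at h3
    have h5 := mul_le_mul_of_nonneg_left h4 hL.le
    have e3 : L / ρ * ‖v‖ ^ 2 = L * (‖v‖ ^ 2 / ρ) := by ring
    rw [e3]
    nlinarith
  · intro x _ hx
    refine le_ciInf fun y => ?_
    have h1 := hx y y.2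
    have h2 := mul_le_mul_of_nonneg_left (Nk_ge hρ (x - (y : H))) hL.le
    rw [norm_sub_rev] at h1
    nlinarith

end

end Pool.Agent.Lib.MP_b414a3_an.GA
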