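import Pool.Agent.Lib.MP_b414a3_an.GA.Defs

set_option autoImplicit false

/-!
GA-Tails. Existence of the projections.

`x n` a dense sequence (`TopologicalSpace.denseSeq`), `E i = span {x 0, …, x (i-1)}` (finite dimensional), `P i` the orthogonal
projection on `E i` as a map `H →L[ℝ] H` (`Submodule.starProjection` or `subtypeL.comp orthogonalProjection`).
`contr`: `‖x - P x‖ ≤ ‖x‖` (Pythagoras, or `‖x - P x‖ ≤ ‖x - 0‖` minimality).  `tend`: for `δ > 0` choose `n` with `‖x - x n‖ < δ`; for `i > n`
`‖x - P i x‖ ≤ ‖x - x n‖`.  `cpt`: `C = ` image of the closed ball of radius `r` of `E i` (proper space) under the inclusion; `‖P x‖ ≤ ‖x‖`.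
-/

namespace Pool.Agent.Lib.MP_b414a3_an.GA

section

variable {H : Type*} [NormedAddCommGroup H] [InnerProductSpace ℝ H]

theorem exists_tails [TopologicalSpace.SeparableSpace H] : ∃ P : ℕ → H →L[ℝ] H, TailSys P := by
  let x : ℕ → H := TopologicalSpace.denseSeq H
  let E : ℕ → Submodule ℝ H := fun i => Submodule.span ℝ (x '' Set.Iio i)
  have hfin : ∀ i, FiniteDimensional ℝ (E i) := fun i =>
    FiniteDimensional.span_of_finite ℝ ((Set.finite_Iio i).image x)
  let P : ℕ → H →L[ℝ] H := fun i => (E i).starProjection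
  have hmin : ∀ i (y v : H), v ∈ E i → ‖y - P i y‖ ≤ ‖y - v‖ := by
    intro i y v hv
    have h1 := Submodule.starProjection_minimal (U := E i) y
    have h2 : BddBelow (Set.range fun w : E i => ‖y - (w : H)‖) :=
      ⟨0, by rintro _ ⟨w, rfl⟩; exact norm_nonneg _⟩
    show ‖y - (E i).starProjection y‖ ≤ ‖y - v‖
    rw [h1]
    exact ciInf_le h2 ⟨v, hv⟩
  refine ⟨P, ?_, ?_, ?_⟩
  · intro i y
    have h1 := hmin i y 0 (Submodule.zero_mem _)
    rwa [sub_zero] at h1
  · intro y
    rw [Metric.tendsto_atTop]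
    intro δ hδ
    obtain ⟨n, hn⟩ := (TopologicalSpace.denseRange_denseSeq H).exists_dist_lt y hδ
    refine ⟨n + 1, fun i hi => ?_⟩
    have h1 : x n ∈ E i := Submodule.subset_span ⟨n, by
      show n < i
      omega, rfl⟩
    have h2 := hmin i y (x n) h1
    rw [Real.dist_0_eq_abs, abs_of_nonneg (norm_nonneg _)]
    refine lt_of_le_of_lt h2 ?_
    rwa [← dist_eq_norm]
  · intro i r
    refine ⟨(fun v : E i => (v : H)) '' Metric.closedBall (0 : E i) r, ?_, ?_⟩
    · haveI := hfin i
      have : ProperSpace (E i) := FiniteDimensional.proper ℝ (E i)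
      exact (isCompact_closedBall (0 : E i) r).image continuous_subtype_val
    · intro y hy
      refine ⟨(E i).orthogonalProjection y, ?_, rfl⟩
      rw [mem_closedBall_zero_iff]
      exact ((E i).norm_orthogonalProjection_apply_le y).trans hy

end

end Pool.Agent.Lib.MP_b414a3_an.GA
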