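import Pool.Agent.Lib.MP_b414a3_an.GA.LocLip
import Pool.Agent.Lib.MP_b414a3_an.GA.Level
import Pool.Agent.Lib.MP_b414a3_an.GA.AffFam
import Pool.Agent.Lib.MP_b414a3_an.GA.Tails
import Pool.Agent.Lib.MP_b414a3_an.GA.Tails

set_option autoImplicit false

/-!
GA-DataEx. The data exist.

`R k = b + 8 (k+1)`, `m k > 0` a lower bound of `η` on `[-b, R k]`, `c k = min (m k) 1 / (8 (1+b)) / 2^k`, `s k = c k / (k+1)`, `D k = c k / 2`,
`κ k i = c k / 2^i`, `σ k = a/2 * s k`, `θ k = min (m k / 2) (2 c k)`, `L k = k+1`, `ρ k = D k / L k`, `K k = L k / ρ k`; `h k` from `exists_level`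
(lower bound of `f`: `-b ≤ a‖x‖ - b ≤ f x`); `A k i` from `exists_family_tail` with `R = i`, `η = κ k i / 4`;
`lam k i = 4 K/σ² + (k+i+1)(1+log card)(1+5/θ)`.
`hθ2`: if `f x ≤ R k` then `2 c - (s/2)(f x - b) ≤ 2 c + s b ≤ 2 c (1+b) ≤ m/4` and `η (f x) ≥ m`; if `f x > R k` then `(s/2)(f x - b) ≥ 4 c`.
`hge`: `exists_loclip` gives `L₀`; for `k + 1 ≥ L₀` the last clause of `exists_level` applies (`L k * ρ k = D k`).
-/

namespace Pool.Agent.Lib.MP_b414a3_an.GA

section

variable {H : Type*} [NormedAddCommGroup H] [InnerProductSpace ℝ H]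

private theorem gad_tend (q C : ℝ) (hq0 : 0 ≤ q) (hq1 : q < 1) :
    Filter.Tendsto (fun k : ℕ => C * q ^ k) Filter.atTop (nhds 0) := by
  have h := (tendsto_pow_atTop_nhds_zero_of_lt_one hq0 hq1).const_mul C
  rwa [mul_zero] at h

omit [InnerProductSpace ℝ H] in
private theorem gad_cont {h : H → ℝ} {L : ℝ} (hL : 0 < L)
    (hl : ∀ x y, |h x - h y| ≤ L * ‖x - y‖) : Continuous h := by
  have h1 : LipschitzWith ⟨L, hL.le⟩ h := by
    refine LipschitzWith.of_dist_le_mul fun x y => ?_
    rw [Real.dist_eq, dist_eq_norm]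
    exact hl x y
  exact h1.continuous

private theorem gad_min {η : ℝ → ℝ} (hη : Continuous η) (hη0 : ∀ s, 0 < η s) {b R : ℝ}
    (h : -b ≤ R) : ∃ m : ℝ, 0 < m ∧ ∀ s, -b ≤ s → s ≤ R → m ≤ η s := by
  obtain ⟨s0, -, hs0⟩ := isCompact_Icc.exists_isMinOn (Set.nonempty_Icc.2 h) hη.continuousOn
  exact ⟨η s0, hη0 s0, fun s h1 h2 => hs0 ⟨h1, h2⟩⟩

theorem exists_data [TopologicalSpace.SeparableSpace H] {U : Set H} (hU : IsOpen U)
    (hne : U.Nonempty) {f : H → ℝ} (hf : ConvexOn ℝ U f) (hc : ContinuousOn f U) {a b : ℝ}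
    {η : ℝ → ℝ} (ha : 0 < a) (hb : 0 ≤ b) (hη : Continuous η) (hη0 : ∀ s, 0 < η s)
    (hab : ∀ x ∈ U, a * ‖x‖ - b ≤ f x) : Nonempty (Data U f a b η) := by
  obtain ⟨P, hP⟩ := exists_tails (H := H)
  have hb1 : 0 < 1 + b := by linarith
  have hfb : ∀ x ∈ U, -b ≤ f x := by
    intro x hx
    have h1 := hab x hx
    have h2 : 0 ≤ a * ‖x‖ := by positivity
    linarith
  have hmex := fun k : ℕ => gad_min hη hη0 (b := b) (R := b + 8 * ((k : ℝ) + 1))
    (by have : (0 : ℝ) ≤ k := Nat.cast_nonneg k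
        linarith)
  choose m hm0 hm using hmex
  set c : ℕ → ℝ := fun k => min (m k) 1 / (8 * (1 + b)) * (1 / 2) ^ k with hcd
  set s : ℕ → ℝ := fun k => c k / ((k : ℝ) + 1) with hs
  set κ : ℕ → ℕ → ℝ := fun k i => c k * (1 / 2) ^ i with hκ
  set D : ℕ → ℝ := fun k => c k / 2 with hD
  set L : ℕ → ℝ := fun k => (k : ℝ) + 1 with hL
  set ρ : ℕ → ℝ := fun k => D k / L k with hρ
  set θ : ℕ → ℝ := fun k => min (m k / 2) (2 * c k) with hθ
  have hL0 : ∀ k, 0 < L k := fun k => by rw [hL]; positivity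
  have hL1 : ∀ k, 1 ≤ L k := fun k => by
    have : (0 : ℝ) ≤ k := Nat.cast_nonneg k
    rw [hL]
    simp only
    linarith
  have hc0 : ∀ k, 0 < c k := fun k => by
    have := lt_min (hm0 k) one_pos
    rw [hcd]
    positivity
  have hh1 : ∀ k, ((1 : ℝ) / 2) ^ k ≤ 1 := fun k => pow_le_one₀ (by norm_num) (by norm_num)
  have hcm : ∀ k, c k ≤ min (m k) 1 / (8 * (1 + b)) := fun k => by
    have h1 : 0 ≤ min (m k) 1 / (8 * (1 + b)) := by
      have := lt_min (hm0 k) one_pos
      positivity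
    have := mul_le_mul_of_nonneg_left (hh1 k) h1
    rw [mul_one] at this
    exact this
  have hcm1 : ∀ k, 8 * (c k * (1 + b)) ≤ m k := fun k => by
    have h1 := hcm k
    rw [le_div_iff₀ (by positivity)] at h1
    have h2 := min_le_left (m k) 1
    linarith
  have hcm2 : ∀ k, c k ≤ 1 / 8 := fun k => by
    have h1 := hcm k
    rw [le_div_iff₀ (by positivity)] at h1
    have h2 := min_le_right (m k) 1
    have h3 : 0 ≤ c k * b := mul_nonneg (hc0 k).le hb
    linarith
  have hs0 : ∀ k, 0 < s k := fun k => div_pos (hc0 k) (hL0 k)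
  have hsc : ∀ k, s k ≤ c k := fun k => div_le_self (hc0 k).le (hL1 k)
  have hsL : ∀ k, s k * ((k : ℝ) + 1) = c k := fun k => div_mul_cancel₀ _ (hL0 k).ne'
  have hκ0 : ∀ k i, 0 < κ k i := fun k i => mul_pos (hc0 k) (by positivity)
  have hD0 : ∀ k, 0 < D k := fun k => half_pos (hc0 k)
  have hθ0 : ∀ k, 0 < θ k := fun k =>
    lt_min (half_pos (hm0 k)) (by have := hc0 k; positivity)
  have hρ0 : ∀ k, 0 < ρ k := fun k => div_pos (hD0 k) (hL0 k)
  have hLρ : ∀ k, L k * ρ k = D k := fun k => mul_div_cancel₀ _ (hL0 k).ne'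
  have hctend : Filter.Tendsto c Filter.atTop (nhds 0) := by
    have h1 := gad_tend (1 / 2) (1 / 8) (by norm_num) (by norm_num)
    refine squeeze_zero (fun k => (hc0 k).le) (fun k => ?_) h1
    have h2 : min (m k) 1 / (8 * (1 + b)) ≤ 1 / 8 := by
      rw [div_le_div_iff₀ (by positivity) (by norm_num)]
      have h3 := min_le_right (m k) 1
      linarith
    exact mul_le_mul_of_nonneg_right h2 (by positivity)
  have hstend : Filter.Tendsto s Filter.atTop (nhds 0) :=
    squeeze_zero (fun k => (hs0 k).le) hsc hctend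
  have hlev := fun k => exists_level hne hf hfb (hL0 k) (hρ0 k)
  choose h h1 h2 h3 h4 h5 using hlev
  have hfam := fun k i => exists_family_tail (h1 k) (gad_cont (hL0 k) (h2 k)) (h4 k) (P i)
    (hP.cpt i (i : ℝ)) (η := κ k i / 4) (by have := hκ0 k i; positivity)
  choose A hA0 hA1 hA2 using hfam
  have hcard : ∀ k i, 0 ≤ Real.log ((A k i).card : ℝ) := fun k i => Real.log_natCast_nonneg _
  have hK0 : ∀ k, 0 < L k / ρ k := fun k => div_pos (hL0 k) (hρ0 k)
  have hσ0 : ∀ k, 0 < a / 2 * s k := fun k => mul_pos (half_pos ha) (hs0 k)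
  refine ⟨{ P := P
            h := h
            A := A
            s := s
            σ := fun k => a / 2 * s k
            c := c
            D := D
            K := fun k => L k / ρ k
            L := L
            κ := κ
            lam := fun k i => 4 * (L k / ρ k) / (a / 2 * s k) ^ 2 +
              ((k : ℝ) + i + 1) * (1 + Real.log (A k i).card) * (1 + 5 / θ k)
            θ := θ
            tails := hP
            hs := fun k => ⟨hs0 k, ?_⟩
            hs0 := hstend
            hσ := fun k => rfl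
            hc := hc0
            hc0 := hctend
            hD := ?_
            hK := hK0
            hκ := fun k i => ⟨hκ0 k i, ?_⟩
            hκ0 := fun k => gad_tend (1 / 2) (c k) (by norm_num) (by norm_num)
            hL := hL0
            hlip := h2
            hle := h3
            hge := ?_
            hA0 := hA0
            hA1 := hA1
            hA2 := ?_
            hθ := hθ0
            hθ2 := ?_
            hlam1 := ?_
            hlam2 := ?_ }⟩
  · have e1 := hsc k
    have e2 := hcm2 k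
    linarith
  · intro M
    filter_upwards [Filter.eventually_gt_atTop ⌈2 * |M|⌉₊] with k hk
    have e1 := Nat.le_ceil (2 * |M|)
    have e2 : ((⌈2 * |M|⌉₊ : ℕ) : ℝ) < k := by exact_mod_cast hk
    have e3 : s k * M ≤ s k * |M| := mul_le_mul_of_nonneg_left (le_abs_self M) (hs0 k).le
    have e4 : s k * |M| < s k * (((k : ℝ) + 1) / 2) :=
      mul_lt_mul_of_pos_left (by linarith) (hs0 k)
    have e5 : s k * (((k : ℝ) + 1) / 2) = c k / 2 := by
      rw [← hsL k]
      ring
    have e6 : D k = c k / 2 := rfl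
    linarith
  · have := mul_le_mul_of_nonneg_left (hh1 i) (hc0 k).le
    rw [mul_one] at this
    exact this
  · intro x hx
    obtain ⟨L₀, hL₀, h6⟩ := exists_loclip hU hf hc hx
    filter_upwards [Filter.eventually_ge_atTop ⌈L₀⌉₊] with k hk
    have h7 : L₀ ≤ L k := by
      have e1 := Nat.le_ceil L₀
      have e2 : ((⌈L₀⌉₊ : ℕ) : ℝ) ≤ k := by exact_mod_cast hk
      rw [hL]
      simp only
      linarith
    have h8 := h5 k x hx fun y hy => by
      have e1 := h6 y hy
      have e2 := mul_le_mul_of_nonneg_right h7 (norm_nonneg (y - x))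
      linarith
    rw [hLρ] at h8
    exact h8
  · intro k i x hx
    obtain ⟨α, hα, h6⟩ := hA2 k i x hx
    refine ⟨α, hα, ?_⟩
    have e : 2 * (κ k i / 4) = κ k i / 2 := by ring
    rw [e] at h6
    exact h6
  · intro k x hx
    have e0 := hfb x hx
    have ec := hc0 k
    have es := hs0 k
    rcases le_or_gt (f x) (b + 8 * ((k : ℝ) + 1)) with hle | hgt
    · have e1 : m k ≤ η (f x) := hm k (f x) e0 hle
      have e2 : θ k ≤ m k / 2 := min_le_left _ _
      have e3 := hcm1 k
      have e4 : -(s k / 2 * (f x - b)) ≤ s k * b := by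
        have := mul_nonneg es.le (show 0 ≤ f x + b by linarith)
        linarith
      have e5 : s k * b ≤ c k * b := mul_le_mul_of_nonneg_right (hsc k) hb
      have e6 := hm0 k
      have e7 : 0 ≤ c k * b := mul_nonneg ec.le hb
      linarith
    · have e1 := hη0 (f x)
      have e2 : θ k ≤ 2 * c k := min_le_right _ _
      have e3 : s k / 2 * (8 * ((k : ℝ) + 1)) ≤ s k / 2 * (f x - b) :=
        mul_le_mul_of_nonneg_left (by linarith) (half_pos es).le
      have e4 : s k / 2 * (8 * ((k : ℝ) + 1)) = 4 * c k := by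
        rw [← hsL k]
        ring
      linarith
  · intro k i
    have e1 := hcard k i
    have e3 := hθ0 k
    have e2 : 0 ≤ ((k : ℝ) + i + 1) * (1 + Real.log (A k i).card) * (1 + 5 / θ k) := by positivity
    linarith
  · intro k i
    have e1 := hK0 k
    have e2 : 0 ≤ 4 * (L k / ρ k) / (a / 2 * s k) ^ 2 := by positivity
    linarith

end

end Pool.Agent.Lib.MP_b414a3_an.GA
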