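import Mathlib

set_option autoImplicit false

/-!
# Board GA: global real analytic approximation of convex functions. Definitions.

* `UA f x r M`: `f` is given near `x` by a power series `p` with `∑ ‖p n‖ r ^ n ≤ M` (majorant bound).
* `TailSys P`: contractions `P i` with `x - P i x → 0` and `P i` compact on balls.
* `Data U f a b η`: the parameters, level functions and finite families of the construction.
* `Data.term`: the term `E_ki (x, t)`.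
-/

namespace Pool.Agent.Lib.MP_b414a3_an.GA

/-- Power series at `x` with majorant bound `M` at radius `r`. -/
def UA {E : Type*} [NormedAddCommGroup E] [NormedSpace ℝ E] (f : E → ℝ) (x : E) (r M : ℝ) : Prop :=
  ∃ p : FormalMultilinearSeries ℝ E ℝ,
    (∀ y : E, ‖y‖ < r → HasSum (fun n => p n (fun _ => y)) (f (x + y))) ∧
    Summable (fun n => ‖p n‖ * r ^ n) ∧ ∑' n, ‖p n‖ * r ^ n ≤ M

section

variable {H : Type*} [NormedAddCommGroup H] [InnerProductSpace ℝ H]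

/-- An approximating sequence of finite dimensional contractions. -/
structure TailSys (P : ℕ → H →L[ℝ] H) : Prop where
  contr : ∀ i x, ‖x - P i x‖ ≤ ‖x‖
  tend : ∀ x, Filter.Tendsto (fun i => ‖x - P i x‖) Filter.atTop (nhds 0)
  cpt : ∀ (i : ℕ) (r : ℝ), ∃ C : Set H, IsCompact C ∧ ∀ x, ‖x‖ ≤ r → P i x ∈ C

/-- All parameters of the construction for `f` on `U` with `a ‖x‖ - b ≤ f x`, error `η (f x)`. -/
structure Data (U : Set H) (f : H → ℝ) (a b : ℝ) (η : ℝ → ℝ) where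
  P : ℕ → H →L[ℝ] H
  h : ℕ → H → ℝ
  A : ℕ → ℕ → Finset ((H →L[ℝ] ℝ) × ℝ)
  s : ℕ → ℝ
  σ : ℕ → ℝ
  c : ℕ → ℝ
  D : ℕ → ℝ
  K : ℕ → ℝ
  L : ℕ → ℝ
  κ : ℕ → ℕ → ℝ
  lam : ℕ → ℕ → ℝ
  θ : ℕ → ℝ
  tails : TailSys P
  hs : ∀ k, 0 < s k ∧ s k ≤ 1 / 2
  hs0 : Filter.Tendsto s Filter.atTop (nhds 0)
  hσ : ∀ k, σ k = a / 2 * s k
  hc : ∀ k, 0 < c k
  hc0 : Filter.Tendsto c Filter.atTop (nhds 0)
  hD : ∀ M : ℝ, ∀ᶠ k in Filter.atTop, s k * M + D k < c k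
  hK : ∀ k, 0 < K k
  hκ : ∀ k i, 0 < κ k i ∧ κ k i ≤ c k
  hκ0 : ∀ k, Filter.Tendsto (κ k) Filter.atTop (nhds 0)
  hL : ∀ k, 0 < L k
  hlip : ∀ k x y, |h k x - h k y| ≤ L k * ‖x - y‖
  hle : ∀ k, ∀ x ∈ U, h k x ≤ f x
  hge : ∀ x ∈ U, ∀ᶠ k in Filter.atTop, f x - D k ≤ h k x
  hA0 : ∀ k i, (A k i).Nonempty
  hA1 : ∀ k i, ∀ α ∈ A k i, ∀ x, α.1 x + α.2 ≤ h k x
  hA2 : ∀ (k i : ℕ) (x : H), ‖x‖ ≤ (i : ℝ) → ∃ α ∈ A k i, h k x ≤ α.1 x + α.2 + κ k i / 2 + K k * ‖x - P i x‖ ^ 2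
  hθ : ∀ k, 0 < θ k
  hθ2 : ∀ k, ∀ x ∈ U, 2 * c k - s k / 2 * (f x - b) - η (f x) ≤ -θ k
  hlam1 : ∀ k i : ℕ, 4 * K k / σ k ^ 2 ≤ lam k i
  hlam2 : ∀ k i : ℕ, ((k : ℝ) + i + 1) * (1 + Real.log (A k i).card) * (1 + 5 / θ k) ≤ lam k i

/-- The term `E_ki` at `z = (x, t)`. -/
noncomputable def Data.term {U : Set H} {f : H → ℝ} {a b : ℝ} {η : ℝ → ℝ} (d : Data U f a b η) (k i : ℕ)
    (z : H × ℝ) : ℝ :=
  ∑ α ∈ d.A k i, Real.exp (d.lam k i * ((1 - d.s k) * (α.1 z.1 + α.2) + d.c k + d.κ k i - z.2)) *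
    Real.cosh (d.lam k i * d.σ k * ‖z.1 - d.P i z.1‖)

end

end Pool.Agent.Lib.MP_b414a3_an.GA
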