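import Pool.Agent.Lib.MP_b414a3_an.GA.Defs

set_option autoImplicit false

/-!
GA-LevelN. The kernel `N v = √(‖v‖² + ρ²) - ρ`.

`0 ≤ N v`, `‖v‖ - ρ ≤ N v ≤ ‖v‖`: square roots.
Lipschitz: `|√A - √B| ≤ |A - B| / (√A + √B)` and `√(‖v‖²+ρ²) + √(‖w‖²+ρ²) ≥ ‖v‖ + ‖w‖`; `|‖v‖² - ‖w‖²| = |‖v‖-‖w‖| (‖v‖+‖w‖) ≤ ‖v-w‖ (‖v‖+‖w‖)`.
Convexity: `√(s² + ρ²)` is convex and increasing in `s ≥ 0`, or: `√(‖v‖²+ρ²)` is the norm of `(v, ρ)` in `WithLp 2 (H × ℝ)`.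
Direct: `√((s+t)..)`: for `u + v = 1`, Cauchy-Schwarz `‖x‖ ‖y‖ + ρ² ≤ √(‖x‖²+ρ²) √(‖y‖²+ρ²)`.
Second difference with `C = ‖w‖² + ρ²`: `√(‖w+v‖²+ρ²) + √(‖w-v‖²+ρ²) ≤ √(2 * (sum of the two radicands)) = 2 √(C + ‖v‖²)` (parallelogram law)
and `2 √(C + ‖v‖²) - 2 √C ≤ ‖v‖² / √C ≤ ‖v‖² / ρ`.
-/

namespace Pool.Agent.Lib.MP_b414a3_an.GA

section

variable {H : Type*} [NormedAddCommGroup H] [InnerProductSpace ℝ H]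

/-- The smoothed norm. -/
noncomputable def Nk (ρ : ℝ) (v : H) : ℝ := Real.sqrt (‖v‖ ^ 2 + ρ ^ 2) - ρ

set_option linter.unusedSectionVars false

private lemma levS_sq (ρ : ℝ) (v : H) :
    Real.sqrt (‖v‖ ^ 2 + ρ ^ 2) ^ 2 = ‖v‖ ^ 2 + ρ ^ 2 :=
  Real.sq_sqrt (by positivity)

private lemma levS_ge {ρ : ℝ} (_ : 0 < ρ) (v : H) : ρ ≤ Real.sqrt (‖v‖ ^ 2 + ρ ^ 2) :=
  Real.le_sqrt_of_sq_le (by nlinarith [sq_nonneg ‖v‖])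

private lemma levS_norm (ρ : ℝ) (v : H) : ‖v‖ ≤ Real.sqrt (‖v‖ ^ 2 + ρ ^ 2) :=
  Real.le_sqrt_of_sq_le (by nlinarith [sq_nonneg ρ])

theorem Nk_zero {ρ : ℝ} (hρ : 0 < ρ) : Nk ρ (0 : H) = 0 := by
  unfold Nk
  rw [norm_zero, zero_pow (by norm_num), zero_add, Real.sqrt_sq hρ.le, sub_self]

theorem Nk_nonneg {ρ : ℝ} (hρ : 0 < ρ) (v : H) : 0 ≤ Nk ρ v := by
  have := levS_ge hρ v
  unfold Nk
  linarith

theorem Nk_ge {ρ : ℝ} (hρ : 0 < ρ) (v : H) : ‖v‖ - ρ ≤ Nk ρ v := by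
  have := levS_norm ρ v
  unfold Nk
  linarith

theorem Nk_lip {ρ : ℝ} (hρ : 0 < ρ) (v w : H) : |Nk ρ v - Nk ρ w| ≤ ‖v - w‖ := by
  have h1 := levS_sq ρ v
  have h2 := levS_sq ρ w
  have h3 := levS_ge hρ v
  have h4 := levS_ge hρ w
  have h5 := levS_norm ρ v
  have h6 := levS_norm ρ w
  unfold Nk
  set A := Real.sqrt (‖v‖ ^ 2 + ρ ^ 2)
  set B := Real.sqrt (‖w‖ ^ 2 + ρ ^ 2)
  have e : A - ρ - (B - ρ) = A - B := by ring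
  rw [e]
  have h7 : |‖v‖ - ‖w‖| ≤ ‖v - w‖ := abs_norm_sub_norm_le v w
  have h8 : (A - B) * (A + B) = (‖v‖ - ‖w‖) * (‖v‖ + ‖w‖) := by
    linear_combination h1 - h2
  have hAB : 0 < A + B := by linarith
  have h9 : |A - B| * (A + B) ≤ ‖v - w‖ * (A + B) := by
    calc |A - B| * (A + B) = |(A - B) * (A + B)| := by rw [abs_mul, abs_of_pos hAB]
      _ = |‖v‖ - ‖w‖| * (‖v‖ + ‖w‖) := by
        rw [h8, abs_mul, abs_of_nonneg (by positivity : 0 ≤ ‖v‖ + ‖w‖)]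
      _ ≤ ‖v - w‖ * (A + B) :=
        mul_le_mul h7 (by linarith) (by positivity) (norm_nonneg _)
  exact le_of_mul_le_mul_right h9 hAB

theorem Nk_convex {ρ : ℝ} (hρ : 0 < ρ) : ConvexOn ℝ Set.univ (Nk ρ : H → ℝ) := by
  refine ⟨convex_univ, fun x _ y _ a b ha hb hab => ?_⟩
  have h1 := levS_sq ρ x
  have h2 := levS_sq ρ y
  have h3 := levS_ge hρ x
  have h4 := levS_ge hρ y
  unfold Nk
  rw [smul_eq_mul, smul_eq_mul]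
  set A := Real.sqrt (‖x‖ ^ 2 + ρ ^ 2)
  set B := Real.sqrt (‖y‖ ^ 2 + ρ ^ 2)
  have hn : ‖a • x + b • y‖ ≤ a * ‖x‖ + b * ‖y‖ := by
    refine (norm_add_le _ _).trans ?_
    rw [norm_smul, norm_smul, Real.norm_of_nonneg ha, Real.norm_of_nonneg hb]
  have hAB : ‖x‖ * ‖y‖ + ρ ^ 2 ≤ A * B := by
    have h5 : (‖x‖ * ‖y‖ + ρ ^ 2) ^ 2 ≤ (A * B) ^ 2 := by
      rw [mul_pow, h1, h2]
      nlinarith [mul_nonneg (sq_nonneg ρ) (sq_nonneg (‖x‖ - ‖y‖))]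
    exact (abs_le_of_sq_le_sq' h5 (mul_nonneg (by linarith) (by linarith))).2
  have h6 : Real.sqrt (‖a • x + b • y‖ ^ 2 + ρ ^ 2) ≤ a * A + b * B := by
    apply Real.sqrt_le_iff.2
    refine ⟨add_nonneg (mul_nonneg ha (by linarith)) (mul_nonneg hb (by linarith)), ?_⟩
    have h7 : ‖a • x + b • y‖ ^ 2 ≤ (a * ‖x‖ + b * ‖y‖) ^ 2 :=
      pow_le_pow_left₀ (norm_nonneg _) hn 2
    have h8 : 0 ≤ 2 * (a * b) * (A * B - (‖x‖ * ‖y‖ + ρ ^ 2)) :=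
      mul_nonneg (by positivity) (by linarith)
    have h9 : ρ ^ 2 = (a + b) ^ 2 * ρ ^ 2 := by rw [hab]; ring
    have e1 : (a * A + b * B) ^ 2 = a ^ 2 * (‖x‖ ^ 2 + ρ ^ 2) + b ^ 2 * (‖y‖ ^ 2 + ρ ^ 2) +
        2 * (a * b) * (A * B) := by
      linear_combination a ^ 2 * h1 + b ^ 2 * h2
    have e2 : (a * ‖x‖ + b * ‖y‖) ^ 2 + (a + b) ^ 2 * ρ ^ 2 +
        2 * (a * b) * (A * B - (‖x‖ * ‖y‖ + ρ ^ 2)) = a ^ 2 * (‖x‖ ^ 2 + ρ ^ 2) +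
        b ^ 2 * (‖y‖ ^ 2 + ρ ^ 2) + 2 * (a * b) * (A * B) := by ring
    rw [e1]
    linarith
  have h10 : ρ = (a + b) * ρ := by rw [hab, one_mul]
  nlinarith

theorem Nk_second {ρ : ℝ} (hρ : 0 < ρ) (w v : H) :
    Nk ρ (w + v) + Nk ρ (w - v) - 2 * Nk ρ w ≤ ‖v‖ ^ 2 / ρ := by
  have h1 := levS_sq ρ (w + v)
  have h2 := levS_sq ρ (w - v)
  have h3 := levS_sq ρ w
  have h4 := levS_ge hρ w
  have h5 := levS_ge hρ (w + v)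
  have h6 := levS_ge hρ (w - v)
  have hpar : ‖w + v‖ ^ 2 + ‖w - v‖ ^ 2 = 2 * (‖w‖ ^ 2 + ‖v‖ ^ 2) := by
    have := parallelogram_law_with_norm ℝ w v
    nlinarith
  unfold Nk
  set A := Real.sqrt (‖w + v‖ ^ 2 + ρ ^ 2)
  set B := Real.sqrt (‖w - v‖ ^ 2 + ρ ^ 2)
  set C := Real.sqrt (‖w‖ ^ 2 + ρ ^ 2)
  set D := ‖v‖ ^ 2 / ρ with hD
  have hD0 : 0 ≤ D := by positivity
  have hDρ : D * ρ = ‖v‖ ^ 2 := by
    rw [hD]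
    field_simp
  have h7 : (A + B) ^ 2 ≤ (2 * C + D) ^ 2 := by
    have h8 : (A + B) ^ 2 ≤ 2 * (A ^ 2 + B ^ 2) := by nlinarith [sq_nonneg (A - B)]
    have h9 : 2 * (A ^ 2 + B ^ 2) = 4 * (C ^ 2 + ‖v‖ ^ 2) := by
      rw [h1, h2, h3]
      linear_combination 2 * hpar
    have h10 : D * ρ ≤ D * C := mul_le_mul_of_nonneg_left h4 hD0
    nlinarith [sq_nonneg D]
  have h11 : A + B ≤ 2 * C + D := (abs_le_of_sq_le_sq' h7 (by linarith)).2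
  linarith

end

end Pool.Agent.Lib.MP_b414a3_an.GA
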