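import Pool.Agent.Lib.MP_b414a3_an.GA.Defs

set_option autoImplicit false

/-!
GA-LocLip. A continuous convex function on an open convex set has global linear minorants at every point.

Let `closedBall x R ⊆ U` and `|f - f x| ≤ 1` on it (continuity at `x`, `R > 0` small).  For `y ∈ U`, `y ≠ x`, put
`d = ‖y - x‖`, `z = x - (R/d) • (y - x) ∈ closedBall x R`; `x = (R y + d z)/(R + d)`, so `(R + d) f x ≤ R f y + d f z`, i.e.
`f y ≥ f x - (d/R) (f z - f x) ≥ f x - (1/R) d`.  Take `L = 1/R`.
-/

namespace Pool.Agent.Lib.MP_b414a3_an.GA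

section

variable {H : Type*} [NormedAddCommGroup H] [NormedSpace ℝ H]

theorem exists_loclip {U : Set H} (hU : IsOpen U) {f : H → ℝ} (hf : ConvexOn ℝ U f)
    (hc : ContinuousOn f U) {x : H} (hx : x ∈ U) :
    ∃ L : ℝ, 0 < L ∧ ∀ y ∈ U, f x - L * ‖y - x‖ ≤ f y := by
  have hca : ContinuousAt f x := hc.continuousAt (hU.mem_nhds hx)
  have h1 : ∀ᶠ y in nhds x, f y < f x + 1 :=
    hca.eventually (gt_mem_nhds (by linarith))
  have h2 : ∀ᶠ y in nhds x, y ∈ U := hU.mem_nhds hx
  obtain ⟨ε, hε, hball⟩ := Metric.eventually_nhds_iff.1 (h1.and h2)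
  have hR : 0 < ε / 2 := by linarith
  refine ⟨1 / (ε / 2), by positivity, fun y hy => ?_⟩
  set R : ℝ := ε / 2 with hRdef
  by_cases hyx : y = x
  · subst hyx
    simp
  · have hd : 0 < ‖y - x‖ := norm_pos_iff.2 (sub_ne_zero.2 hyx)
    set d : ℝ := ‖y - x‖ with hddef
    set z : H := x - (R / d) • (y - x) with hz
    have hzx : dist z x < ε := by
      rw [dist_eq_norm, hz, sub_sub_cancel_left, norm_neg, norm_smul, Real.norm_eq_abs,
        abs_of_pos (div_pos hR hd), ← hddef, div_mul_cancel₀ _ hd.ne']
      rw [hRdef]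
      linarith
    obtain ⟨hz1, hz2⟩ := hball hzx
    have hRd : 0 < R + d := by linarith
    have hconv := hf.2 hy hz2 (div_nonneg hR.le hRd.le) (div_nonneg hd.le hRd.le)
      (by rw [← add_div]; exact div_self hRd.ne')
    have hcomb : (R / (R + d)) • y + (d / (R + d)) • z = x := by
      have e1 : d / (R + d) * (R / d) = R / (R + d) := by
        field_simp
      have e2 : R / (R + d) + d / (R + d) = 1 := by
        rw [← add_div]
        exact div_self hRd.ne'
      rw [hz, smul_sub, smul_smul, e1, smul_sub]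
      have e3 : (R / (R + d)) • y + ((d / (R + d)) • x - ((R / (R + d)) • y - (R / (R + d)) • x)) =
          (R / (R + d) + d / (R + d)) • x := by
        rw [add_smul]
        abel
      rw [e3, e2, one_smul]
    rw [hcomb, smul_eq_mul, smul_eq_mul] at hconv
    have h3 : (R + d) * f x ≤ R * f y + d * f z := by
      have h4 := mul_le_mul_of_nonneg_left hconv hRd.le
      have e4 : (R + d) * (R / (R + d) * f y + d / (R + d) * f z) = R * f y + d * f z := by
        field_simp
      linarith [h4, e4.le, e4.ge]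
    have h5 : d * f z ≤ d * (f x + 1) := mul_le_mul_of_nonneg_left hz1.le hd.le
    have h6 : R * f x ≤ R * f y + d := by nlinarith
    have h7 : f x ≤ f y + 1 / R * d := by
      have h8 : R * f x ≤ R * (f y + 1 / R * d) := by
        have e5 : R * (f y + 1 / R * d) = R * f y + d := by
          field_simp
        rw [e5]
        exact h6
      exact le_of_mul_le_mul_left h8 hR
    linarith

end

end Pool.Agent.Lib.MP_b414a3_an.GA
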