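import Pool.Agent.Lib.MP_b414a3_an.GA.NSet
import Pool.Agent.Lib.MP_b414a3_an.GA.Ift

set_option autoImplicit false

/-!
GA-NAn. The gauge is analytic off `0`.

`x0 ≠ 0`, `t0 = gauge C x0 > 0`, `Φ (x, t) = g (t⁻¹ • x) / (1 + δ)`: analytic at `(x0, t0)` (`t0 ≠ 0`: `AnalyticAt.inv`, `AnalyticAt.smul`, composition with `S.hg`), value `1` (`gaugeC_norm`).
Line inequality for `exists_implicit` with `t1 = 2 t0`: for `t = t0 + θ (t1 - t0) = (1 + θ) t0`, `t⁻¹ • x0 = (t0/t) • (t0⁻¹ • x0) + (1 - t0/t) • 0`, so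
`g (t⁻¹ • x0) ≤ (t0/t)(1+δ) + (1 - t0/t) δ = δ + t0/t = δ + 1/(1+θ) ≤ 1 + δ - θ/2` (`1/(1+θ) ≤ 1 - θ/2` for `0 ≤ θ ≤ 1`); divide by `1 + δ`: the constant is `1/(2 (1+δ))`.
`exists_implicit` gives `φ` analytic at `x0`, `φ x0 = t0`, `Φ (x, φ x) = 1` near `x0`; near `x0` also `φ x > 0`.  `g ((φ x)⁻¹ • x) = 1 + δ` gives `gauge C ((φ x)⁻¹ • x) = 1`
(`gaugeC_eq_one`), so `gauge C x = φ x` (`gaugeC_smul`); `AnalyticAt.congr`.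
-/

namespace Pool.Agent.Lib.MP_b414a3_an.GA

section

variable {H : Type*} [NormedAddCommGroup H] [NormedSpace ℝ H] [CompleteSpace H]

theorem gaugeC_analyticAt {N g : H → ℝ} {a b δ : ℝ} (S : NSys N g a b δ) {x : H} (hx : x ≠ 0) :
    AnalyticAt ℝ (gauge (Cset g δ)) x := by
  obtain ⟨ht0, hgx⟩ := gaugeC_norm S hx
  obtain ⟨t0, ht⟩ : ∃ t0 : ℝ, t0 = gauge (Cset g δ) x := ⟨_, rfl⟩
  rw [← ht] at ht0 hgx
  have hδ := S.hδ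
  have h1δ : 0 < 1 + δ := by linarith
  have hg0 : g 0 ≤ δ := by
    have h1 := (S.hgN 0).2
    have h2 := (S.hN3 0).2
    rw [norm_zero, mul_zero] at h2
    linarith
  have hA : AnalyticAt ℝ (fun p : H × ℝ => g (p.2⁻¹ • p.1) * (1 + δ)⁻¹) (x, t0) := by
    have h1 : AnalyticAt ℝ (fun p : H × ℝ => p.2⁻¹ • p.1) (x, t0) :=
      (analyticAt_snd.inv ht0.ne').smul analyticAt_fst
    have h2 : AnalyticAt ℝ g (t0⁻¹ • x) := S.hg _ (Set.mem_univ _)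
    have h3 : AnalyticAt ℝ (fun p : H × ℝ => g (p.2⁻¹ • p.1)) (x, t0) :=
      h2.comp_of_eq h1 rfl
    exact h3.mul analyticAt_const
  have hval : g (t0⁻¹ • x) * (1 + δ)⁻¹ = 1 := by
    rw [hgx, mul_inv_cancel₀ h1δ.ne']
  have hline : ∀ θ : ℝ, 0 ≤ θ → θ ≤ 1 →
      g ((t0 + θ * (2 * t0 - t0))⁻¹ • x) * (1 + δ)⁻¹ ≤ 1 - θ * (2 * (1 + δ))⁻¹ := by
    intro θ h0 h1
    have hθ : 0 < 1 + θ := by linarith
    have e1 : (t0 + θ * (2 * t0 - t0))⁻¹ • x =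
        (1 + θ)⁻¹ • (t0⁻¹ • x) + (1 - (1 + θ)⁻¹) • (0 : H) := by
      rw [smul_zero, add_zero, smul_smul, ← mul_inv]
      congr 2
      ring
    have hs0 : 0 ≤ (1 + θ)⁻¹ := (inv_pos.2 hθ).le
    have hs1 : (1 + θ)⁻¹ ≤ 1 := inv_le_one_of_one_le₀ (by linarith)
    have hs2 : (1 + θ)⁻¹ ≤ 1 - θ / 2 := by
      rw [inv_le_iff_one_le_mul₀ hθ]
      nlinarith
    have hc := S.hgc.2 (Set.mem_univ (t0⁻¹ • x)) (Set.mem_univ (0 : H)) hs0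
      (by linarith : 0 ≤ 1 - (1 + θ)⁻¹) (by ring)
    rw [← e1, smul_eq_mul, smul_eq_mul, hgx] at hc
    have h2 : (1 - (1 + θ)⁻¹) * g 0 ≤ (1 - (1 + θ)⁻¹) * δ :=
      mul_le_mul_of_nonneg_left hg0 (by linarith)
    have h3 : g ((t0 + θ * (2 * t0 - t0))⁻¹ • x) ≤ (1 + δ) - θ / 2 := by
      have e2 : (1 + θ)⁻¹ * (1 + δ) + (1 - (1 + θ)⁻¹) * δ = (1 + θ)⁻¹ + δ := by ring
      linarith
    have h4 := mul_le_mul_of_nonneg_right h3 (inv_pos.2 h1δ).le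
    refine h4.trans (le_of_eq ?_)
    field_simp
  obtain ⟨φ, hφ1, hφ2, hφ3⟩ := exists_implicit (Φ := fun p : H × ℝ => g (p.2⁻¹ • p.1) * (1 + δ)⁻¹)
    hA hval (by linarith : t0 < 2 * t0) (by positivity : 0 < (2 * (1 + δ))⁻¹) hline
  have hpos : ∀ᶠ y in nhds x, 0 < φ y := by
    have h1 : 0 < φ x := by rw [hφ2]; exact ht0
    exact hφ1.continuousAt.eventually (lt_mem_nhds h1)
  refine hφ1.congr ?_
  filter_upwards [hφ3, hpos] with y h1 h2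
  have h3 : g ((φ y)⁻¹ • y) = 1 + δ := by
    have h4 : g ((φ y)⁻¹ • y) * (1 + δ)⁻¹ = 1 := h1
    rw [← div_eq_mul_inv, div_eq_one_iff_eq h1δ.ne'] at h4
    exact h4
  have h5 := gaugeC_eq_one S h3
  rw [gaugeC_smul S, abs_of_pos (inv_pos.2 h2), inv_mul_eq_one₀ h2.ne'] at h5
  exact h5

end

end Pool.Agent.Lib.MP_b414a3_an.GA
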