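import Pool.Agent.Lib.MP_b414a3_an.GA.Defs

set_option autoImplicit false

/-!
GA-NSet. From an even convex function close to a norm to a norm.

`C = {x | g x ≤ 1 + δ}`, `M = gauge C` (Mathlib `Mathlib.Analysis.Convex.Gauge`).  `C` is convex, symmetric, closed, and
`{N ≤ 1} ⊆ C ⊆ {N ≤ 1 + δ}` (`g ≤ N + δ`, `N ≤ g`); it contains the ball of radius `1/b`, so it is absorbent.
* `gaugeC_add`: `gauge_add_le`.  `gaugeC_smul`: `gauge_smul` for a balanced set (real balanced: `c • y ∈ C` for `|c| ≤ 1`, by convexity, `0 ∈ C` and symmetry), or by hand.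
* `gaugeC_bd`: `gauge C x ≤ N x`: for `N x = 0` we have `x = 0` (`gauge_zero`), else `(N x)⁻¹ • x ∈ {N ≤ 1} ⊆ C` (`gauge_le_of_mem`);
  `N x ≤ (1 + δ) r` for all `r > gauge C x` (`exists_lt_of_gauge_lt`: `x ∈ r' • C`), hence `N x ≤ (1 + δ) gauge C x`.
* `gaugeC_eq_one`: `g y = 1 + δ` gives `y ∈ C`, `gauge ≤ 1`; if `gauge C y < 1` then `y = θ z`, `z ∈ C`, `0 < θ < 1`, and
  `g y ≤ θ g z + (1-θ) g 0 ≤ θ (1+δ) + (1-θ) δ < 1 + δ` (`g 0 ≤ N 0 + δ = δ`).
* `gaugeC_norm`: `x ≠ 0`: `0 < a ‖x‖ ≤ N x ≤ (1+δ) gauge C x`.  Let `m = gauge C x`, `s0 = m⁻¹`.  For `0 ≤ s < s0`: `gauge C (s x) < 1` so `s x ∈ C` and `g (s x) ≤ 1 + δ`; for `s > s0`: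
  `gauge C (s x) > 1` so `s x ∉ C`, `g (s x) > 1 + δ`.  Continuity of `s ↦ g (s x)` at `s0`.
-/

namespace Pool.Agent.Lib.MP_b414a3_an.GA

section

variable {H : Type*} [NormedAddCommGroup H] [NormedSpace ℝ H]

/-- A norm `N` equivalent to the given one and an even analytic convex function `g` close to it. -/
structure NSys (N g : H → ℝ) (a b δ : ℝ) : Prop where
  ha : 0 < a
  hb : 0 < b
  hδ : 0 < δ
  hN1 : ∀ x y, N (x + y) ≤ N x + N y
  hN2 : ∀ (c : ℝ) (x : H), N (c • x) = |c| * N x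
  hN3 : ∀ x, a * ‖x‖ ≤ N x ∧ N x ≤ b * ‖x‖
  hg : AnalyticOnNhd ℝ g Set.univ
  hgc : ConvexOn ℝ Set.univ g
  hge : ∀ x, g (-x) = g x
  hgN : ∀ x, N x ≤ g x ∧ g x ≤ N x + δ

/-- The level set. -/
def Cset (g : H → ℝ) (δ : ℝ) : Set H := {x | g x ≤ 1 + δ}

private theorem ns_convex {N g : H → ℝ} {a b δ : ℝ} (S : NSys N g a b δ) :
    Convex ℝ (Cset g δ) := by
  have h := S.hgc.convex_le (1 + δ)
  have e : {x ∈ Set.univ | g x ≤ 1 + δ} = Cset g δ := by
    ext x
    simp [Cset]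
  rw [← e]
  exact h

private theorem ns_N0 {N g : H → ℝ} {a b δ : ℝ} (S : NSys N g a b δ) : N 0 = 0 := by
  have h := S.hN2 0 0
  rwa [zero_smul, abs_zero, zero_mul] at h

private theorem ns_mem {N g : H → ℝ} {a b δ : ℝ} (S : NSys N g a b δ) {x : H} (hx : N x ≤ 1) :
    x ∈ Cset g δ := by
  have := (S.hgN x).2
  show g x ≤ 1 + δ
  linarith

private theorem ns_zero {N g : H → ℝ} {a b δ : ℝ} (S : NSys N g a b δ) : (0 : H) ∈ Cset g δ :=
  ns_mem S (by rw [ns_N0 S]; exact zero_le_one)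

private theorem ns_neg {N g : H → ℝ} {a b δ : ℝ} (S : NSys N g a b δ) {x : H}
    (hx : x ∈ Cset g δ) : -x ∈ Cset g δ := by
  show g (-x) ≤ 1 + δ
  rw [S.hge x]
  exact hx

private theorem ns_abs {N g : H → ℝ} {a b δ : ℝ} (S : NSys N g a b δ) :
    Absorbent ℝ (Cset g δ) := by
  refine absorbent_nhds_zero ?_
  have hb := S.hb
  refine Filter.mem_of_superset (Metric.closedBall_mem_nhds (0 : H) (by positivity : 0 < 1 / b)) ?_
  intro x hx
  rw [mem_closedBall_zero_iff] at hx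
  refine ns_mem S ((S.hN3 x).2.trans ?_)
  calc b * ‖x‖ ≤ b * (1 / b) := mul_le_mul_of_nonneg_left hx hb.le
    _ = 1 := by field_simp

private theorem ns_bal {N g : H → ℝ} {a b δ : ℝ} (S : NSys N g a b δ) :
    Balanced ℝ (Cset g δ) := by
  have hc := ns_convex S
  have key : ∀ c : ℝ, 0 ≤ c → c ≤ 1 → ∀ y ∈ Cset g δ, c • y ∈ Cset g δ := by
    intro c h0 h1 y hy
    have := hc (ns_zero S) hy (sub_nonneg.2 h1) h0 (by ring)
    rwa [smul_zero, zero_add] at this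
  rw [balanced_iff_smul_mem]
  intro c hc1 y hy
  rw [Real.norm_eq_abs] at hc1
  rcases le_total 0 c with h | h
  · rw [abs_of_nonneg h] at hc1
    exact key c h hc1 y hy
  · rw [abs_of_nonpos h] at hc1
    have h2 := key (-c) (by linarith) hc1 (-y) (ns_neg S hy)
    rwa [smul_neg, neg_smul, neg_neg] at h2

theorem gaugeC_add {N g : H → ℝ} {a b δ : ℝ} (S : NSys N g a b δ) (x y : H) :
    gauge (Cset g δ) (x + y) ≤ gauge (Cset g δ) x + gauge (Cset g δ) y :=
  gauge_add_le (ns_convex S) (ns_abs S) x y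

theorem gaugeC_smul {N g : H → ℝ} {a b δ : ℝ} (S : NSys N g a b δ) (c : ℝ) (x : H) :
    gauge (Cset g δ) (c • x) = |c| * gauge (Cset g δ) x := by
  have h := gauge_smul (ns_bal S) c x
  rwa [Real.norm_eq_abs] at h

theorem gaugeC_bd {N g : H → ℝ} {a b δ : ℝ} (S : NSys N g a b δ) (x : H) :
    gauge (Cset g δ) x ≤ N x ∧ N x ≤ (1 + δ) * gauge (Cset g δ) x := by
  have ha := S.ha
  have hδ := S.hδ
  constructor
  · rcases eq_or_ne x 0 with h | h
    · rw [h, gauge_zero, ns_N0 S]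
    · have hx : 0 < ‖x‖ := norm_pos_iff.2 h
      have hN : 0 < N x := lt_of_lt_of_le (mul_pos ha hx) (S.hN3 x).1
      refine gauge_le_of_mem hN.le ?_
      rw [Set.mem_smul_set_iff_inv_smul_mem₀ hN.ne']
      refine ns_mem S ?_
      rw [S.hN2, abs_of_pos (inv_pos.2 hN), inv_mul_cancel₀ hN.ne']
  · have h1 : ∀ r, gauge (Cset g δ) x < r → N x ≤ (1 + δ) * r := by
      intro r hr
      obtain ⟨r', hr0, hr1, y, hy, rfl⟩ := exists_lt_of_gauge_lt (ns_abs S) hr
      have h2 : N y ≤ 1 + δ := (S.hgN y).1.trans hy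
      have h3 : N (r' • y) = r' * N y := by rw [S.hN2, abs_of_pos hr0]
      show N (r' • y) ≤ (1 + δ) * r
      rw [h3]
      calc r' * N y ≤ r' * (1 + δ) := mul_le_mul_of_nonneg_left h2 hr0.le
        _ ≤ r * (1 + δ) := mul_le_mul_of_nonneg_right hr1.le (by linarith)
        _ = (1 + δ) * r := mul_comm _ _
    refine le_of_forall_pos_le_add fun ε hε => ?_
    have h2 := h1 (gauge (Cset g δ) x + ε / (1 + δ)) (by
      have : 0 < ε / (1 + δ) := by positivity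
      linarith)
    have h3 : (1 + δ) * (gauge (Cset g δ) x + ε / (1 + δ)) =
        (1 + δ) * gauge (Cset g δ) x + ε := by
      field_simp
    linarith

theorem gaugeC_eq_one {N g : H → ℝ} {a b δ : ℝ} (S : NSys N g a b δ) {y : H}
    (hy : g y = 1 + δ) : gauge (Cset g δ) y = 1 := by
  have hδ := S.hδ
  refine le_antisymm (gauge_le_one_of_mem (show g y ≤ 1 + δ from hy.le)) ?_
  by_contra hcon
  push Not at hcon
  obtain ⟨r, hr0, hr1, z, hz, hzy⟩ := exists_lt_of_gauge_lt (ns_abs S) hcon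
  have hz' : g z ≤ 1 + δ := hz
  have hzy' : r • z = y := hzy
  have h0 : g 0 ≤ δ := by
    have := (S.hgN 0).2
    rw [ns_N0 S] at this
    linarith
  have h1 := S.hgc.2 (Set.mem_univ (0 : H)) (Set.mem_univ z) (sub_nonneg.2 hr1.le) hr0.le
    (by ring)
  rw [smul_zero, zero_add, hzy', hy] at h1
  simp only [smul_eq_mul] at h1
  have h2 : (1 - r) * g 0 ≤ (1 - r) * δ := mul_le_mul_of_nonneg_left h0 (by linarith)
  have h3 : r * g z ≤ r * (1 + δ) := mul_le_mul_of_nonneg_left hz' hr0.le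
  linarith

theorem gaugeC_norm {N g : H → ℝ} {a b δ : ℝ} (S : NSys N g a b δ) {x : H} (hx : x ≠ 0) :
    0 < gauge (Cset g δ) x ∧ g ((gauge (Cset g δ) x)⁻¹ • x) = 1 + δ := by
  have ha := S.ha
  have hδ := S.hδ
  have hx0 : 0 < ‖x‖ := norm_pos_iff.2 hx
  have hN : 0 < N x := lt_of_lt_of_le (mul_pos ha hx0) (S.hN3 x).1
  have hm : 0 < gauge (Cset g δ) x := by
    have h1 := (gaugeC_bd S x).2
    by_contra hcon
    push Not at hcon
    have h2 : (1 + δ) * gauge (Cset g δ) x ≤ 0 :=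
      mul_nonpos_of_nonneg_of_nonpos (by linarith) hcon
    linarith
  refine ⟨hm, ?_⟩
  set m := gauge (Cset g δ) x with hmdef
  have hcont : Continuous (fun s : ℝ => g (s • x)) := by
    have h1 : Continuous g := by
      rw [← continuousOn_univ]
      exact S.hg.continuousOn
    exact h1.comp (continuous_id.smul continuous_const)
  have hsm : ∀ s : ℝ, 0 ≤ s → gauge (Cset g δ) (s • x) = s * m := fun s hs => by
    rw [gaugeC_smul S, abs_of_nonneg hs]
  have hlt : ∀ s : ℝ, 0 ≤ s → s < m⁻¹ → g (s • x) ≤ 1 + δ := by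
    intro s hs0 hs
    have h1 : gauge (Cset g δ) (s • x) < 1 := by
      rw [hsm s hs0]
      calc s * m < m⁻¹ * m := mul_lt_mul_of_pos_right hs hm
        _ = 1 := inv_mul_cancel₀ hm.ne'
    exact setOfPred_gauge_lt_one_subset_self (ns_convex S) (ns_zero S) (ns_abs S) h1
  have hgt : ∀ s : ℝ, m⁻¹ < s → 1 + δ < g (s • x) := by
    intro s hs
    have hs0 : 0 < s := (inv_pos.2 hm).trans hs
    by_contra hcon
    push Not at hcon
    have h1 : gauge (Cset g δ) (s • x) ≤ 1 := gauge_le_one_of_mem hcon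
    rw [hsm s hs0.le] at h1
    have h2 : m⁻¹ * m < s * m := mul_lt_mul_of_pos_right hs hm
    rw [inv_mul_cancel₀ hm.ne'] at h2
    linarith
  have hmi : 0 < m⁻¹ := inv_pos.2 hm
  refine le_antisymm ?_ ?_
  · have h1 : Filter.Tendsto (fun s : ℝ => g (s • x)) (nhdsWithin m⁻¹ (Set.Iio m⁻¹))
        (nhds (g (m⁻¹ • x))) := (hcont.tendsto _).mono_left nhdsWithin_le_nhds
    refine le_of_tendsto h1 ?_
    have h2 : Set.Ioo 0 m⁻¹ ∈ nhdsWithin m⁻¹ (Set.Iio m⁻¹) := Ioo_mem_nhdsLT hmi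
    filter_upwards [h2] with s hs
    exact hlt s hs.1.le hs.2
  · have h1 : Filter.Tendsto (fun s : ℝ => g (s • x)) (nhdsWithin m⁻¹ (Set.Ioi m⁻¹))
        (nhds (g (m⁻¹ • x))) := (hcont.tendsto _).mono_left nhdsWithin_le_nhds
    refine ge_of_tendsto h1 ?_
    filter_upwards [self_mem_nhdsWithin] with s hs
    exact (hgt s hs).le

end

end Pool.Agent.Lib.MP_b414a3_an.GA
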