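import Pool.Agent.Lib.MP_b414a3_an.GA.Upper
import Pool.Agent.Lib.MP_b414a3_an.GA.Low

set_option autoImplicit false

/-!
GA-Root. The function `g` (section 4 of GA_paper.md).

`Tset x = {t | Φ (x,t) summable and ≤ 1}`, `g x = sInf (Tset x)`.
* `mem_upper`: `sum_upper`.  `mem_mono`: `term_shift` with `s ≥ 0`: terms decrease.
* `low_of_mem`: if `t ∈ Tset x` then every single term is `≤ 1` (`Summable.le_tsum` of nonnegative terms), so `term_low` gives `∀ k, ∃ i0, .. ≤ t`.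
  In particular `Tset x` is bounded below (use `k = 0`: the `i0` of `term_low` does not depend on `t`).
* `low_root`: the inequality holds for every `t > g x` with the same `i0`, hence for `g x` (let `t ↓ g x`).
* `f x < g x` by `low_gap`; `g x ≤ f x + η (f x)` by `csInf_le`.
-/

namespace Pool.Agent.Lib.MP_b414a3_an.GA

section

variable {H : Type*} [NormedAddCommGroup H] [InnerProductSpace ℝ H]
variable {U : Set H} {f : H → ℝ} {a b : ℝ} {η : ℝ → ℝ}

/-- The admissible levels at `x`. -/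
def Tset (d : Data U f a b η) (x : H) : Set ℝ :=
  {t | Summable (fun p : ℕ × ℕ => d.term p.1 p.2 (x, t)) ∧
    ∑' p : ℕ × ℕ, d.term p.1 p.2 (x, t) ≤ 1}

/-- The approximating function. -/
noncomputable def root (d : Data U f a b η) (x : H) : ℝ := sInf (Tset d x)

private theorem le_of_mem (d : Data U f a b η) {x : H} {t : ℝ} (ht : t ∈ Tset d x) (k i : ℕ) :
    d.term k i (x, t) ≤ 1 := by
  have h1 : d.term ((k, i) : ℕ × ℕ).1 ((k, i) : ℕ × ℕ).2 (x, t) ≤
      ∑' p : ℕ × ℕ, d.term p.1 p.2 (x, t) :=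
    ht.1.le_tsum (k, i) fun j _ => (term_pos d j.1 j.2 (x, t)).le
  exact h1.trans ht.2

theorem Tset_mono (d : Data U f a b η) {x : H} {t t' : ℝ} (ht : t ∈ Tset d x)
    (h : t ≤ t') : t' ∈ Tset d x := by
  have hle : ∀ p : ℕ × ℕ, d.term p.1 p.2 (x, t') ≤ d.term p.1 p.2 (x, t) := by
    intro p
    have h1 := term_shift d p.1 p.2 x t (t' - t)
    rw [add_sub_cancel] at h1
    rw [h1]
    have h2 : 1 ≤ d.lam p.1 p.2 := (one_le_lam d p.1 p.2).1
    have h3 : 0 ≤ d.lam p.1 p.2 * (t' - t) := mul_nonneg (by linarith) (by linarith)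
    have h4 : Real.exp (-(d.lam p.1 p.2 * (t' - t))) ≤ 1 := Real.exp_le_one_iff.2 (by linarith)
    have h5 := (term_pos d p.1 p.2 (x, t)).le
    calc Real.exp (-(d.lam p.1 p.2 * (t' - t))) * d.term p.1 p.2 (x, t)
        ≤ 1 * d.term p.1 p.2 (x, t) := mul_le_mul_of_nonneg_right h4 h5
      _ = d.term p.1 p.2 (x, t) := one_mul _
  have hs : Summable (fun p : ℕ × ℕ => d.term p.1 p.2 (x, t')) :=
    Summable.of_nonneg_of_le (fun p => (term_pos d p.1 p.2 (x, t')).le) hle ht.1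
  exact ⟨hs, (hs.tsum_le_tsum hle ht.1).trans ht.2⟩

theorem Tset_upper (d : Data U f a b η) (ha : 0 < a)
    (hab : ∀ x ∈ U, a * ‖x‖ - b ≤ f x) {x : H} (hx : x ∈ U) : f x + η (f x) ∈ Tset d x := by
  obtain ⟨h1, h2⟩ := sum_upper d ha hab hx
  exact ⟨h1, h2.trans (by norm_num)⟩

theorem Tset_bdd (d : Data U f a b η) (ha : 0 < a) (x : H) :
    BddBelow (Tset d x) := by
  obtain ⟨i0, hi0⟩ := term_low d ha 0 x
  exact ⟨_, fun t ht => hi0 t (le_of_mem d ht 0 i0)⟩

theorem low_root (d : Data U f a b η) (ha : 0 < a)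
    (hab : ∀ x ∈ U, a * ‖x‖ - b ≤ f x) {x : H} (hx : x ∈ U) :
    ∀ k, ∃ i0 : ℕ, (1 - d.s k) * d.h k x + d.c k + d.κ k i0 / 2 ≤ root d x := by
  intro k
  obtain ⟨i0, hi0⟩ := term_low d ha k x
  exact ⟨i0, le_csInf ⟨_, Tset_upper d ha hab hx⟩ fun t ht => hi0 t (le_of_mem d ht k i0)⟩

theorem root_bounds (d : Data U f a b η) (ha : 0 < a)
    (hab : ∀ x ∈ U, a * ‖x‖ - b ≤ f x) {x : H} (hx : x ∈ U) :
    f x < root d x ∧ root d x ≤ f x + η (f x) :=
  ⟨low_gap d hx (low_root d ha hab hx), csInf_le (Tset_bdd d ha x) (Tset_upper d ha hab hx)⟩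

end

end Pool.Agent.Lib.MP_b414a3_an.GA
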