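import Pool.Agent.Lib.MP_b414a3_an.GA.UBasic

set_option autoImplicit false

/-!
GA-UTsum. Infinite sums in the majorant algebra.

Let `p j` be the series of `f j`, `c j n = ‖p j n‖ r ^ n`.  For every `n` the family `j ↦ p j n` is absolutely summable in the
complete space of continuous multilinear maps (`‖p j n‖ r ^ n ≤ M j`, `r > 0`).  Put `s n = ∑' j, p j n`; then
`‖s n‖ r ^ n ≤ ∑' j, c j n` and `∑_n ∑_j c j n = ∑_j ∑_n c j n ≤ ∑_j M j` (nonnegative double series,
`summable_prod_of_nonneg`, `Summable.tsum_comm`).  On the diagonal `s n (y..) = ∑' j, p j n (y..)` (continuous linear evaluation,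
`ContinuousLinearMap.map_tsum` with `ContinuousMultilinearMap.apply`), and for `‖y‖ < r` the double family
`(j, n) ↦ p j n (y..)` is absolutely summable, so `∑_n ∑_j = ∑_j ∑_n = ∑_j f j (x + y)`.
`UA.summable`: by `UA.abs_le`.
-/

namespace Pool.Agent.Lib.MP_b414a3_an.GA

section

variable {E : Type*} [NormedAddCommGroup E] [NormedSpace ℝ E]

theorem UA.tsum {ι : Type*} {f : ι → E → ℝ} {x : E} {r : ℝ} {M : ι → ℝ} (hr : 0 < r)
    (hf : ∀ j, UA (f j) x r (M j)) (hM : Summable M) :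
    UA (fun y => ∑' j, f j y) x r (∑' j, M j) := by
  choose p h1 h2 h3 using hf
  -- the double family of majorants
  have hc0 : ∀ (j : ι) (n : ℕ), 0 ≤ ‖p j n‖ * r ^ n := fun j n =>
    mul_nonneg (norm_nonneg _) (pow_nonneg hr.le n)
  have hcs : Summable (fun q : ι × ℕ => ‖p q.1 q.2‖ * r ^ q.2) := by
    refine (summable_prod_of_nonneg (fun q => hc0 q.1 q.2)).2 ⟨fun j => h2 j, ?_⟩
    exact Summable.of_nonneg_of_le (fun j => tsum_nonneg (fun n => hc0 j n)) (fun j => h3 j) hM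
  have hcs' : Summable (fun q : ℕ × ι => ‖p q.2 q.1‖ * r ^ q.1) := hcs.prod_symm
  have hcn : ∀ n : ℕ, Summable (fun j => ‖p j n‖ * r ^ n) := fun n => hcs'.prod_factor n
  have hpn : ∀ n : ℕ, Summable (fun j => ‖p j n‖) := by
    intro n
    have hrn : r ^ n ≠ 0 := (pow_pos hr n).ne'
    exact (summable_mul_right_iff hrn).1 (hcn n)
  have hps : ∀ n : ℕ, Summable (fun j => p j n) := fun n => Summable.of_norm (hpn n)
  have hle : ∀ n : ℕ, ‖∑' j, p j n‖ * r ^ n ≤ ∑' j, ‖p j n‖ * r ^ n := by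
    intro n
    rw [tsum_mul_right]
    exact mul_le_mul_of_nonneg_right (norm_tsum_le_tsum_norm (hpn n)) (pow_nonneg hr.le n)
  have hsum1 : Summable (fun n : ℕ => ∑' j, ‖p j n‖ * r ^ n) := hcs'.prod
  have hsum2 : Summable (fun n : ℕ => ‖∑' j, p j n‖ * r ^ n) :=
    Summable.of_nonneg_of_le (fun n => mul_nonneg (norm_nonneg _) (pow_nonneg hr.le n)) hle hsum1
  refine ⟨fun n => ∑' j, p j n, ?_, hsum2, ?_⟩
  · intro y hy
    have hb : ∀ (j : ι) (n : ℕ), ‖p j n (fun _ => y)‖ ≤ ‖p j n‖ * r ^ n := by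
      intro j n
      have e1 := (p j n).le_opNorm (fun _ => y)
      have e2 : (∏ _i : Fin n, ‖y‖) = ‖y‖ ^ n := by simp
      rw [e2] at e1
      exact e1.trans (mul_le_mul_of_nonneg_left (pow_le_pow_left₀ (norm_nonneg y) hy.le n)
        (norm_nonneg _))
    have hS : Summable (fun q : ι × ℕ => p q.1 q.2 (fun _ => y)) :=
      Summable.of_norm_bounded hcs (fun q => hb q.1 q.2)
    have hS' : Summable (fun q : ℕ × ι => p q.2 q.1 (fun _ => y)) := hS.prod_symm
    have hev : ∀ n : ℕ, (∑' j, p j n) (fun _ => y) = ∑' j, p j n (fun _ => y) := by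
      intro n
      have e := (ContinuousMultilinearMap.apply ℝ (fun _ : Fin n => E) ℝ
        (fun _ => y)).map_tsum (hps n)
      simpa using e
    have hval : ∑' j, f j (x + y) = ∑' n : ℕ, ∑' j, p j n (fun _ => y) := by
      have e1 : ∀ j, f j (x + y) = ∑' n, p j n (fun _ => y) := fun j => (h1 j y hy).tsum_eq.symm
      simp only [e1]
      exact Summable.tsum_comm (f := fun (n : ℕ) (j : ι) => p j n (fun _ => y)) hS'
    show HasSum (fun n => (∑' j, p j n) (fun _ => y)) (∑' j, f j (x + y))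
    simp only [hev]
    rw [hval]
    exact hS'.prod.hasSum
  · refine (hsum2.tsum_le_tsum hle hsum1).trans ?_
    have e : ∑' n : ℕ, ∑' j, ‖p j n‖ * r ^ n = ∑' j, ∑' n : ℕ, ‖p j n‖ * r ^ n :=
      Summable.tsum_comm (f := fun (j : ι) (n : ℕ) => ‖p j n‖ * r ^ n) hcs
    rw [e]
    exact hcs.prod.tsum_le_tsum (fun j => h3 j) hM

theorem UA.summable {ι : Type*} {f : ι → E → ℝ} {x : E} {r : ℝ} {M : ι → ℝ}
    (hf : ∀ j, UA (f j) x r (M j)) (hM : Summable M) {y : E} (hy : ‖y‖ < r) :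
    Summable (fun j => f j (x + y)) :=
  Summable.of_norm_bounded hM (fun j => (hf j).abs_le hy)

end

end Pool.Agent.Lib.MP_b414a3_an.GA
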