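import Pool.Agent.Lib.MP_b414a3_an.GA.Root
import Pool.Agent.Lib.MP_b414a3_an.GA.TermConv
import Pool.Agent.Lib.MP_b414a3_an.GA.UTsum

set_option autoImplicit false

/-!
GA-RootPhi. The value `1` at the root, and the line inequality.  Let `t0 = root d x`, `Φ t = ∑' p, term p.1 p.2 (x, t)`.

* `phi_one`: by `UA.tsum`, `UA.analyticAt` the function `z ↦ ∑' p, term p.1 p.2 z` is analytic, hence continuous at `z0 = (x, t0)`, and by `UA.summable` the terms are
  summable at every `z` with `‖z - z0‖ < r`.  For `t > t0`: `t ∈ Tset` (definition of `sInf`, `exists_lt_of_csInf_lt`, `Tset_mono`; `Tset_upper` for nonempty), so `Φ t ≤ 1`;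
  for `t < t0`, `t > t0 - r`: `t ∉ Tset` (`csInf_le`, `Tset_bdd`), summable, so `Φ t > 1`.  Let `t → t0` from both sides.
* `phi_line`: `t1 = f x + η (f x)`, `Φ t1 ≤ 1/2` (`sum_upper`); `(x, t0 + θ (t1 - t0)) = (1-θ) (x,t0) + θ (x,t1)`; termwise convexity (`term_convex`), both ends summable
  (at `t0`: `UA.summable` with `y = 0`): `Φ ≤ (1-θ) * 1 + θ * (1/2) = 1 - θ/2`.
-/

namespace Pool.Agent.Lib.MP_b414a3_an.GA

section

variable {H : Type*} [NormedAddCommGroup H] [InnerProductSpace ℝ H]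
variable {U : Set H} {f : H → ℝ} {a b : ℝ} {η : ℝ → ℝ}

private theorem rp_summable (d : Data U f a b η) {x : H} {r : ℝ} {M : ℕ × ℕ → ℝ}
    (hM : Summable M) (hUA : ∀ p : ℕ × ℕ, UA (d.term p.1 p.2) (x, root d x) r (M p)) {t : ℝ}
    (ht : |t - root d x| < r) : Summable (fun p : ℕ × ℕ => d.term p.1 p.2 (x, t)) := by
  have h1 : ‖((0 : H), t - root d x)‖ < r := by
    rw [Prod.norm_def, norm_zero, Real.norm_eq_abs, max_eq_right (abs_nonneg _)]
    exact ht
  have h2 := UA.summable hUA hM h1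
  have e1 : ((x, root d x) : H × ℝ) + ((0 : H), t - root d x) = (x, t) := by
    rw [Prod.mk_add_mk, add_zero, add_sub_cancel]
  rw [e1] at h2
  exact h2

theorem phi_one (d : Data U f a b η) (ha : 0 < a)
    (hab : ∀ x ∈ U, a * ‖x‖ - b ≤ f x) {x : H} (hx : x ∈ U) {r : ℝ} {M : ℕ × ℕ → ℝ} (hr : 0 < r)
    (hM : Summable M) (hUA : ∀ p : ℕ × ℕ, UA (d.term p.1 p.2) (x, root d x) r (M p)) :
    ∑' p : ℕ × ℕ, d.term p.1 p.2 (x, root d x) = 1 := by
  have hne : (Tset d x).Nonempty := ⟨_, Tset_upper d ha hab hx⟩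
  have hcont : ContinuousAt (fun z : H × ℝ => ∑' p : ℕ × ℕ, d.term p.1 p.2 z) (x, root d x) :=
    (UA.analyticAt hr (UA.tsum (f := fun p : ℕ × ℕ => d.term p.1 p.2) hr hUA hM)).continuousAt
  have hct : ContinuousAt (fun t : ℝ => ∑' p : ℕ × ℕ, d.term p.1 p.2 (x, t)) (root d x) := by
    have h1 : ContinuousAt (fun t : ℝ => ((x, t) : H × ℝ)) (root d x) :=
      (Continuous.prodMk continuous_const continuous_id).continuousAt
    exact ContinuousAt.comp (f := fun t : ℝ => ((x, t) : H × ℝ))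
      (g := fun z : H × ℝ => ∑' p : ℕ × ℕ, d.term p.1 p.2 z) hcont h1
  apply le_antisymm
  · have h1 : Filter.Tendsto (fun t : ℝ => ∑' p : ℕ × ℕ, d.term p.1 p.2 (x, t))
        (nhdsWithin (root d x) (Set.Ioi (root d x)))
        (nhds (∑' p : ℕ × ℕ, d.term p.1 p.2 (x, root d x))) := hct.mono_left nhdsWithin_le_nhds
    refine le_of_tendsto h1 ?_
    filter_upwards [self_mem_nhdsWithin] with t ht
    obtain ⟨t', ht1, ht2⟩ := exists_lt_of_csInf_lt hne (show sInf (Tset d x) < t from ht)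
    exact (Tset_mono d ht1 ht2.le).2
  · have h1 : Filter.Tendsto (fun t : ℝ => ∑' p : ℕ × ℕ, d.term p.1 p.2 (x, t))
        (nhdsWithin (root d x) (Set.Iio (root d x)))
        (nhds (∑' p : ℕ × ℕ, d.term p.1 p.2 (x, root d x))) := hct.mono_left nhdsWithin_le_nhds
    refine ge_of_tendsto h1 ?_
    have h2 : Set.Ioi (root d x - r) ∈ nhdsWithin (root d x) (Set.Iio (root d x)) :=
      mem_nhdsWithin_of_mem_nhds (Ioi_mem_nhds (by linarith))
    filter_upwards [self_mem_nhdsWithin, h2] with t ht ht2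
    have ht' : t < root d x := ht
    have ht2' : root d x - r < t := ht2
    by_contra hcon
    push Not at hcon
    have hs := rp_summable d hM hUA (t := t) (by
      rw [abs_lt]
      constructor <;> linarith)
    have h3 : root d x ≤ t := csInf_le (Tset_bdd d ha x) ⟨hs, hcon.le⟩
    linarith

theorem phi_line (d : Data U f a b η) (ha : 0 < a)
    (hab : ∀ x ∈ U, a * ‖x‖ - b ≤ f x) {x : H} (hx : x ∈ U) {r : ℝ} {M : ℕ × ℕ → ℝ} (hr : 0 < r)
    (hM : Summable M) (hUA : ∀ p : ℕ × ℕ, UA (d.term p.1 p.2) (x, root d x) r (M p)) {θ : ℝ}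
    (h0 : 0 ≤ θ) (h1 : θ ≤ 1) :
    ∑' p : ℕ × ℕ, d.term p.1 p.2 (x, root d x + θ * (f x + η (f x) - root d x)) ≤ 1 - θ * (1 / 2) := by
  have hone := phi_one d ha hab hx hr hM hUA
  have hs0 : Summable (fun p : ℕ × ℕ => d.term p.1 p.2 (x, root d x)) :=
    rp_summable d hM hUA (by rwa [sub_self, abs_zero])
  obtain ⟨hs1, hu⟩ := sum_upper d ha hab hx
  have hpt : ∀ p : ℕ × ℕ, d.term p.1 p.2 (x, root d x + θ * (f x + η (f x) - root d x)) ≤
      (1 - θ) * d.term p.1 p.2 (x, root d x) + θ * d.term p.1 p.2 (x, f x + η (f x)) := by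
    intro p
    have h2 := (term_convex d ha p.1 p.2).2 (Set.mem_univ ((x, root d x) : H × ℝ))
      (Set.mem_univ ((x, f x + η (f x)) : H × ℝ)) (sub_nonneg.2 h1) h0 (by ring)
    have e1 : (1 - θ) • ((x, root d x) : H × ℝ) + θ • ((x, f x + η (f x)) : H × ℝ) =
        (x, root d x + θ * (f x + η (f x) - root d x)) := by
      rw [Prod.smul_mk, Prod.smul_mk, Prod.mk_add_mk, ← add_smul, sub_add_cancel, one_smul]
      congr 1
      simp only [smul_eq_mul]
      ring
    rw [e1] at h2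
    simpa only [smul_eq_mul] using h2
  have hsR : Summable (fun p : ℕ × ℕ => (1 - θ) * d.term p.1 p.2 (x, root d x) +
      θ * d.term p.1 p.2 (x, f x + η (f x))) := (hs0.mul_left _).add (hs1.mul_left _)
  have hsL : Summable (fun p : ℕ × ℕ =>
      d.term p.1 p.2 (x, root d x + θ * (f x + η (f x) - root d x))) :=
    Summable.of_nonneg_of_le (fun p => (term_pos d p.1 p.2 _).le) hpt hsR
  have h3 := hsL.tsum_le_tsum hpt hsR
  rw [(hs0.mul_left _).tsum_add (hs1.mul_left _), tsum_mul_left, tsum_mul_left, hone] at h3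
  have h4 : θ * ∑' p : ℕ × ℕ, d.term p.1 p.2 (x, f x + η (f x)) ≤ θ * (1 / 2) :=
    mul_le_mul_of_nonneg_left hu h0
  linarith

end

end Pool.Agent.Lib.MP_b414a3_an.GA
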