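import Pool.Agent.Lib.MP_b414a3_an.GA.Defs

set_option autoImplicit false

/-!
GA-TermA. Elementary facts on the terms.

`one_le_lam`: `card ≥ 1` so `log card ≥ 0`; `(k+i+1)(1+log card)(1+5/θ) ≥ 1`.
`term_shift`: `t` occurs only in the factor `exp (- lam t)`.
`single_le`: one summand is `≤` the sum of nonnegative terms.
-/

namespace Pool.Agent.Lib.MP_b414a3_an.GA

section

variable {H : Type*} [NormedAddCommGroup H] [InnerProductSpace ℝ H]
variable {U : Set H} {f : H → ℝ} {a b : ℝ} {η : ℝ → ℝ}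

/-- The exponent bound of one summand: the majorant of `term k i` at `(x, t)` with radius `r` is
`∑ α ∈ A k i, exp (lam k i * X d k i α x t r)`. -/
noncomputable def X (d : Data U f a b η) (k i : ℕ) (α : (H →L[ℝ] ℝ) × ℝ) (x : H) (t r : ℝ) : ℝ :=
  (1 - d.s k) * (α.1 x + α.2 + ‖α.1‖ * r) + d.σ k * (‖x - d.P i x‖ + r) + d.c k + d.κ k i - t + r

theorem one_le_lam (d : Data U f a b η) (k i : ℕ) :
    1 ≤ d.lam k i ∧ ((k : ℝ) + i + 1) * (1 + Real.log (d.A k i).card) ≤ d.lam k i := by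
  have hc1 : (1 : ℝ) ≤ ((d.A k i).card : ℝ) := by
    have h : 1 ≤ (d.A k i).card := Finset.card_pos.mpr (d.hA0 k i)
    exact_mod_cast h
  have hlog : 0 ≤ Real.log (d.A k i).card := Real.log_nonneg hc1
  have hk : (0 : ℝ) ≤ k := Nat.cast_nonneg k
  have hi : (0 : ℝ) ≤ i := Nat.cast_nonneg i
  have h8 : (0 : ℝ) ≤ 5 / d.θ k := div_nonneg (by norm_num) (d.hθ k).le
  have h1 : (1 : ℝ) ≤ ((k : ℝ) + i + 1) * (1 + Real.log (d.A k i).card) := by
    have e1 : (1 : ℝ) ≤ (k : ℝ) + i + 1 := by linarith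
    have e2 : (1 : ℝ) ≤ 1 + Real.log (d.A k i).card := by linarith
    calc (1 : ℝ) = 1 * 1 := by ring
      _ ≤ ((k : ℝ) + i + 1) * (1 + Real.log (d.A k i).card) :=
        mul_le_mul e1 e2 zero_le_one (by linarith)
  have h2 : ((k : ℝ) + i + 1) * (1 + Real.log (d.A k i).card) ≤ d.lam k i := by
    refine le_trans ?_ (d.hlam2 k i)
    refine le_mul_of_one_le_right (by linarith) (by linarith)
  exact ⟨h1.trans h2, h2⟩

theorem sigma_pos (d : Data U f a b η) (ha : 0 < a) (k : ℕ) : 0 < d.σ k := by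
  rw [d.hσ k]
  exact mul_pos (half_pos ha) (d.hs k).1

theorem term_pos (d : Data U f a b η) (k i : ℕ) (z : H × ℝ) : 0 < d.term k i z := by
  unfold Data.term
  exact Finset.sum_pos (fun α _ => mul_pos (Real.exp_pos _) (Real.cosh_pos _)) (d.hA0 k i)

theorem term_shift (d : Data U f a b η) (k i : ℕ) (x : H) (t s : ℝ) :
    d.term k i (x, t + s) = Real.exp (-(d.lam k i * s)) * d.term k i (x, t) := by
  unfold Data.term
  rw [Finset.mul_sum]
  apply Finset.sum_congr rfl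
  intro α _
  rw [← mul_assoc, ← Real.exp_add]
  congr 2
  ring

theorem single_le (d : Data U f a b η) (k i : ℕ) (z : H × ℝ) (α : (H →L[ℝ] ℝ) × ℝ)
    (hα : α ∈ d.A k i) :
    Real.exp (d.lam k i * ((1 - d.s k) * (α.1 z.1 + α.2) + d.c k + d.κ k i - z.2)) *
      Real.cosh (d.lam k i * d.σ k * ‖z.1 - d.P i z.1‖) ≤ d.term k i z := by
  unfold Data.term
  exact Finset.single_le_sum (f := fun α : (H →L[ℝ] ℝ) × ℝ =>
    Real.exp (d.lam k i * ((1 - d.s k) * (α.1 z.1 + α.2) + d.c k + d.κ k i - z.2)) *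
      Real.cosh (d.lam k i * d.σ k * ‖z.1 - d.P i z.1‖))
    (fun β _ => (mul_pos (Real.exp_pos _) (Real.cosh_pos _)).le) hα

end

end Pool.Agent.Lib.MP_b414a3_an.GA
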