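import Pool.Agent.Lib.MP_b414a3_an.GA.UMul
import Pool.Agent.Lib.MP_b414a3_an.GA.UTsum

set_option autoImplicit false

/-!
GA-UCosh. `cosh (c ‖R z‖)` has majorant `cosh (c (‖R z‖ + r))` if `‖R‖ ≤ 1`.

(1) `q z = ‖R z‖ ^ 2` has `UA q z r ((‖R z‖ + r) ^ 2)`: `q (z + y) = ‖R z‖² + 2 ⟪R z, R y⟫ + ⟪R y, R y⟫`; `p 0 = ‖R z‖²`,
    `p 1 = 2 ⟪R z, R ·⟫` (norm `≤ 2 ‖R z‖`), `p 2 = (y, y') ↦ ⟪R y, R y'⟫` (norm `≤ 1`).
(2) `cosh (c s) = ∑ c^(2n) (s²)^n / (2n)!` (`Real.hasSum_cosh`), so `cosh (c ‖R z‖) = ∑ (c²)^n / (2n)! (q z)^n`; `UA.pow`,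
    `UA.const_mul`, `UA.tsum`: the majorant is `∑ (c²)^n / (2n)! ((‖R z‖ + r)²)^n = cosh (c (‖R z‖ + r))`.
-/

namespace Pool.Agent.Lib.MP_b414a3_an.GA

section

variable {E : Type*} [NormedAddCommGroup E] [NormedSpace ℝ E]
variable {H : Type*} [NormedAddCommGroup H] [InnerProductSpace ℝ H]

private theorem UA_homog {k : ℕ} (A : ContinuousMultilinearMap ℝ (fun _ : Fin k => E) ℝ) (z : E)
    (r : ℝ) : UA (fun y => A (fun _ => y - z)) z r (‖A‖ * r ^ k) := by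
  classical
  let p : FormalMultilinearSeries ℝ E ℝ :=
    (Pi.single k A : ∀ n : ℕ, ContinuousMultilinearMap ℝ (fun _ : Fin n => E) ℝ)
  have hk : p k = A :=
    Pi.single_eq_same (M := fun n : ℕ => ContinuousMultilinearMap ℝ (fun _ : Fin n => E) ℝ) k A
  have hn : ∀ n, n ≠ k → p n = 0 := fun n hn =>
    Pi.single_eq_of_ne (M := fun n : ℕ => ContinuousMultilinearMap ℝ (fun _ : Fin n => E) ℝ) hn A
  have h1 : HasSum (fun n => ‖p n‖ * r ^ n) (‖p k‖ * r ^ k) := by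
    refine hasSum_single k fun n hne => ?_
    rw [hn n hne, norm_zero, zero_mul]
  refine ⟨p, ?_, h1.summable, ?_⟩
  · intro y _
    have h2 : HasSum (fun n => p n (fun _ => y)) (p k (fun _ => y)) := by
      refine hasSum_single k fun n hne => ?_
      rw [hn n hne]
      rfl
    have h3 : A (fun _ => z + y - z) = p k (fun _ => y) := by
      rw [hk, add_sub_cancel_left]
    show HasSum (fun n => p n (fun _ => y)) (A (fun _ => z + y - z))
    rw [h3]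
    exact h2
  · rw [h1.tsum_eq, hk]

private noncomputable def sqML (R : E →L[ℝ] H) : MultilinearMap ℝ (fun _ : Fin 2 => E) ℝ where
  toFun v := inner ℝ (R (v 0)) (R (v 1))
  map_update_add' := by
    intro inst v i a b
    fin_cases i
    · simp [inner_add_left]
    · simp [inner_add_right]
  map_update_smul' := by
    intro inst v i c a
    fin_cases i
    · simp [real_inner_smul_left]
    · simp [real_inner_smul_right]

private theorem sqML_bound (R : E →L[ℝ] H) (hR : ∀ z, ‖R z‖ ≤ ‖z‖) (v : Fin 2 → E) :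
    ‖sqML R v‖ ≤ 1 * ∏ i, ‖v i‖ := by
  have h1 : ‖sqML R v‖ ≤ ‖R (v 0)‖ * ‖R (v 1)‖ := norm_inner_le_norm _ _
  rw [Fin.prod_univ_two, one_mul]
  exact h1.trans (mul_le_mul (hR _) (hR _) (norm_nonneg _) (norm_nonneg _))

private theorem UA_sq (R : E →L[ℝ] H) (hR : ∀ z, ‖R z‖ ≤ ‖z‖) (z : E) {r : ℝ} (hr : 0 < r) :
    UA (fun y => ‖R y‖ ^ 2) z r ((‖R z‖ + r) ^ 2) := by
  let B : ContinuousMultilinearMap ℝ (fun _ : Fin 2 => E) ℝ :=
    (sqML R).mkContinuous 1 (sqML_bound R hR)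
  have hB : ‖B‖ ≤ 1 := MultilinearMap.mkContinuous_norm_le _ zero_le_one _
  have hBd : ∀ y : E, B (fun _ => y) = inner ℝ (R y) (R y) := fun y => rfl
  let l : E →L[ℝ] ℝ := (2 : ℝ) • (innerSL ℝ (R z)).comp R
  have hld : ∀ y : E, l y = 2 * inner ℝ (R z) (R y) := fun y => rfl
  have hR1 : ‖R‖ ≤ 1 := by
    refine ContinuousLinearMap.opNorm_le_bound _ zero_le_one fun x => ?_
    rw [one_mul]
    exact hR x
  have hl : ‖l‖ ≤ 2 * ‖R z‖ := by
    refine ContinuousLinearMap.opNorm_le_bound _ (by positivity) fun x => ?_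
    rw [hld, norm_mul, Real.norm_two, mul_assoc]
    refine mul_le_mul_of_nonneg_left ?_ (by norm_num)
    exact (norm_inner_le_norm _ _).trans (mul_le_mul_of_nonneg_left (hR x) (norm_nonneg _))
  let A : ContinuousMultilinearMap ℝ (fun _ : Fin 1 => E) ℝ :=
    (continuousMultilinearCurryFin1 ℝ E ℝ).symm l
  have hA : ‖A‖ = ‖l‖ := LinearIsometryEquiv.norm_map _ _
  have hAd : ∀ y : E, A (fun _ => y) = l y := fun y => rfl
  have h0 := UA.const (‖R z‖ ^ 2) z hr.le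
  have h1 := UA_homog A z r
  have h2 := UA_homog B z r
  have h3 := (h0.add hr.le h1).add hr.le h2
  refine (h3.mono ?_).congr ?_
  · rw [abs_of_nonneg (by positivity), hA, pow_one]
    have e1 : ‖l‖ * r ≤ 2 * ‖R z‖ * r := mul_le_mul_of_nonneg_right hl hr.le
    have e2 : ‖B‖ * r ^ 2 ≤ 1 * r ^ 2 := mul_le_mul_of_nonneg_right hB (by positivity)
    nlinarith
  · intro y _
    show ‖R z‖ ^ 2 + A (fun _ => z + y - z) + B (fun _ => z + y - z) = ‖R (z + y)‖ ^ 2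
    rw [add_sub_cancel_left, hAd, hBd, hld, map_add, norm_add_sq_real, real_inner_self_eq_norm_sq]

theorem UA.coshNorm (R : E →L[ℝ] H) (hR : ∀ z, ‖R z‖ ≤ ‖z‖) (c : ℝ) (z : E) {r : ℝ} (hr : 0 < r) :
    UA (fun y => Real.cosh (c * ‖R y‖)) z r (Real.cosh (c * (‖R z‖ + r))) := by
  have hc : ∀ s : ℝ, HasSum (fun n : ℕ => |c ^ (2 * n) / ((2 * n).factorial : ℝ)| * (s ^ 2) ^ n)
      (Real.cosh (c * s)) := by
    intro s
    have h1 := Real.hasSum_cosh (c * s)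
    refine h1.congr_fun ?_
    intro n
    have h2 : (0 : ℝ) ≤ c ^ (2 * n) / ((2 * n).factorial : ℝ) := by
      rw [pow_mul]
      positivity
    rw [abs_of_nonneg h2, mul_pow, ← pow_mul]
    ring
  have h1 : ∀ n : ℕ, UA (fun y => c ^ (2 * n) / ((2 * n).factorial : ℝ) * (‖R y‖ ^ 2) ^ n) z r
      (|c ^ (2 * n) / ((2 * n).factorial : ℝ)| * ((‖R z‖ + r) ^ 2) ^ n) := fun n =>
    UA.const_mul hr.le _ ((UA_sq R hR z hr).pow hr.le n)
  have h2 := UA.tsum hr h1 (hc (‖R z‖ + r)).summable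
  rw [(hc (‖R z‖ + r)).tsum_eq] at h2
  refine h2.congr ?_
  intro y _
  show ∑' n : ℕ, c ^ (2 * n) / ((2 * n).factorial : ℝ) * (‖R (z + y)‖ ^ 2) ^ n =
    Real.cosh (c * ‖R (z + y)‖)
  rw [← (hc ‖R (z + y)‖).tsum_eq]
  refine tsum_congr fun n => ?_
  have h2 : (0 : ℝ) ≤ c ^ (2 * n) / ((2 * n).factorial : ℝ) := by
    rw [pow_mul]
    positivity
  rw [abs_of_nonneg h2]

end

end Pool.Agent.Lib.MP_b414a3_an.GA
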