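import Pool.Agent.Lib.MP_b414a3_an.GA.UBasic

set_option autoImplicit false

/-!
GA-UExp. Majorant of `exp` of an affine function.

`p n = (exp (l x + c) / n!) • (v ↦ ∏ i, l (v i))` (`ContinuousMultilinearMap.mkPiAlgebraFin ℝ n ℝ` or `mkPiAlgebra` composed with `l` on
every factor, `compContinuousLinearMap`), norm `≤ exp (l x + c) / n! * ‖l‖ ^ n`;
`exp (l (x + y) + c) = exp (l x + c) * ∑ (l y) ^ n / n!` (`NormedSpace.expSeries_div_hasSum_exp` / `Real.hasSum_exp`-like), and the majorant sum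
is `≤ exp (l x + c) * ∑ (‖l‖ r) ^ n / n! = exp (l x + c + ‖l‖ r)`.
-/

namespace Pool.Agent.Lib.MP_b414a3_an.GA

section

variable {E : Type*} [NormedAddCommGroup E] [NormedSpace ℝ E]

/-- the power series of `exp (l y + c)` at `x` -/
private noncomputable def gaUExp_p (l : E →L[ℝ] ℝ) (c : ℝ) (x : E) :
    FormalMultilinearSeries ℝ E ℝ := fun n =>
  (Real.exp (l x + c) / (n.factorial : ℝ)) •
    (ContinuousMultilinearMap.mkPiAlgebraFin ℝ n ℝ).compContinuousLinearMap (fun _ : Fin n => l)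

theorem UA.expAffine (l : E →L[ℝ] ℝ) (c : ℝ) (x : E) {r : ℝ} (hr : 0 ≤ r) :
    UA (fun y => Real.exp (l y + c)) x r (Real.exp (l x + c + ‖l‖ * r)) := by
  have hsum : HasSum (fun n : ℕ => Real.exp (l x + c) * ((‖l‖ * r) ^ n / (n.factorial : ℝ)))
      (Real.exp (l x + c + ‖l‖ * r)) := by
    rw [Real.exp_add (l x + c) (‖l‖ * r)]
    have h1 := NormedSpace.expSeries_div_hasSum_exp (‖l‖ * r)
    rw [← Real.exp_eq_exp_ℝ] at h1
    exact h1.mul_left _
  have hterm : ∀ n : ℕ, ‖gaUExp_p l c x n‖ * r ^ n ≤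
      Real.exp (l x + c) * ((‖l‖ * r) ^ n / (n.factorial : ℝ)) := by
    intro n
    have h1 : ‖gaUExp_p l c x n‖ ≤ Real.exp (l x + c) / (n.factorial : ℝ) * ‖l‖ ^ n := by
      unfold gaUExp_p
      rw [norm_smul, Real.norm_of_nonneg (by positivity)]
      refine mul_le_mul_of_nonneg_left ?_ (by positivity)
      have h2 := ContinuousMultilinearMap.norm_compContinuousLinearMap_le
        (ContinuousMultilinearMap.mkPiAlgebraFin ℝ n ℝ) (fun _ : Fin n => l)
      rw [ContinuousMultilinearMap.norm_mkPiAlgebraFin, one_mul, Finset.prod_const,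
        Finset.card_univ, Fintype.card_fin] at h2
      exact h2
    calc ‖gaUExp_p l c x n‖ * r ^ n
        ≤ (Real.exp (l x + c) / (n.factorial : ℝ) * ‖l‖ ^ n) * r ^ n :=
          mul_le_mul_of_nonneg_right h1 (pow_nonneg hr n)
      _ = Real.exp (l x + c) * ((‖l‖ * r) ^ n / (n.factorial : ℝ)) := by
          rw [mul_pow]
          ring
  have hnn : ∀ n : ℕ, 0 ≤ ‖gaUExp_p l c x n‖ * r ^ n := fun n =>
    mul_nonneg (norm_nonneg _) (pow_nonneg hr n)
  have hs : Summable (fun n => ‖gaUExp_p l c x n‖ * r ^ n) :=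
    Summable.of_nonneg_of_le hnn hterm hsum.summable
  refine ⟨gaUExp_p l c x, ?_, hs, ?_⟩
  · intro y _
    have h1 := NormedSpace.expSeries_div_hasSum_exp (l y)
    rw [← Real.exp_eq_exp_ℝ] at h1
    have h2 := h1.mul_left (Real.exp (l x + c))
    have h3 : Real.exp (l x + c) * Real.exp (l y) = Real.exp (l (x + y) + c) := by
      rw [← Real.exp_add, map_add]
      congr 1
      ring
    rw [h3] at h2
    convert! h2 using 2 with n
    unfold gaUExp_p
    simp only [_root_.smul_apply,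
      ContinuousMultilinearMap.compContinuousLinearMap_apply,
      ContinuousMultilinearMap.mkPiAlgebraFin_apply, List.ofFn_const, List.prod_replicate,
      smul_eq_mul]
    ring
  · rw [← hsum.tsum_eq]
    exact hs.tsum_le_tsum hterm hsum.summable

end

end Pool.Agent.Lib.MP_b414a3_an.GA
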