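import Pool.Agent.Lib.MP_b414a3_an.GA.TermA
import Pool.Agent.Lib.MP_b414a3_an.GA.UCosh
import Pool.Agent.Lib.MP_b414a3_an.GA.UExp

set_option autoImplicit false

/-!
GA-TermUA. Majorant of a term.

On `E = H × ℝ` (sup norm).  For `α ∈ A k i` the exponent is `l z + c₀` with the continuous linear
`l z = lam ((1 - s) α.1 z.1 - z.2)`, `‖l‖ ≤ lam ((1 - s) ‖α.1‖ + 1)` (`1 - s ≥ 0`, `lam ≥ 0`, `‖z.1‖, ‖z.2‖ ≤ ‖z‖`);
`UA.expAffine`, then `UA.mono`.  The second factor: `UA.coshNorm` with `R z = z.1 - P i z.1` (`(id - P i) ∘ fst`), `‖R z‖ ≤ ‖z.1‖ ≤ ‖z‖`,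
`c = lam σ`, majorant `cosh (lam σ (‖R z‖ + r)) ≤ exp (lam σ (‖R z‖ + r))`.  Multiply (`UA.mul`), add the exponents, sum over `A k i` (`UA.sum`).
-/

namespace Pool.Agent.Lib.MP_b414a3_an.GA

section

variable {H : Type*} [NormedAddCommGroup H] [InnerProductSpace ℝ H]
variable {U : Set H} {f : H → ℝ} {a b : ℝ} {η : ℝ → ℝ}

theorem term_UA (d : Data U f a b η) (ha : 0 < a) (k i : ℕ) (x : H) (t : ℝ) {r : ℝ}
    (hr : 0 < r) :
    UA (d.term k i) (x, t) r (∑ α ∈ d.A k i, Real.exp (d.lam k i * X d k i α x t r)) := by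
  have hlam : 1 ≤ d.lam k i := (one_le_lam d k i).1
  have hlam0 : 0 ≤ d.lam k i := zero_le_one.trans hlam
  have hs : d.s k ≤ 1 / 2 := (d.hs k).2
  have hs1 : 0 ≤ 1 - d.s k := by linarith
  have hσ : 0 < d.σ k := sigma_pos d ha k
  let R : (H × ℝ) →L[ℝ] H :=
    ContinuousLinearMap.fst ℝ H ℝ - (d.P i).comp (ContinuousLinearMap.fst ℝ H ℝ)
  have hRap : ∀ z : H × ℝ, R z = z.1 - d.P i z.1 := fun z => rfl
  have hR : ∀ z : H × ℝ, ‖R z‖ ≤ ‖z‖ := fun z => by
    rw [hRap]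
    exact (d.tails.contr i z.1).trans (norm_fst_le z)
  have key : ∀ α ∈ d.A k i, UA (fun z : H × ℝ =>
      Real.exp (d.lam k i * ((1 - d.s k) * (α.1 z.1 + α.2) + d.c k + d.κ k i - z.2)) *
        Real.cosh (d.lam k i * d.σ k * ‖z.1 - d.P i z.1‖)) (x, t) r
        (Real.exp (d.lam k i * X d k i α x t r)) := by
    intro α _
    let l : (H × ℝ) →L[ℝ] ℝ :=
      d.lam k i • ((1 - d.s k) • α.1.comp (ContinuousLinearMap.fst ℝ H ℝ) -
        ContinuousLinearMap.snd ℝ H ℝ)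
    have hlap : ∀ z : H × ℝ, l z = d.lam k i * ((1 - d.s k) * α.1 z.1 - z.2) := fun z => rfl
    have hlnorm : ‖l‖ ≤ d.lam k i * ((1 - d.s k) * ‖α.1‖ + 1) := by
      refine ContinuousLinearMap.opNorm_le_bound _ (by positivity) (fun z => ?_)
      rw [hlap, Real.norm_eq_abs, abs_mul, abs_of_nonneg hlam0, mul_assoc]
      refine mul_le_mul_of_nonneg_left ?_ hlam0
      have e1 : |α.1 z.1| ≤ ‖α.1‖ * ‖z‖ := by
        have e := α.1.le_opNorm z.1
        rw [Real.norm_eq_abs] at e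
        exact e.trans (mul_le_mul_of_nonneg_left (norm_fst_le z) (norm_nonneg _))
      have e2 : |z.2| ≤ ‖z‖ := by
        rw [← Real.norm_eq_abs]
        exact norm_snd_le z
      calc |(1 - d.s k) * α.1 z.1 - z.2| ≤ |(1 - d.s k) * α.1 z.1| + |z.2| := abs_sub _ _
        _ = (1 - d.s k) * |α.1 z.1| + |z.2| := by rw [abs_mul, abs_of_nonneg hs1]
        _ ≤ (1 - d.s k) * (‖α.1‖ * ‖z‖) + ‖z‖ :=
          add_le_add (mul_le_mul_of_nonneg_left e1 hs1) e2
        _ = ((1 - d.s k) * ‖α.1‖ + 1) * ‖z‖ := by ring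
    have h1 := UA.expAffine l
      (d.lam k i * ((1 - d.s k) * α.2 + d.c k + d.κ k i)) (x, t) hr.le
    have h2 := UA.coshNorm R hR (d.lam k i * d.σ k) (x, t) hr
    have h3 := UA.mul hr.le h1 h2
    refine (UA.congr h3 ?_).mono ?_
    · intro y _
      simp only [hlap, hRap]
      congr 2
      ring
    · have hc : Real.cosh (d.lam k i * d.σ k * (‖R (x, t)‖ + r)) ≤
          Real.exp (d.lam k i * d.σ k * (‖R (x, t)‖ + r)) := by
        have hnn : 0 ≤ d.lam k i * d.σ k * (‖R (x, t)‖ + r) := by positivity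
        rw [Real.cosh_eq]
        have : Real.exp (-(d.lam k i * d.σ k * (‖R (x, t)‖ + r))) ≤
            Real.exp (d.lam k i * d.σ k * (‖R (x, t)‖ + r)) :=
          Real.exp_le_exp.mpr (by linarith)
        linarith
      refine (mul_le_mul_of_nonneg_left hc (Real.exp_pos _).le).trans ?_
      rw [← Real.exp_add]
      refine Real.exp_le_exp.mpr ?_
      have hX : d.lam k i * X d k i α x t r =
          l (x, t) + d.lam k i * ((1 - d.s k) * α.2 + d.c k + d.κ k i) +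
            d.lam k i * ((1 - d.s k) * ‖α.1‖ + 1) * r +
            d.lam k i * d.σ k * (‖R (x, t)‖ + r) := by
        rw [hlap, hRap]
        unfold X
        ring
      rw [hX]
      have := mul_le_mul_of_nonneg_right hlnorm hr.le
      linarith
  have hsum := UA.sum (d.A k i) hr.le key
  exact UA.congr hsum (fun y _ => rfl)

end

end Pool.Agent.Lib.MP_b414a3_an.GA
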