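import Pool.Agent.Lib.MP_b414a3_an.GA.Defs

set_option autoImplicit false

/-!
GA-UBasic. The majorant algebra, first part.

* `add`, `const_mul`, `sum`: sum / scalar multiple of the series; `norm_add_le`.
* `analyticAt`: `HasFPowerSeriesOnBall` with radius `r` (`FormalMultilinearSeries.le_radius_of_summable_norm` or
  `le_radius_of_bound`), then `.analyticAt`.
* `abs_le`: `|p n (y,..,y)| ≤ ‖p n‖ ‖y‖ ^ n ≤ ‖p n‖ r ^ n`.
-/

namespace Pool.Agent.Lib.MP_b414a3_an.GA

section

variable {E : Type*} [NormedAddCommGroup E] [NormedSpace ℝ E]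

theorem UA.mono {f : E → ℝ} {x : E} {r M M' : ℝ} (h : UA f x r M) (hM : M ≤ M') : UA f x r M' := by
  obtain ⟨p, h1, h2, h3⟩ := h
  exact ⟨p, h1, h2, h3.trans hM⟩

theorem UA.congr {f g : E → ℝ} {x : E} {r M : ℝ} (h : UA f x r M)
    (hfg : ∀ y, ‖y‖ < r → f (x + y) = g (x + y)) : UA g x r M := by
  obtain ⟨p, h1, h2, h3⟩ := h
  exact ⟨p, fun y hy => (hfg y hy) ▸ h1 y hy, h2, h3⟩

theorem UA.nonneg {f : E → ℝ} {x : E} {r M : ℝ} (hr : 0 ≤ r) (h : UA f x r M) : 0 ≤ M := by
  obtain ⟨p, -, -, h3⟩ := h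
  exact le_trans (tsum_nonneg fun n => mul_nonneg (norm_nonneg _) (pow_nonneg hr n)) h3

theorem UA.abs_le {f : E → ℝ} {x : E} {r M : ℝ} (h : UA f x r M) {y : E} (hy : ‖y‖ < r) :
    |f (x + y)| ≤ M := by
  obtain ⟨p, h1, h2, h3⟩ := h
  have hb : ∀ n, ‖p n (fun _ => y)‖ ≤ ‖p n‖ * r ^ n := by
    intro n
    have e1 := (p n).le_opNorm (fun _ => y)
    have e2 : (∏ _i : Fin n, ‖y‖) = ‖y‖ ^ n := by simp
    rw [e2] at e1
    exact e1.trans (mul_le_mul_of_nonneg_left (pow_le_pow_left₀ (norm_nonneg y) hy.le n)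
      (norm_nonneg _))
  have h4 := tsum_of_norm_bounded h2.hasSum hb
  rw [(h1 y hy).tsum_eq] at h4
  exact h4.trans h3

theorem UA.analyticAt {f : E → ℝ} {x : E} {r M : ℝ} (hr : 0 < r) (h : UA f x r M) :
    AnalyticAt ℝ f x := by
  obtain ⟨p, h1, h2, -⟩ := h
  have hrad : ENNReal.ofReal r ≤ p.radius := by
    have h5 : (Real.toNNReal r : ENNReal) ≤ p.radius := by
      refine FormalMultilinearSeries.le_radius_of_summable_norm p ?_
      rw [Real.coe_toNNReal r hr.le]
      exact h2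
    exact h5
  have hps : HasFPowerSeriesOnBall f p x (ENNReal.ofReal r) :=
    { r_le := hrad
      r_pos := by simpa using hr
      hasSum := by
        intro y hy
        refine h1 y ?_
        rw [Metric.eball_ofReal] at hy
        simpa using hy }
  exact hps.analyticAt

theorem UA.const (c : ℝ) (x : E) {r : ℝ} (hr : 0 ≤ r) : UA (fun _ : E => c) x r |c| := by
  have _ := hr
  have hz : ∀ n, n ≠ 0 → constFormalMultilinearSeries ℝ E c n = 0 := fun n hn =>
    constFormalMultilinearSeries_apply_of_nonzero hn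
  have hn0 : ‖constFormalMultilinearSeries ℝ E c 0‖ = |c| := by
    simp [constFormalMultilinearSeries]
  have hS : HasSum (fun n => ‖constFormalMultilinearSeries ℝ E c n‖ * r ^ n) |c| := by
    have h1 := hasSum_single (f := fun n => ‖constFormalMultilinearSeries ℝ E c n‖ * r ^ n) 0
      (fun n hn => by simp [hz n hn])
    simpa [hn0] using h1
  refine ⟨constFormalMultilinearSeries ℝ E c, ?_, hS.summable, hS.tsum_eq.le⟩
  intro y _
  have h1 := hasSum_single (f := fun n => constFormalMultilinearSeries ℝ E c n (fun _ => y)) 0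
      (fun n hn => by simp [hz n hn])
  simpa using h1

theorem UA.add {f g : E → ℝ} {x : E} {r M M' : ℝ} (hr : 0 ≤ r) (hf : UA f x r M) (hg : UA g x r M') :
    UA (fun y => f y + g y) x r (M + M') := by
  obtain ⟨p, h1, h2, h3⟩ := hf
  obtain ⟨q, k1, k2, k3⟩ := hg
  have hb : ∀ n, ‖(p + q) n‖ * r ^ n ≤ ‖p n‖ * r ^ n + ‖q n‖ * r ^ n := by
    intro n
    rw [← add_mul]
    exact mul_le_mul_of_nonneg_right (norm_add_le _ _) (pow_nonneg hr n)
  have hs : Summable (fun n => ‖(p + q) n‖ * r ^ n) :=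
    Summable.of_nonneg_of_le (fun n => mul_nonneg (norm_nonneg _) (pow_nonneg hr n)) hb (h2.add k2)
  refine ⟨p + q, ?_, hs, ?_⟩
  · intro y hy
    exact (h1 y hy).add (k1 y hy)
  · refine (hs.tsum_le_tsum hb (h2.add k2)).trans ?_
    rw [h2.tsum_add k2]
    exact add_le_add h3 k3

theorem UA.const_mul {f : E → ℝ} {x : E} {r M : ℝ} (hr : 0 ≤ r) (c : ℝ) (hf : UA f x r M) :
    UA (fun y => c * f y) x r (|c| * M) := by
  have _ := hr
  obtain ⟨p, h1, h2, h3⟩ := hf
  have he : ∀ n, ‖(c • p) n‖ * r ^ n = |c| * (‖p n‖ * r ^ n) := by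
    intro n
    have e1 : (c • p) n = c • p n := rfl
    rw [e1, norm_smul, Real.norm_eq_abs, mul_assoc]
  refine ⟨c • p, ?_, ?_, ?_⟩
  · intro y hy
    exact (h1 y hy).mul_left c
  · simp only [he]
    exact h2.mul_left _
  · simp only [he]
    rw [tsum_mul_left]
    exact mul_le_mul_of_nonneg_left h3 (abs_nonneg c)

theorem UA.sum {ι : Type*} (s : Finset ι) {f : ι → E → ℝ} {x : E} {r : ℝ} {M : ι → ℝ} (hr : 0 ≤ r)
    (hf : ∀ i ∈ s, UA (f i) x r (M i)) : UA (fun y => ∑ i ∈ s, f i y) x r (∑ i ∈ s, M i) := by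
  classical
  induction s using Finset.induction_on with
  | empty =>
    have h := UA.const (E := E) 0 x hr
    simpa using h
  | insert a s ha ih =>
    have h1 := hf a (Finset.mem_insert_self a s)
    have h2 := ih (fun i hi => hf i (Finset.mem_insert_of_mem hi))
    have h3 := h1.add hr h2
    simpa [Finset.sum_insert ha] using h3

end

end Pool.Agent.Lib.MP_b414a3_an.GA
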