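import Pool.Agent.Lib.MP_b414a3_an.GA.UBasic

set_option autoImplicit false
set_option linter.unusedSectionVars false

/-!
GA-UMul. Products in the majorant algebra.

Product series: for `p` (for `f`) and `q` (for `g`) put `s n = ∑_{(k,l), k + l = n} (v ↦ p k (first k entries of v) * q l (last l entries))`.
For fixed `k l` the map `v : Fin (k+l) → E ↦ p k (fun i => v (Fin.castAdd l i)) * q l (fun i => v (Fin.natAdd k i))` is a continuous
multilinear map with norm `≤ ‖p k‖ ‖q l‖` (build the `MultilinearMap` by hand, cases `Fin.addCases` on the updated index;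
`MultilinearMap.mkContinuous` gives the bound; or use existing combinators of Mathlib).
Transport along `k + l = n` with `domDomCongr (finCongr h)` (norm preserved).
Values on the diagonal: `s n (y,...,y) = ∑_{k+l=n} p k (y..) * q l (y..)`.  Sum: absolute convergence
(`|p k (y..)| ≤ ‖p k‖ ‖y‖^k`), `tsum_mul_tsum_eq_tsum_sum_antidiagonal_of_summable_norm` and
`summable_norm_sum_mul_antidiagonal_of_summable_norm`.  Norm bound: `∑_n ‖s n‖ r^n ≤ ∑_n ∑_{k+l=n} ‖p k‖ r^k ‖q l‖ r^l = (..)(..)`.
-/

namespace Pool.Agent.Lib.MP_b414a3_an.GA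

section

variable {E : Type*} [NormedAddCommGroup E] [NormedSpace ℝ E]

private theorem upd_left {k l : ℕ} [DecidableEq (Fin (k + l))] (v : Fin (k + l) → E) (j : Fin k)
    (a : E) :
    (fun i => Function.update v (Fin.castAdd l j) a (Fin.castAdd l i)) =
      Function.update (fun i => v (Fin.castAdd l i)) j a := by
  funext i
  by_cases h : i = j
  · subst h
    simp
  · have h' : Fin.castAdd l i ≠ Fin.castAdd l j := fun hh => h (Fin.castAdd_injective k l hh)
    simp [Function.update_of_ne h, Function.update_of_ne h']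

private theorem upd_left' {k l : ℕ} [DecidableEq (Fin (k + l))] (v : Fin (k + l) → E) (j : Fin l)
    (a : E) :
    (fun i => Function.update v (Fin.natAdd k j) a (Fin.castAdd l i)) =
      (fun i => v (Fin.castAdd l i)) := by
  funext i
  have h' : Fin.castAdd l i ≠ Fin.natAdd k j := by
    intro hh
    have := congrArg Fin.val hh
    simp at this
    have := i.isLt
    omega
  simp [Function.update_of_ne h']

private theorem upd_right {k l : ℕ} [DecidableEq (Fin (k + l))] (v : Fin (k + l) → E) (j : Fin l)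
    (a : E) :
    (fun i => Function.update v (Fin.natAdd k j) a (Fin.natAdd k i)) =
      Function.update (fun i => v (Fin.natAdd k i)) j a := by
  funext i
  by_cases h : i = j
  · subst h
    simp
  · have h' : Fin.natAdd k i ≠ Fin.natAdd k j := fun hh => h (Fin.natAdd_injective l k hh)
    simp [Function.update_of_ne h, Function.update_of_ne h']

private theorem upd_right' {k l : ℕ} [DecidableEq (Fin (k + l))] (v : Fin (k + l) → E) (j : Fin k)
    (a : E) :
    (fun i => Function.update v (Fin.castAdd l j) a (Fin.natAdd k i)) =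
      (fun i => v (Fin.natAdd k i)) := by
  funext i
  have h' : Fin.natAdd k i ≠ Fin.castAdd l j := by
    intro hh
    have := congrArg Fin.val hh
    simp at this
    have := j.isLt
    omega
  simp [Function.update_of_ne h']

private noncomputable def mulML {k l : ℕ} (A : ContinuousMultilinearMap ℝ (fun _ : Fin k => E) ℝ)
    (B : ContinuousMultilinearMap ℝ (fun _ : Fin l => E) ℝ) :
    MultilinearMap ℝ (fun _ : Fin (k + l) => E) ℝ where
  toFun := fun v => A (fun i => v (Fin.castAdd l i)) * B (fun i => v (Fin.natAdd k i))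
  map_update_add' := by
    intro inst v i a b
    induction i using Fin.addCases with
    | left j =>
      rw [upd_left, upd_left, upd_left, upd_right', upd_right', upd_right', A.map_update_add]
      ring
    | right j =>
      rw [upd_left', upd_left', upd_left', upd_right, upd_right, upd_right, B.map_update_add]
      ring
  map_update_smul' := by
    intro inst v i c a
    induction i using Fin.addCases with
    | left j =>
      rw [upd_left, upd_left, upd_right', upd_right', A.map_update_smul]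
      simp only [smul_eq_mul]
      ring
    | right j =>
      rw [upd_left', upd_left', upd_right, upd_right, B.map_update_smul]
      simp only [smul_eq_mul]
      ring

private theorem mulML_bound {k l : ℕ} (A : ContinuousMultilinearMap ℝ (fun _ : Fin k => E) ℝ)
    (B : ContinuousMultilinearMap ℝ (fun _ : Fin l => E) ℝ) (v : Fin (k + l) → E) :
    ‖mulML A B v‖ ≤ ‖A‖ * ‖B‖ * ∏ i, ‖v i‖ := by
  have h1 := A.le_opNorm (fun i => v (Fin.castAdd l i))
  have h2 := B.le_opNorm (fun i => v (Fin.natAdd k i))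
  have h3 : ‖mulML A B v‖ =
      ‖A (fun i => v (Fin.castAdd l i))‖ * ‖B (fun i => v (Fin.natAdd k i))‖ := by
    rw [← norm_mul]; rfl
  rw [h3, Fin.prod_univ_add]
  calc _ ≤ (‖A‖ * ∏ i, ‖v (Fin.castAdd l i)‖) * (‖B‖ * ∏ i, ‖v (Fin.natAdd k i)‖) :=
        mul_le_mul h1 h2 (norm_nonneg _) (by positivity)
    _ = _ := by ring

private noncomputable def mulCML {k l : ℕ} (A : ContinuousMultilinearMap ℝ (fun _ : Fin k => E) ℝ)
    (B : ContinuousMultilinearMap ℝ (fun _ : Fin l => E) ℝ) :
    ContinuousMultilinearMap ℝ (fun _ : Fin (k + l) => E) ℝ :=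
  (mulML A B).mkContinuous (‖A‖ * ‖B‖) (mulML_bound A B)

private theorem mulCML_norm {k l : ℕ} (A : ContinuousMultilinearMap ℝ (fun _ : Fin k => E) ℝ)
    (B : ContinuousMultilinearMap ℝ (fun _ : Fin l => E) ℝ) :
    ‖mulCML A B‖ ≤ ‖A‖ * ‖B‖ :=
  MultilinearMap.mkContinuous_norm_le _ (by positivity) _

private theorem mulCML_diag {k l : ℕ} (A : ContinuousMultilinearMap ℝ (fun _ : Fin k => E) ℝ)
    (B : ContinuousMultilinearMap ℝ (fun _ : Fin l => E) ℝ) (y : E) :
    mulCML A B (fun _ => y) = A (fun _ => y) * B (fun _ => y) := rfl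

/-- Existence of the degree `n` part for each pair `(k, l)`. -/
private theorem exists_mul (n k l : ℕ) (h : k + l = n)
    (A : ContinuousMultilinearMap ℝ (fun _ : Fin k => E) ℝ)
    (B : ContinuousMultilinearMap ℝ (fun _ : Fin l => E) ℝ) :
    ∃ C : ContinuousMultilinearMap ℝ (fun _ : Fin n => E) ℝ,
      ‖C‖ ≤ ‖A‖ * ‖B‖ ∧ ∀ y : E, C (fun _ => y) = A (fun _ => y) * B (fun _ => y) := by
  subst h
  exact ⟨mulCML A B, mulCML_norm A B, mulCML_diag A B⟩

private theorem exists_series (p q : FormalMultilinearSeries ℝ E ℝ) (n : ℕ) :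
    ∃ C : ContinuousMultilinearMap ℝ (fun _ : Fin n => E) ℝ,
      ‖C‖ ≤ ∑ kl ∈ Finset.HasAntidiagonal.antidiagonal n, ‖p kl.1‖ * ‖q kl.2‖ ∧
      ∀ y : E, C (fun _ => y) =
        ∑ kl ∈ Finset.HasAntidiagonal.antidiagonal n, p kl.1 (fun _ => y) * q kl.2 (fun _ => y) := by
  classical
  have h : ∀ kl : ℕ × ℕ, ∃ C : ContinuousMultilinearMap ℝ (fun _ : Fin n => E) ℝ,
      kl ∈ Finset.HasAntidiagonal.antidiagonal n → (‖C‖ ≤ ‖p kl.1‖ * ‖q kl.2‖ ∧
        ∀ y : E, C (fun _ => y) = p kl.1 (fun _ => y) * q kl.2 (fun _ => y)) := by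
    intro kl
    by_cases hkl : kl ∈ Finset.HasAntidiagonal.antidiagonal n
    · obtain ⟨C, hC⟩ := exists_mul n kl.1 kl.2 (Finset.HasAntidiagonal.mem_antidiagonal.1 hkl) (p kl.1) (q kl.2)
      exact ⟨C, fun _ => hC⟩
    · exact ⟨0, fun h => absurd h hkl⟩
  choose C hC using h
  refine ⟨∑ kl ∈ Finset.HasAntidiagonal.antidiagonal n, C kl, ?_, ?_⟩
  · exact (norm_sum_le _ _).trans (Finset.sum_le_sum fun kl hkl => (hC kl hkl).1)
  · intro y
    rw [ContinuousMultilinearMap.sum_apply]
    exact Finset.sum_congr rfl fun kl hkl => (hC kl hkl).2 y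

theorem UA.mul {f g : E → ℝ} {x : E} {r M M' : ℝ} (hr : 0 ≤ r) (hf : UA f x r M)
    (hg : UA g x r M') : UA (fun y => f y * g y) x r (M * M') := by
  obtain ⟨p, hp1, hp2, hp3⟩ := hf
  obtain ⟨q, hq1, hq2, hq3⟩ := hg
  choose s hs1 hs2 using exists_series p q
  have hnp : ∀ n, ‖(‖p n‖ * r ^ n)‖ = ‖p n‖ * r ^ n := fun n => by
    rw [Real.norm_of_nonneg (by positivity)]
  have hnq : ∀ n, ‖(‖q n‖ * r ^ n)‖ = ‖q n‖ * r ^ n := fun n => by
    rw [Real.norm_of_nonneg (by positivity)]
  have hp2' : Summable (fun n => ‖(‖p n‖ * r ^ n)‖) := by simpa only [hnp] using hp2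
  have hq2' : Summable (fun n => ‖(‖q n‖ * r ^ n)‖) := by simpa only [hnq] using hq2
  have hsum := summable_norm_sum_mul_antidiagonal_of_summable_norm hp2' hq2'
  have htsum := tsum_mul_tsum_eq_tsum_sum_antidiagonal_of_summable_norm hp2' hq2'
  have hnn : ∀ n, 0 ≤ ∑ kl ∈ Finset.HasAntidiagonal.antidiagonal n, ‖p kl.1‖ * r ^ kl.1 * (‖q kl.2‖ * r ^ kl.2) :=
    fun n => Finset.sum_nonneg fun kl _ => by positivity
  have hsum' : Summable (fun n => ∑ kl ∈ Finset.HasAntidiagonal.antidiagonal n,
      ‖p kl.1‖ * r ^ kl.1 * (‖q kl.2‖ * r ^ kl.2)) := by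
    refine hsum.congr fun n => ?_
    rw [Real.norm_of_nonneg (hnn n)]
  have hle : ∀ n, ‖s n‖ * r ^ n ≤ ∑ kl ∈ Finset.HasAntidiagonal.antidiagonal n,
      ‖p kl.1‖ * r ^ kl.1 * (‖q kl.2‖ * r ^ kl.2) := by
    intro n
    calc ‖s n‖ * r ^ n ≤ (∑ kl ∈ Finset.HasAntidiagonal.antidiagonal n, ‖p kl.1‖ * ‖q kl.2‖) * r ^ n :=
          mul_le_mul_of_nonneg_right (hs1 n) (by positivity)
      _ = _ := by
          rw [Finset.sum_mul]
          refine Finset.sum_congr rfl fun kl hkl => ?_
          rw [← Finset.HasAntidiagonal.mem_antidiagonal.1 hkl, pow_add]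
          ring
  have hsS : Summable (fun n => ‖s n‖ * r ^ n) :=
    Summable.of_nonneg_of_le (fun n => by positivity) hle hsum'
  refine ⟨s, ?_, hsS, ?_⟩
  · intro y hy
    have hyr : ∀ n, ‖y‖ ^ n ≤ r ^ n := fun n => pow_le_pow_left₀ (norm_nonneg _) hy.le n
    have hpy : Summable (fun n => ‖p n (fun _ => y)‖) := by
      refine Summable.of_nonneg_of_le (fun n => norm_nonneg _) (fun n => ?_) hp2
      refine ((p n).le_opNorm _).trans ?_
      simp only [Finset.prod_const, Finset.card_univ, Fintype.card_fin]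
      exact mul_le_mul_of_nonneg_left (hyr n) (norm_nonneg _)
    have hqy : Summable (fun n => ‖q n (fun _ => y)‖) := by
      refine Summable.of_nonneg_of_le (fun n => norm_nonneg _) (fun n => ?_) hq2
      refine ((q n).le_opNorm _).trans ?_
      simp only [Finset.prod_const, Finset.card_univ, Fintype.card_fin]
      exact mul_le_mul_of_nonneg_left (hyr n) (norm_nonneg _)
    have h1 := summable_norm_sum_mul_antidiagonal_of_summable_norm hpy hqy
    have h2 := tsum_mul_tsum_eq_tsum_sum_antidiagonal_of_summable_norm hpy hqy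
    have h3 : Summable (fun n => ∑ kl ∈ Finset.HasAntidiagonal.antidiagonal n,
        p kl.1 (fun _ => y) * q kl.2 (fun _ => y)) := h1.of_norm
    have h4 : f (x + y) * g (x + y) = ∑' n, ∑ kl ∈ Finset.HasAntidiagonal.antidiagonal n,
        p kl.1 (fun _ => y) * q kl.2 (fun _ => y) := by
      rw [← (hp1 y hy).tsum_eq, ← (hq1 y hy).tsum_eq]
      exact h2
    show HasSum (fun n => s n (fun _ => y)) (f (x + y) * g (x + y))
    rw [h4]
    refine h3.hasSum.congr_fun ?_
    intro n
    exact hs2 n y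
  · have h5 : ∑' n, ‖s n‖ * r ^ n ≤ (∑' n, ‖p n‖ * r ^ n) * ∑' n, ‖q n‖ * r ^ n := by
      rw [htsum]
      exact hsS.tsum_le_tsum hle hsum'
    have h6 : 0 ≤ ∑' n, ‖p n‖ * r ^ n := tsum_nonneg fun n => by positivity
    have h7 : 0 ≤ ∑' n, ‖q n‖ * r ^ n := tsum_nonneg fun n => by positivity
    exact h5.trans (mul_le_mul hp3 hq3 h7 (h6.trans hp3))

theorem UA.pow {f : E → ℝ} {x : E} {r M : ℝ} (hr : 0 ≤ r) (hf : UA f x r M) (n : ℕ) :
    UA (fun y => f y ^ n) x r (M ^ n) := by
  induction n with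
  | zero =>
    have h := UA.const (1 : ℝ) x hr
    rw [abs_one] at h
    simpa only [pow_zero] using h
  | succ n ih =>
    have h := UA.mul hr ih hf
    simpa only [pow_succ] using h

end

end Pool.Agent.Lib.MP_b414a3_an.GA
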