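import Pool.Agent.Lib.MP_b414a3_an.GA.TermA

set_option autoImplicit false

/-!
GA-Upper. The sum at `t = f x + η (f x)` is `< 1`.

For `x ∈ U`, `α ∈ A k i`: `α x ≤ h k x ≤ f x`, `‖x - P x‖ ≤ ‖x‖`, `a ‖x‖ ≤ f x + b`, `σ = a s`, so
`(1-s) α x + σ ‖x - P x‖ ≤ (1-s) f x + s (f x + b) = f x + s b ≤ f x + η (f x)/8`; `cosh y ≤ exp y` for `y ≥ 0`.  Each summand is
`≤ exp (lam (f x + 3ε/8 - t))`  (`c ≤ ε/8`, `κ ≤ c ≤ ε/8`).
At `t = f x + η (f x)`: `term ≤ card * exp (- lam * 5ε/8)` and `lam * 5ε/8 ≥ 5 (k+i+1)(1 + log card)` (`hlam2` with `1 + 8/ε ≥ 8/ε`), so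
`term ≤ card^(1-5(k+i+1)) e^(-5(k+i+1)) ≤ e^(-5(k+i+1)) ≤ (1/8) (1/2)^k (1/2)^i`, sum `≤ 1/2`.
-/

namespace Pool.Agent.Lib.MP_b414a3_an.GA

section

variable {H : Type*} [NormedAddCommGroup H] [InnerProductSpace ℝ H]
variable {U : Set H} {f : H → ℝ} {a b : ℝ} {η : ℝ → ℝ}

private theorem gaU_cosh_le {y : ℝ} (hy : 0 ≤ y) : Real.cosh y ≤ Real.exp y := by
  rw [Real.cosh_eq]
  have h1 : Real.exp (-y) ≤ Real.exp y := Real.exp_le_exp.2 (by linarith)
  linarith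

theorem term_upper (d : Data U f a b η) (ha : 0 < a)
    (hab : ∀ x ∈ U, a * ‖x‖ - b ≤ f x) (k i : ℕ) {x : H} (hx : x ∈ U) (t : ℝ) :
    d.term k i (x, t) ≤ (d.A k i).card *
      Real.exp (d.lam k i * (f x - d.s k / 2 * (f x - b) + 2 * d.c k - t)) := by
  have hlam : 0 < d.lam k i := lt_of_lt_of_le one_pos (one_le_lam d k i).1
  have hσ := sigma_pos d ha k
  unfold Data.term
  rw [← nsmul_eq_mul]
  refine Finset.sum_le_card_nsmul _ _ _ fun α hα => ?_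
  show Real.exp (d.lam k i * ((1 - d.s k) * (α.1 x + α.2) + d.c k + d.κ k i - t)) *
      Real.cosh (d.lam k i * d.σ k * ‖x - d.P i x‖) ≤ _
  have h0 : 0 ≤ d.lam k i * d.σ k * ‖x - d.P i x‖ :=
    mul_nonneg (mul_nonneg hlam.le hσ.le) (norm_nonneg _)
  refine (mul_le_mul_of_nonneg_left (gaU_cosh_le h0) (Real.exp_nonneg _)).trans ?_
  rw [← Real.exp_add]
  apply Real.exp_le_exp.2
  have h1 : α.1 x + α.2 ≤ f x := (d.hA1 k i α hα x).trans (d.hle k x hx)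
  obtain ⟨hs0, hs1⟩ := d.hs k
  have h2 : (1 - d.s k) * (α.1 x + α.2) ≤ (1 - d.s k) * f x :=
    mul_le_mul_of_nonneg_left h1 (by linarith)
  have h3 : ‖x - d.P i x‖ ≤ ‖x‖ := d.tails.contr i x
  have h4 : d.σ k * ‖x - d.P i x‖ ≤ d.s k * ((f x + b) / 2) := by
    rw [d.hσ k]
    have h5 : a / 2 * ‖x‖ ≤ (f x + b) / 2 := by linarith [hab x hx]
    calc a / 2 * d.s k * ‖x - d.P i x‖ ≤ a / 2 * d.s k * ‖x‖ :=
          mul_le_mul_of_nonneg_left h3 (mul_nonneg (half_pos ha).le hs0.le)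
      _ = d.s k * (a / 2 * ‖x‖) := by ring
      _ ≤ d.s k * ((f x + b) / 2) := mul_le_mul_of_nonneg_left h5 hs0.le
  have h6 := (d.hκ k i).2
  have h8 : (1 - d.s k) * (α.1 x + α.2) + d.c k + d.κ k i - t + d.σ k * ‖x - d.P i x‖ ≤
      f x - d.s k / 2 * (f x - b) + 2 * d.c k - t := by
    have e1 : (1 - d.s k) * f x + d.s k * ((f x + b) / 2) = f x - d.s k / 2 * (f x - b) := by ring
    linarith
  calc d.lam k i * ((1 - d.s k) * (α.1 x + α.2) + d.c k + d.κ k i - t) +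
        d.lam k i * d.σ k * ‖x - d.P i x‖
      = d.lam k i * ((1 - d.s k) * (α.1 x + α.2) + d.c k + d.κ k i - t +
        d.σ k * ‖x - d.P i x‖) := by ring
    _ ≤ _ := mul_le_mul_of_nonneg_left h8 hlam.le

private theorem gaU_exp5 : Real.exp (-5) ≤ 1 / 32 := by
  have h1 : (2 : ℝ) ≤ Real.exp 1 := by
    have := Real.add_one_le_exp (1 : ℝ)
    linarith
  have h2 : (32 : ℝ) ≤ Real.exp 5 := by
    have h3 : Real.exp 5 = Real.exp 1 ^ 5 := by
      rw [← Real.exp_nat_mul]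
      norm_num
    rw [h3]
    calc (32 : ℝ) = 2 ^ 5 := by norm_num
      _ ≤ Real.exp 1 ^ 5 := pow_le_pow_left₀ (by norm_num) h1 5
  rw [Real.exp_neg, one_div]
  exact inv_anti₀ (by norm_num) h2

private theorem gaU_num (k i : ℕ) (c : ℝ) (hc : 1 ≤ c) :
    c * Real.exp (-(5 * (((k : ℝ) + i + 1) * (1 + Real.log c)))) ≤
      1 / 8 * ((1 / 2 : ℝ) ^ k * (1 / 2) ^ i) := by
  have hc0 : 0 < c := by linarith
  have hl : 0 ≤ Real.log c := Real.log_nonneg hc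
  have hki : (0 : ℝ) ≤ (k : ℝ) + i := by positivity
  have h1 : c * Real.exp (-(5 * (((k : ℝ) + i + 1) * (1 + Real.log c)))) ≤
      Real.exp ((-5) * ((k : ℝ) + i + 1)) := by
    have e1 : c * Real.exp (-(5 * (((k : ℝ) + i + 1) * (1 + Real.log c)))) =
        Real.exp (Real.log c + -(5 * (((k : ℝ) + i + 1) * (1 + Real.log c)))) := by
      rw [Real.exp_add, Real.exp_log hc0]
    rw [e1]
    apply Real.exp_le_exp.2
    have h2 : 0 ≤ ((k : ℝ) + i) * Real.log c := mul_nonneg hki hl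
    have e2 : Real.log c + -(5 * (((k : ℝ) + i + 1) * (1 + Real.log c))) =
        (-5) * ((k : ℝ) + i + 1) - (4 * Real.log c + 5 * (((k : ℝ) + i) * Real.log c)) := by
      ring
    rw [e2]
    linarith
  refine h1.trans ?_
  have e3 : (-5 : ℝ) * ((k : ℝ) + i + 1) = (k : ℝ) * (-5) + ((i : ℝ) * (-5) + -5) := by ring
  rw [e3, Real.exp_add, Real.exp_add, Real.exp_nat_mul, Real.exp_nat_mul]
  have h5 := gaU_exp5
  have h50 := (Real.exp_pos (-5)).le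
  have hk : Real.exp (-5) ^ k ≤ (1 / 2 : ℝ) ^ k := pow_le_pow_left₀ h50 (by linarith) k
  have hi : Real.exp (-5) ^ i ≤ (1 / 2 : ℝ) ^ i := pow_le_pow_left₀ h50 (by linarith) i
  have h8 : Real.exp (-5) ≤ 1 / 8 := by linarith
  calc Real.exp (-5) ^ k * (Real.exp (-5) ^ i * Real.exp (-5))
      ≤ (1 / 2 : ℝ) ^ k * ((1 / 2) ^ i * (1 / 8)) := by
        refine mul_le_mul hk (mul_le_mul hi h8 h50 (by positivity)) (by positivity)
          (by positivity)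
    _ = 1 / 8 * ((1 / 2 : ℝ) ^ k * (1 / 2) ^ i) := by ring

private theorem gaU_term (d : Data U f a b η) (ha : 0 < a)
    (hab : ∀ x ∈ U, a * ‖x‖ - b ≤ f x) {x : H} (hx : x ∈ U) (k i : ℕ) :
    d.term k i (x, f x + η (f x)) ≤ 1 / 8 * ((1 / 2 : ℝ) ^ k * (1 / 2) ^ i) := by
  have hcard : (1 : ℝ) ≤ ((d.A k i).card : ℝ) := by
    exact_mod_cast Finset.card_pos.2 (d.hA0 k i)
  have hl : 0 ≤ Real.log ((d.A k i).card : ℝ) := Real.log_nonneg hcard
  refine (term_upper d ha hab k i hx (f x + η (f x))).trans ?_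
  refine le_trans ?_ (gaU_num k i _ hcard)
  refine mul_le_mul_of_nonneg_left (Real.exp_le_exp.2 ?_) (by positivity)
  have e1 : f x - d.s k / 2 * (f x - b) + 2 * d.c k - (f x + η (f x)) ≤ -d.θ k := by
    have := d.hθ2 k x hx
    linarith
  have hlam : 0 < d.lam k i := lt_of_lt_of_le one_pos (one_le_lam d k i).1
  refine (mul_le_mul_of_nonneg_left e1 hlam.le).trans ?_
  rw [mul_neg]
  apply neg_le_neg
  set B := ((k : ℝ) + i + 1) * (1 + Real.log ((d.A k i).card : ℝ)) with hB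
  have hB0 : 0 ≤ B := mul_nonneg (by positivity) (by linarith)
  have hθ := d.hθ k
  have h1 : B * (5 / d.θ k) ≤ d.lam k i := by
    refine le_trans ?_ (d.hlam2 k i)
    rw [← hB]
    exact mul_le_mul_of_nonneg_left (by linarith) hB0
  calc 5 * B = B * (5 / d.θ k) * d.θ k := by
        field_simp
    _ ≤ d.lam k i * d.θ k := mul_le_mul_of_nonneg_right h1 hθ.le

theorem sum_upper (d : Data U f a b η) (ha : 0 < a)
    (hab : ∀ x ∈ U, a * ‖x‖ - b ≤ f x) {x : H} (hx : x ∈ U) :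
    Summable (fun p : ℕ × ℕ => d.term p.1 p.2 (x, f x + η (f x))) ∧
      ∑' p : ℕ × ℕ, d.term p.1 p.2 (x, f x + η (f x)) ≤ 1 / 2 := by
  have hg : HasSum (fun p : ℕ × ℕ => 1 / 8 * ((1 / 2 : ℝ) ^ p.1 * (1 / 2) ^ p.2)) (1 / 2) := by
    have h0 : Summable (fun p : ℕ × ℕ => (1 / 2 : ℝ) ^ p.1 * (1 / 2) ^ p.2) :=
      hasSum_geometric_two.summable.mul_of_nonneg hasSum_geometric_two.summable
        (fun n => by positivity) (fun n => by positivity)
    have h1 := (hasSum_geometric_two.mul hasSum_geometric_two h0).mul_left (1 / 8)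
    have e1 : (1 / 8 : ℝ) * (2 * 2) = 1 / 2 := by norm_num
    rw [e1] at h1
    exact h1
  have hle : ∀ p : ℕ × ℕ, d.term p.1 p.2 (x, f x + η (f x)) ≤
      1 / 8 * ((1 / 2 : ℝ) ^ p.1 * (1 / 2) ^ p.2) := fun p => gaU_term d ha hab hx p.1 p.2
  have hs : Summable (fun p : ℕ × ℕ => d.term p.1 p.2 (x, f x + η (f x))) :=
    Summable.of_nonneg_of_le (fun p => (term_pos d p.1 p.2 _).le) hle hg.summable
  refine ⟨hs, ?_⟩
  rw [← hg.tsum_eq]
  exact hs.tsum_le_tsum hle hg.summable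

end

end Pool.Agent.Lib.MP_b414a3_an.GA
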